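import Mathlib

set_option autoImplicit false

open Complex Set Topology unitInterval

namespace Pool.Agent.H712R2

/-- Lifting a homotopy in the punctured plane starting at the constant `1` through `exp`. -/
theorem exists_log_homotopy {A : Type*} [TopologicalSpace A]
    (H : C(I × A, {z : ℂ // z ≠ 0})) (H0 : ∀ a, (H (0, a) : ℂ) = 1) :
    ∃ L : C(I × A, ℂ), (∀ p, Complex.exp (L p) = H p) ∧ ∀ a, L (0, a) = 0 := by
  have cov := Complex.isCoveringMap_exp
  have h0 : ∀ a, H (0, a) = (fun z : ℂ ↦ (⟨_, z.exp_ne_zero⟩ : {z : ℂ // z ≠ 0}))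
      ((ContinuousMap.const A (0:ℂ)) a) := by
    intro a
    apply Subtype.ext
    simp [H0]
  refine ⟨cov.liftHomotopy H (ContinuousMap.const A 0) h0, ?_, ?_⟩
  · intro p
    have := congrFun (cov.liftHomotopy_lifts H (ContinuousMap.const A 0) h0) p
    have h2 := congrArg Subtype.val this
    simpa using h2
  · intro a
    exact cov.liftHomotopy_zero H (ContinuousMap.const A 0) h0 a

/-- Logarithm on a set which is star-shaped in the second variable. -/
theorem exists_log_star {E : Type*} [TopologicalSpace E] {A : Set (E × ℂ)}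
    (hA : ∀ e x, (e, x) ∈ A → ∀ s : ℝ, s ∈ Icc (0:ℝ) 1 → (e, (s:ℂ) * x) ∈ A)
    {T : E × ℂ → ℂ} (hT : ContinuousOn T A)
    (hT0 : ∀ e x, (e, x) ∈ A → T (e, 0) = 1)
    (hne : ∀ q ∈ A, T q ≠ 0) :
    ∃ h : E × ℂ → ℂ, ContinuousOn h A ∧ (∀ q ∈ A, Complex.exp (h q) = T q) ∧
      ∀ e x, (e, x) ∈ A → h (e, 0) = 0 := by
  classical
  have hmem : ∀ p : I × A, ((p.2 : E × ℂ).1, ((p.1 : ℝ) : ℂ) * (p.2 : E × ℂ).2) ∈ A := by
    rintro ⟨s, ⟨⟨e, x⟩, hx⟩⟩
    exact hA e x hx s s.2
  have hcont : Continuous (fun p : I × A => T ((p.2 : E × ℂ).1, ((p.1 : ℝ) : ℂ) * (p.2 : E × ℂ).2)) := by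
    have : Continuous (fun p : I × A =>
        (((p.2 : E × ℂ).1, ((p.1 : ℝ) : ℂ) * (p.2 : E × ℂ).2) : E × ℂ)) := by
      fun_prop
    exact hT.comp_continuous this hmem
  let H : C(I × A, {z : ℂ // z ≠ 0}) :=
    ⟨fun p => ⟨T ((p.2 : E × ℂ).1, ((p.1 : ℝ) : ℂ) * (p.2 : E × ℂ).2), hne _ (hmem p)⟩,
      hcont.subtype_mk _⟩
  have H0 : ∀ a, (H (0, a) : ℂ) = 1 := by
    rintro ⟨⟨e, x⟩, hx⟩
    have := hT0 e x hx
    simpa [H] using this
  obtain ⟨L, hL, hL0⟩ := exists_log_homotopy H H0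
  refine ⟨fun q => if hq : q ∈ A then L (1, ⟨q, hq⟩) else 0, ?_, ?_, ?_⟩
  · rw [continuousOn_iff_continuous_domRestrict]
    have : (A.domRestrict fun q => if hq : q ∈ A then L (1, ⟨q, hq⟩) else 0)
        = fun q : A => L (1, q) := by
      funext q
      simp [Set.domRestrict]
    rw [this]
    fun_prop
  · intro q hq
    simp only [hq, dif_pos]
    rw [hL]
    simp [H]
  · intro e x hx
    have h0 : (e, (0:ℂ)) ∈ A := by simpa using hA e x hx 0 (by simp)
    simp only [h0, dif_pos]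
    -- the lift of the constant path is constant
    have hconst : ∀ s : I, L (s, ⟨(e, 0), h0⟩) = L (0, ⟨(e, 0), h0⟩) := by
      intro s
      have hH : ∀ s : I, Complex.exp (L (s, ⟨(e, 0), h0⟩)) = 1 := by
        intro s
        rw [hL]
        simpa [H] using hT0 e x hx
      have cov := Complex.isCoveringMap_exp
      have := cov.isSeparatedMap.const_of_comp (A := I) cov.isLocalHomeomorph.isLocallyInjective
        (g := fun s : I => L (s, ⟨(e, 0), h0⟩)) (by fun_prop) ?_ s 0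
      · exact this
      · intro a a'
        apply Subtype.ext
        simp only [hH]
    rw [hconst 1, hL0]

end Pool.Agent.H712R2
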