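import Mathlib
import Pool.Agent.H712R2.LogLift

set_option autoImplicit false

open Complex Set Topology

namespace Pool.Agent.H712R2

/-- The map `z ↦ z ^ d + c`. -/
def fc (d : ℕ) (c : ℂ) : ℂ → ℂ := fun z => z ^ d + c

/-- The critical orbit. -/
def P (d : ℕ) (k : ℕ) (c : ℂ) : ℂ := (fc d c)^[k] 0

theorem P_zero (d : ℕ) (c : ℂ) : P d 0 c = 0 := rfl

theorem P_succ (d k : ℕ) (c : ℂ) : P d (k + 1) c = (P d k c) ^ d + c := by
  unfold P; rw [Function.iterate_succ_apply']; rfl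

theorem P_one {d : ℕ} (hd : 2 ≤ d) (c : ℂ) : P d 1 c = c := by
  have hd0 : d ≠ 0 := by omega
  rw [P_succ, P_zero, zero_pow hd0, zero_add]

theorem iter_c {d : ℕ} (hd : 2 ≤ d) (j : ℕ) (c : ℂ) : (fc d c)^[j] c = P d (j + 1) c := by
  have hd0 : d ≠ 0 := by omega
  unfold P; rw [Function.iterate_succ_apply]
  congr 1
  simp [fc, hd0]

theorem continuous_P (d k : ℕ) : Continuous (P d k) := by
  induction k with
  | zero => exact continuous_const
  | succ k ih =>
    have : P d (k + 1) = fun c => (P d k c) ^ d + c := by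
      funext c; exact P_succ d k c
    rw [this]; fun_prop

/-- Domain of the `j`-th inverse Böttcher-type map, in the coordinate `x = 1 / w`. -/
def AA (d j : ℕ) : Set (ℂ × ℂ) := {q | ∀ i, 1 ≤ i → i ≤ j → ‖q.2‖ ^ (d ^ j) * ‖P d i q.1‖ < 1}

/-- Auxiliary domain. -/
def AA' (d j : ℕ) : Set (ℂ × ℂ) := {q | ∀ i, 1 ≤ i → i ≤ j + 1 → ‖q.2‖ ^ (d ^ j) * ‖P d i q.1‖ < 1}

theorem AA'_subset (d j : ℕ) : AA' d j ⊆ AA d j := fun _ hq i h1 h2 => hq i h1 (by omega)

theorem AA_star {d j : ℕ} (c x : ℂ) (hx : (c, x) ∈ AA' d j) (s : ℝ) (hs : s ∈ Icc (0:ℝ) 1) :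
    (c, (s:ℂ) * x) ∈ AA' d j := by
  intro i h1 h2
  have := hx i h1 h2
  simp only [norm_mul, Complex.norm_real, Real.norm_eq_abs, abs_of_nonneg hs.1] at this ⊢
  refine lt_of_le_of_lt ?_ this
  refine mul_le_mul_of_nonneg_right ?_ (norm_nonneg _)
  apply pow_le_pow_left₀ (mul_nonneg hs.1 (norm_nonneg _))
  have := mul_le_mul_of_nonneg_right hs.2 (norm_nonneg x)
  linarith

theorem mem_AA_zero {d : ℕ} (hd : 2 ≤ d) (j : ℕ) (c : ℂ) : (c, (0:ℂ)) ∈ AA d j := by
  intro i _ _
  have : d ^ j ≠ 0 := pow_ne_zero _ (by omega)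
  simp [zero_pow this]

theorem mem_AA'_zero {d : ℕ} (hd : 2 ≤ d) (j : ℕ) (c : ℂ) : (c, (0:ℂ)) ∈ AA' d j := by
  intro i _ _
  have : d ^ j ≠ 0 := pow_ne_zero _ (by omega)
  simp [zero_pow this]

theorem mem_AA_succ {d j : ℕ} (c x : ℂ) : (c, x) ∈ AA d (j + 1) ↔ (c, x ^ d) ∈ AA' d j := by
  unfold AA AA'
  simp only [mem_ofPred_eq, norm_pow, ← pow_mul]
  have : d ^ (j + 1) = d * d ^ j := by ring
  rw [this]

/-- The properties of the inverse Böttcher-type map. -/
structure IsG (d j : ℕ) (g : ℂ × ℂ → ℂ) : Prop where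
  cont : ContinuousOn g (AA d j)
  zero : ∀ c, g (c, 0) = 1
  conj : ∀ c x, (c, x) ∈ AA d j → x ≠ 0 → (fc d c)^[j] (x⁻¹ * g (c, x)) = (x⁻¹) ^ (d ^ j)
  ne : ∀ q ∈ AA d j, g q ≠ 0
  inj : ∀ c x x', (c, x) ∈ AA d j → (c, x') ∈ AA d j → x ≠ 0 → x' ≠ 0 →
    x⁻¹ * g (c, x) = x'⁻¹ * g (c, x') → x = x'
  surj : ∀ c z, z ≠ 0 → (fc d c)^[j] z ≠ 0 →
    (∀ i, 1 ≤ i → i ≤ j → ‖P d i c‖ < ‖(fc d c)^[j] z‖) →
    ∃ x, x ≠ 0 ∧ (c, x) ∈ AA d j ∧ x⁻¹ * g (c, x) = z

theorem exists_g {d : ℕ} (hd : 2 ≤ d) (j : ℕ) : ∃ g, IsG d j g := by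
  have hd0 : d ≠ 0 := by omega
  have hdC : (d : ℂ) ≠ 0 := by exact_mod_cast hd0
  induction j with
  | zero =>
    refine ⟨fun _ => 1, continuousOn_const, fun _ => rfl, ?_, fun _ _ => one_ne_zero, ?_, ?_⟩
    · intro c x _ _; simp
    · intro c x x' _ _ hx hx' h
      simpa using h
    · intro c z hz _ _
      refine ⟨z⁻¹, inv_ne_zero hz, ?_, by simp⟩
      intro i h1 h2; omega
  | succ j ih =>
    obtain ⟨g, hg⟩ := ih
    -- the function T
    set T : ℂ × ℂ → ℂ := fun q => g q - q.1 * q.2 with hT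
    have hTc : ContinuousOn T (AA' d j) := by
      apply ContinuousOn.sub (hg.cont.mono (AA'_subset d j))
      fun_prop
    have hT0 : ∀ c x, (c, x) ∈ AA' d j → T (c, 0) = 1 := by
      intro c x _; simp [hT, hg.zero]
    have hTne : ∀ q ∈ AA' d j, T q ≠ 0 := by
      rintro ⟨c, y⟩ hq h0
      by_cases hy : y = 0
      · subst hy; simp [hT, hg.zero] at h0
      · have h1 : y⁻¹ * g (c, y) = c := by
          have : g (c, y) = c * y := by simpa [hT, sub_eq_zero] using h0
          rw [this]; field_simp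
        have h2 := hg.conj c y (AA'_subset d j hq) hy
        rw [h1, iter_c hd] at h2
        have h3 := hq (j + 1) (by omega) le_rfl
        simp only at h3
        rw [h2, norm_pow, norm_inv, ← mul_pow, mul_inv_cancel₀ (norm_ne_zero_iff.mpr hy),
          one_pow] at h3
        exact lt_irrefl _ h3
    obtain ⟨h, hhc, hhe, hh0⟩ := exists_log_star (A := AA' d j) AA_star hTc hT0 hTne
    -- the new map
    set g' : ℂ × ℂ → ℂ := fun q => Complex.exp (h (q.1, q.2 ^ d) / d) with hg'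
    have hpow : ∀ c x, (c, x) ∈ AA d (j + 1) → g' (c, x) ^ d = g (c, x ^ d) - c * x ^ d := by
      intro c x hx
      have hx' := (mem_AA_succ c x).mp hx
      simp only [hg']
      rw [← Complex.exp_nat_mul]
      have : (d : ℂ) * (h (c, x ^ d) / d) = h (c, x ^ d) := by field_simp
      rw [this, hhe _ hx']
    have hne' : ∀ q, g' q ≠ 0 := fun q => Complex.exp_ne_zero _
    -- one step of the conjugacy
    have hstep : ∀ c x, (c, x) ∈ AA d (j + 1) → x ≠ 0 →
        fc d c (x⁻¹ * g' (c, x)) = (x ^ d)⁻¹ * g (c, x ^ d) := by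
      intro c x hx hx0
      unfold fc
      rw [mul_pow, hpow c x hx, inv_pow]
      have : x ^ d ≠ 0 := pow_ne_zero _ hx0
      field_simp
      ring
    have hsub : ∀ c x, (c, x) ∈ AA d (j + 1) → (c, x ^ d) ∈ AA d j := fun c x hx =>
      AA'_subset d j ((mem_AA_succ c x).mp hx)
    refine ⟨g', ?_, ?_, ?_, fun q _ => hne' q, ?_, ?_⟩
    · simp only [hg']
      apply Continuous.comp_continuousOn Complex.continuous_exp
      apply ContinuousOn.div_const
      have hc : ContinuousOn (fun q : ℂ × ℂ => (q.1, q.2 ^ d)) (AA d (j + 1)) := by fun_prop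
      exact hhc.comp hc (fun q hq => (mem_AA_succ q.1 q.2).mp hq)
    · intro c
      simp only [hg', zero_pow hd0]
      rw [hh0 c 0 (mem_AA'_zero hd j c)]
      simp
    · intro c x hx hx0
      rw [Function.iterate_succ_apply, hstep c x hx hx0,
        hg.conj c (x ^ d) (hsub c x hx) (pow_ne_zero _ hx0)]
      rw [← inv_pow, ← pow_mul]
      congr 1
      ring
    · intro c x x' hx hx' hx0 hx0' heq
      have h1 : (x ^ d)⁻¹ * g (c, x ^ d) = (x' ^ d)⁻¹ * g (c, x' ^ d) := by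
        rw [← hstep c x hx hx0, ← hstep c x' hx' hx0', heq]
      have h2 := hg.inj c _ _ (hsub c x hx) (hsub c x' hx') (pow_ne_zero _ hx0)
        (pow_ne_zero _ hx0') h1
      have h3 : g' (c, x) = g' (c, x') := by simp only [hg', h2]
      rw [h3] at heq
      have := mul_right_cancel₀ (hne' (c, x')) heq
      exact inv_injective this
    · intro c z hz hz0 hlt
      rw [Function.iterate_succ_apply] at hz0 hlt
      by_cases hu : fc d c z = 0
      · -- then the orbit of `0` would be too large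
        exfalso
        by_cases hj : j = 0
        · subst hj
          simp [hu] at hz0
        · have h1 := hlt j (by omega) (by omega)
          rw [hu] at h1
          exact lt_irrefl _ h1
      obtain ⟨y, hy0, hyA, hy⟩ := hg.surj c (fc d c z) hu hz0 (fun i h1 h2 => hlt i h1 (by omega))
      obtain ⟨x, hx⟩ := IsAlgClosed.exists_pow_nat_eq y (Nat.pos_of_ne_zero hd0)
      have hx0 : x ≠ 0 := by
        rintro rfl
        rw [zero_pow hd0] at hx
        exact hy0 hx.symm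
      have hnorm : ‖y‖ ^ (d ^ j) = ‖(fc d c)^[j] (fc d c z)‖⁻¹ := by
        have := hg.conj c y hyA hy0
        rw [hy] at this
        rw [this, norm_pow, norm_inv, inv_pow, inv_inv]
      have hyA' : (c, y) ∈ AA' d j := by
        intro i h1 h2
        have h3 := hlt i h1 h2
        simp only
        rw [hnorm]
        have hpos : 0 < ‖(fc d c)^[j] (fc d c z)‖ := norm_pos_iff.mpr hz0
        rw [inv_mul_lt_iff₀ hpos, mul_one]
        exact h3
      have hxA : (c, x) ∈ AA d (j + 1) := by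
        rw [mem_AA_succ, hx]; exact hyA'
      have h4 : (x⁻¹ * g' (c, x)) ^ d = z ^ d := by
        have h5 := hstep c x hxA hx0
        rw [hx, hy] at h5
        unfold fc at h5
        exact add_right_cancel h5
      -- adjust by a root of unity
      have hχ0 : x⁻¹ * g' (c, x) ≠ 0 := mul_ne_zero (inv_ne_zero hx0) (hne' _)
      set ω : ℂ := z / (x⁻¹ * g' (c, x)) with hω
      have hω1 : ω ^ d = 1 := by
        rw [hω, div_pow, h4, div_self (pow_ne_zero _ hz)]
      have hω0 : ω ≠ 0 := div_ne_zero hz hχ0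
      refine ⟨ω⁻¹ * x, mul_ne_zero (inv_ne_zero hω0) hx0, ?_, ?_⟩
      · rw [mem_AA_succ, mul_pow, inv_pow, hω1, inv_one, one_mul, hx]; exact hyA'
      · have h6 : g' (c, ω⁻¹ * x) = g' (c, x) := by
          simp only [hg', mul_pow, inv_pow, hω1, inv_one, one_mul]
        rw [h6, mul_inv, inv_inv, mul_assoc, hω, div_mul_cancel₀ _ hχ0]

end Pool.Agent.H712R2
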