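import Mathlib
import Pool.Agent.H712R2.MultiBott

set_option autoImplicit false

open Complex Set Topology Filter

namespace Pool.Agent.H712R2

/-! ### Escape estimates -/

theorem norm_lt_succ {d : ℕ} (hd : 2 ≤ d) {k : ℕ} {c : ℂ} (h1 : 2 < ‖P d k c‖)
    (h2 : ‖c‖ ≤ ‖P d k c‖) :
    ‖P d k c‖ * (‖P d k c‖ - 1) ≤ ‖P d (k + 1) c‖ := by
  rw [P_succ]
  have h3 : ‖P d k c‖ ^ 2 ≤ ‖P d k c‖ ^ d := pow_le_pow_right₀ (by linarith) hd
  have h4 : ‖(P d k c) ^ d‖ - ‖c‖ ≤ ‖(P d k c) ^ d + c‖ := by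
    have := norm_sub_le ((P d k c) ^ d + c) c
    rw [add_sub_cancel_right] at this
    linarith
  rw [norm_pow] at h4
  nlinarith

theorem esc_step {d : ℕ} (hd : 2 ≤ d) {k : ℕ} {c : ℂ} (h1 : 2 < ‖P d k c‖)
    (h2 : ‖c‖ ≤ ‖P d k c‖) :
    ‖P d k c‖ < ‖P d (k + 1) c‖ := by
  have := norm_lt_succ hd h1 h2
  nlinarith

theorem esc_mono {d : ℕ} (hd : 2 ≤ d) {k : ℕ} {c : ℂ} (h1 : 2 < ‖P d k c‖)
    (h2 : ‖c‖ ≤ ‖P d k c‖) (j : ℕ) :
    ‖P d k c‖ ≤ ‖P d (k + j) c‖ := by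
  induction j with
  | zero => simp
  | succ j ih =>
    have := esc_step hd (k := k + j) (c := c) (by linarith) (by linarith)
    rw [← add_assoc]
    linarith

theorem esc_of_gt {d : ℕ} (hd : 2 ≤ d) {k : ℕ} (hk : 1 ≤ k) {c : ℂ} (h1 : 2 < ‖P d k c‖) :
    ‖c‖ ≤ ‖P d k c‖ := by
  by_contra h
  push Not at h
  have h3 : 2 < ‖P d 1 c‖ := by rw [P_one hd]; linarith
  have h4 : ‖c‖ ≤ ‖P d 1 c‖ := by rw [P_one hd]
  have h5 := esc_mono hd h3 h4 (k - 1)
  rw [P_one hd, show 1 + (k - 1) = k by omega] at h5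
  linarith

theorem P_lt_of_gt {d : ℕ} (hd : 2 ≤ d) {m : ℕ} {c : ℂ} (h : 2 < ‖P d (m + 1) c‖) (i : ℕ)
    (h1 : 1 ≤ i) (h2 : i ≤ m) : ‖P d i c‖ < ‖P d (m + 1) c‖ := by
  by_cases h3 : ‖P d i c‖ ≤ 2
  · linarith
  · push Not at h3
    have h4 := esc_of_gt hd h1 h3
    have h5 := esc_step hd h3 h4
    have h6 : ‖c‖ ≤ ‖P d (i + 1) c‖ := by linarith
    have h7 := esc_mono hd (k := i + 1) (c := c) (by linarith) h6 (m - i)
    rw [show i + 1 + (m - i) = m + 1 by omega] at h7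
    linarith

/-! ### The polynomials -/

/-- The critical orbit as polynomials in the parameter. -/
noncomputable def PP (d : ℕ) : ℕ → Polynomial ℂ
  | 0 => 0
  | k + 1 => (PP d k) ^ d + Polynomial.X

theorem eval_PP (d k : ℕ) (c : ℂ) : (PP d k).eval c = P d k c := by
  induction k with
  | zero => simp [PP, P_zero]
  | succ k ih => simp [PP, P_succ, ih]

theorem natDegree_PP {d : ℕ} (hd : 2 ≤ d) (k : ℕ) : (PP d (k + 1)).natDegree = d ^ k := by
  induction k with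
  | zero => simp [PP, zero_pow (show d ≠ 0 by omega)]
  | succ k ih =>
    have h1 : ((PP d (k + 1)) ^ d).natDegree = d ^ (k + 1) := by
      rw [Polynomial.natDegree_pow, ih]; ring
    have h2 : (Polynomial.X : Polynomial ℂ).natDegree < ((PP d (k + 1)) ^ d).natDegree := by
      rw [h1, Polynomial.natDegree_X]
      exact Nat.one_lt_pow (by omega) (by omega)
    change ((PP d (k + 1)) ^ d + Polynomial.X).natDegree = d ^ (k + 1)
    rw [Polynomial.natDegree_add_eq_left_of_natDegree_lt h2, h1]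

theorem isProper_P {d : ℕ} (hd : 2 ≤ d) (m : ℕ) : IsProperMap (P d (m + 1)) := by
  have h := (PP d (m + 1)).isProperMap_eval
    (Polynomial.natDegree_pos_iff_degree_pos.mp
      (by rw [natDegree_PP hd]; exact pow_pos (by omega) _))
  have h2 : (fun c => (PP d (m + 1)).eval c) = P d (m + 1) := by funext c; exact eval_PP d _ c
  rwa [h2] at h

theorem isOpenQuot_P {d : ℕ} (hd : 2 ≤ d) (m : ℕ) : IsOpenQuotientMap (P d (m + 1)) := by
  have h := (PP d (m + 1)).isOpenQuotientMap_eval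
    (by rw [natDegree_PP hd]; exact pow_ne_zero _ (by omega))
  have h2 : (fun c => (PP d (m + 1)).eval c) = P d (m + 1) := by funext c; exact eval_PP d _ c
  rwa [h2] at h

theorem isCompact_sub {d : ℕ} (hd : 2 ≤ d) (m : ℕ) (s : ℝ) :
    IsCompact {c | ‖P d (m + 1) c‖ ≤ s} := by
  have : {c | ‖P d (m + 1) c‖ ≤ s} = (P d (m + 1)) ⁻¹' (Metric.closedBall 0 s) := by
    ext c; simp
  rw [this]
  exact (isProper_P hd m).isCompact_preimage (isCompact_closedBall _ _)

/-! ### The parameter map -/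

/-- `Ψ` with `Ψ ^ N = P (m+1)`. -/
structure IsPsi (d m : ℕ) (Ψ : ℂ → ℂ) : Prop where
  cont : ∀ c, 2 < ‖P d (m + 1) c‖ → ContinuousAt Ψ c
  pow : ∀ c, 2 < ‖P d (m + 1) c‖ → Ψ c ^ (d ^ m) = P d (m + 1) c

theorem exists_Psi {d : ℕ} (hd : 2 ≤ d) (m : ℕ) : ∃ Ψ, IsPsi d m Ψ := by
  classical
  obtain ⟨g, hg⟩ := exists_g hd m
  have hN : d ^ m ≠ 0 := pow_ne_zero _ (by omega)
  have hex : ∀ c, 2 < ‖P d (m + 1) c‖ → ∃ x, x ≠ 0 ∧ (c, x) ∈ AA d m ∧ x⁻¹ * g (c, x) = c := by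
    intro c hc
    have hne : P d (m + 1) c ≠ 0 := by
      intro h; rw [h, norm_zero] at hc; linarith
    have hc0 : c ≠ 0 := by
      rintro rfl
      have : ∀ k, P d k 0 = 0 := by
        intro k
        induction k with
        | zero => rfl
        | succ k ih => rw [P_succ, ih, zero_pow (by omega), zero_add]
      exact hne (this _)
    apply hg.surj c c hc0
    · rw [iter_c hd]; exact hne
    · intro i h1 h2
      rw [iter_c hd]
      exact P_lt_of_gt hd hc i h1 h2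
  choose! X hX0 hXA hXe using hex
  have hXpow : ∀ c, 2 < ‖P d (m + 1) c‖ → (X c)⁻¹ ^ (d ^ m) = P d (m + 1) c := by
    intro c hc
    have := hg.conj c (X c) (hXA c hc) (hX0 c hc)
    rw [hXe c hc, iter_c hd] at this
    exact this.symm
  have hXnorm : ∀ c, 2 < ‖P d (m + 1) c‖ → ‖X c‖ ^ (d ^ m) = ‖P d (m + 1) c‖⁻¹ := by
    intro c hc
    rw [← hXpow c hc, norm_pow, norm_inv, inv_pow, inv_inv]
  have hcont : ∀ c, 2 < ‖P d (m + 1) c‖ → ContinuousAt X c := by
    intro c0 hc0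
    have hev : ∀ᶠ c in 𝓝 c0, 2 < ‖P d (m + 1) c‖ :=
      (continuous_P d (m + 1)).norm.continuousAt.eventually (lt_mem_nhds hc0)
    apply (isCompact_closedBall (0:ℂ) 1).tendsto_nhds_of_unique_mapClusterPt
    · filter_upwards [hev] with c hc
      rw [mem_closedBall_zero_iff]
      by_contra h
      push Not at h
      have h1 := hXnorm c hc
      have h2 : 1 ≤ ‖X c‖ ^ (d ^ m) := one_le_pow₀ h.le
      rw [h1] at h2
      have h3 : ‖P d (m + 1) c‖⁻¹ < 1 := inv_lt_one_of_one_lt₀ (by linarith)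
      linarith
    · intro x _ hx
      rw [mapClusterPt_iff_ultrafilter] at hx
      obtain ⟨U, hU, hUx⟩ := hx
      have hUc : Tendsto (fun c => c) (U : Filter ℂ) (𝓝 c0) := hU
      have hevU : ∀ᶠ c in (U : Filter ℂ), 2 < ‖P d (m + 1) c‖ := hU hev
      have h1 : Tendsto (fun c => ‖X c‖ ^ (d ^ m)) (U : Filter ℂ) (𝓝 (‖x‖ ^ (d ^ m))) :=
        (hUx.norm).pow _
      have h2 : Tendsto (fun c => ‖P d (m + 1) c‖⁻¹) (U : Filter ℂ) (𝓝 (‖P d (m + 1) c0‖⁻¹)) := by
        apply Tendsto.inv₀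
        · exact ((continuous_P d (m + 1)).norm.tendsto c0).comp hUc
        · linarith
      have h3 : ‖x‖ ^ (d ^ m) = ‖P d (m + 1) c0‖⁻¹ := by
        apply tendsto_nhds_unique h1
        apply h2.congr'
        filter_upwards [hevU] with c hc
        rw [hXnorm c hc]
      have hx0 : x ≠ 0 := by
        rintro rfl
        rw [norm_zero, zero_pow hN] at h3
        have : 0 < ‖P d (m + 1) c0‖⁻¹ := inv_pos.mpr (by linarith)
        linarith
      have hxA : (c0, x) ∈ AA d m := by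
        intro i hi1 hi2
        simp only
        rw [h3, inv_mul_lt_iff₀ (by linarith), mul_one]
        exact P_lt_of_gt hd hc0 i hi1 hi2
      have h4 : Tendsto (fun c => (c, X c)) (U : Filter ℂ) (𝓝[AA d m] (c0, x)) := by
        rw [tendsto_nhdsWithin_iff]
        refine ⟨hUc.prodMk_nhds hUx, ?_⟩
        filter_upwards [hevU] with c hc
        exact hXA c hc
      have h5 : Tendsto (fun c => g (c, X c)) (U : Filter ℂ) (𝓝 (g (c0, x))) :=
        (hg.cont (c0, x) hxA).tendsto.comp h4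
      have h6 : Tendsto (fun c => (X c)⁻¹ * g (c, X c)) (U : Filter ℂ) (𝓝 (x⁻¹ * g (c0, x))) :=
        (hUx.inv₀ hx0).mul h5
      have h7 : x⁻¹ * g (c0, x) = c0 := by
        apply tendsto_nhds_unique h6
        apply hUc.congr'
        filter_upwards [hevU] with c hc
        exact (hXe c hc).symm
      exact hg.inj c0 x (X c0) hxA (hXA c0 hc0) hx0 (hX0 c0 hc0) (by rw [h7, hXe c0 hc0])
  refine ⟨fun c => (X c)⁻¹, ?_, hXpow⟩
  intro c hc
  exact (hcont c hc).inv₀ (hX0 c hc)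

end Pool.Agent.H712R2
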