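import Mathlib
import Pool.Agent.H712R2.MultiPar

set_option autoImplicit false

open Complex Set Topology Filter

namespace Pool.Agent.H712R2

/-- The exterior of a disc is preconnected. -/
theorem isPreconnected_ext (N : ℕ) (hN : N ≠ 0) :
    IsPreconnected {w : ℂ | 2 < ‖w‖ ^ N} := by
  have h1 : {w : ℂ | 2 < ‖w‖ ^ N} =
      (fun p : ℝ × ℝ => (p.1 : ℂ) * Complex.exp (p.2 * I)) '' ({r : ℝ | 0 < r ∧ 2 < r ^ N} ×ˢ univ) := by
    ext w
    constructor
    · intro hw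
      refine ⟨(‖w‖, w.arg), ⟨⟨?_, hw⟩, mem_univ _⟩, ?_⟩
      · simp only
        rcases (norm_nonneg w).eq_or_lt with h | h
        · exfalso
          simp only [mem_ofPred_eq, ← h, zero_pow hN] at hw
          linarith
        · exact h
      · simp only
        exact Complex.norm_mul_exp_arg_mul_I w
    · rintro ⟨⟨r, θ⟩, ⟨⟨hr0, hr⟩, _⟩, rfl⟩
      simp only [mem_ofPred_eq, norm_mul, Complex.norm_real, Real.norm_eq_abs,
        Complex.norm_exp_ofReal_mul_I, mul_one, abs_of_pos hr0]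
      exact hr
  rw [h1]
  apply IsPreconnected.image
  · apply IsPreconnected.prod _ isPreconnected_univ
    apply Set.OrdConnected.isPreconnected
    constructor
    rintro a ⟨ha1, ha2⟩ b _ x hx
    refine ⟨lt_of_lt_of_le ha1 hx.1, lt_of_lt_of_le ha2 (pow_le_pow_left₀ ha1.le hx.1 N)⟩
  · fun_prop

/-- local injectivity of powers -/
theorem pow_locInj {N : ℕ} (hN : N ≠ 0) {w0 : ℂ} (hw : w0 ≠ 0) :
    ∃ O, IsOpen O ∧ w0 ∈ O ∧ InjOn (fun w : ℂ => w ^ N) O := by
  have hd := hasStrictDerivAt_pow N w0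
  have hne : (N : ℂ) * w0 ^ (N - 1) ≠ 0 :=
    mul_ne_zero (by exact_mod_cast hN) (pow_ne_zero _ hw)
  have hf := hd.hasStrictFDerivAt_equiv hne
  refine ⟨(hf.toOpenPartialHomeomorph _).source, (hf.toOpenPartialHomeomorph _).open_source,
    hf.mem_toOpenPartialHomeomorph_source, ?_⟩
  exact (hf.toOpenPartialHomeomorph _).injOn

theorem Psi_surj {d : ℕ} (hd : 2 ≤ d) {m : ℕ} {Ψ : ℂ → ℂ} (hΨ : IsPsi d m Ψ) (w : ℂ)
    (hw : 2 < ‖w‖ ^ (d ^ m)) : ∃ c, 2 < ‖P d (m + 1) c‖ ∧ Ψ c = w := by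
  have hN : d ^ m ≠ 0 := pow_ne_zero _ (by omega)
  set N := d ^ m with hNdef
  set W : Set ℂ := {w : ℂ | 2 < ‖w‖ ^ N} with hW
  set V : Set ℂ := {w : ℂ | ∃ c, 2 < ‖P d (m + 1) c‖ ∧ Ψ c = w} with hV
  have hWo : IsOpen W := isOpen_lt continuous_const (by fun_prop)
  have hVW : V ⊆ W := by
    rintro w ⟨c, hc, rfl⟩
    have h9 : Ψ c ^ N = P d (m + 1) c := hΨ.pow c hc
    simp only [hW, mem_ofPred_eq, ← norm_pow]
    rw [h9]
    exact hc
  have hVo : IsOpen V := by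
    rw [isOpen_iff_mem_nhds]
    rintro w0 ⟨c0, hc0, rfl⟩
    have hw0 : Ψ c0 ≠ 0 := by
      intro h
      have := hΨ.pow c0 hc0
      rw [h, zero_pow hN] at this
      rw [← this, norm_zero] at hc0
      linarith
    obtain ⟨O, hO, hwO, hinj⟩ := pow_locInj hN hw0
    have h1 : ∀ᶠ c in 𝓝 c0, Ψ c ∈ O ∧ 2 < ‖P d (m + 1) c‖ := by
      apply ((hΨ.cont c0 hc0).eventually (hO.mem_nhds hwO)).and
      exact (continuous_P d (m + 1)).norm.continuousAt.eventually (lt_mem_nhds hc0)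
    have h2 := (isOpenQuot_P hd m).isOpenMap.image_mem_nhds h1
    have h3 : Tendsto (fun w : ℂ => w ^ N) (𝓝 (Ψ c0)) (𝓝 (P d (m + 1) c0)) := by
      rw [← hΨ.pow c0 hc0]
      exact (continuous_pow N).tendsto _
    filter_upwards [h3 h2, hO.mem_nhds hwO] with w hw1 hw2
    obtain ⟨c, ⟨hcO, hc⟩, hcw⟩ := hw1
    refine ⟨c, hc, hinj hcO hw2 ?_⟩
    simp only
    rw [hΨ.pow c hc, hcw]
  have hne : (W ∩ V).Nonempty := by
    obtain ⟨c, hc⟩ := (isOpenQuot_P hd m).surjective 3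
    have hc2 : 2 < ‖P d (m + 1) c‖ := by rw [hc]; norm_num
    exact ⟨Ψ c, hVW ⟨c, hc2, rfl⟩, ⟨c, hc2, rfl⟩⟩
  have hcl : closure V ∩ W ⊆ V := by
    rintro w ⟨hw1, hw2⟩
    rw [mem_closure_iff_seq_limit] at hw1
    obtain ⟨u, huV, hu⟩ := hw1
    choose c hc hcu using huV
    have hbd : Tendsto (fun n => P d (m + 1) (c n)) atTop (𝓝 (w ^ N)) := by
      have : (fun n => P d (m + 1) (c n)) = fun n => (u n) ^ N := by
        funext n; rw [← hcu n, hΨ.pow _ (hc n)]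
      rw [this]
      exact hu.pow N
    obtain ⟨M, hM⟩ : ∃ M : ℝ, ∀ n, ‖P d (m + 1) (c n)‖ ≤ M := by
      obtain ⟨M, hM⟩ := hbd.norm.bddAbove_range
      exact ⟨M, fun n => hM ⟨n, rfl⟩⟩
    obtain ⟨c', -, φ, hφ, hφc⟩ := (isCompact_sub hd m M).tendsto_subseq hM
    have h1 : P d (m + 1) c' = w ^ N :=
      tendsto_nhds_unique (((continuous_P d (m + 1)).tendsto c').comp hφc)
        (hbd.comp hφ.tendsto_atTop)
    have h2 : 2 < ‖P d (m + 1) c'‖ := by rw [h1, norm_pow]; exact hw2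
    refine ⟨c', h2, ?_⟩
    have h3 : Tendsto (fun n => Ψ (c (φ n))) atTop (𝓝 (Ψ c')) :=
      ((hΨ.cont c' h2).tendsto).comp hφc
    have h4 : Tendsto (fun n => Ψ (c (φ n))) atTop (𝓝 w) := by
      have : (fun n => Ψ (c (φ n))) = fun n => u (φ n) := by funext n; exact hcu _
      rw [this]
      exact hu.comp hφ.tendsto_atTop
    exact tendsto_nhds_unique h3 h4
  exact (isPreconnected_ext N hN).subset_of_closure_inter_subset hVo hne hcl hw

theorem Psi_inj {d : ℕ} (hd : 2 ≤ d) {m : ℕ} {Ψ : ℂ → ℂ} (hΨ : IsPsi d m Ψ) (c c' : ℂ)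
    (hc : 2 < ‖P d (m + 1) c‖) (hc' : 2 < ‖P d (m + 1) c'‖) (h : Ψ c = Ψ c') : c = c' := by
  classical
  have hN : d ^ m ≠ 0 := pow_ne_zero _ (by omega)
  by_contra hne
  set a : ℂ := P d (m + 1) c with ha
  have hpow := hΨ.pow c hc
  have ha0 : a ≠ 0 := by
    intro h0
    rw [h0, norm_zero] at hc
    linarith
  -- the set of `N`-th roots of `a`
  set R : Finset ℂ := (Polynomial.nthRoots (d ^ m) a).toFinset with hR
  have hRmem : ∀ w, w ∈ R ↔ w ^ (d ^ m) = a := by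
    intro w
    rw [hR, Multiset.mem_toFinset, Polynomial.mem_nthRoots (Nat.pos_of_ne_zero hN)]
  have hRcard : R.card = d ^ m := by
    have hprim := Complex.isPrimitiveRoot_exp (d ^ m) hN
    have h1 := hprim.card_nthRoots a
    rw [if_pos ⟨Ψ c, hpow⟩] at h1
    rw [hR, Multiset.toFinset_card_of_nodup (hprim.nthRoots_nodup ha0), h1]
  have hex : ∀ w ∈ R, ∃ e, 2 < ‖P d (m + 1) e‖ ∧ Ψ e = w := by
    intro w hw
    apply Psi_surj hd hΨ
    rw [← norm_pow, (hRmem w).mp hw]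
    exact hc
  choose! e he heΨ using hex
  set T : Finset ℂ := R.image e with hT
  have hTcard : T.card = d ^ m := by
    rw [hT, Finset.card_image_of_injOn, hRcard]
    intro w hw w' hw' hww
    rw [← heΨ w hw, ← heΨ w' hw', hww]
  -- the polynomial
  set q : Polynomial ℂ := PP d (m + 1) - Polynomial.C a with hq
  have hq0 : q ≠ 0 := by
    intro h0
    have : PP d (m + 1) = Polynomial.C a := sub_eq_zero.mp h0
    have h2 := natDegree_PP hd m
    rw [this, Polynomial.natDegree_C] at h2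
    exact hN h2.symm
  have hqdeg : q.natDegree = d ^ m := by
    rw [hq, Polynomial.natDegree_sub_C, natDegree_PP hd]
  have hroot : ∀ z, P d (m + 1) z = a → z ∈ q.roots.toFinset := by
    intro z hz
    rw [Multiset.mem_toFinset, Polynomial.mem_roots hq0, Polynomial.IsRoot.def]
    simp [hq, eval_PP, hz]
  have hTsub : T ⊆ q.roots.toFinset := by
    intro z hz
    rw [hT, Finset.mem_image] at hz
    obtain ⟨w, hw, rfl⟩ := hz
    apply hroot
    rw [← hΨ.pow _ (he w hw), heΨ w hw, (hRmem w).mp hw]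
  -- one of `c`, `c'` is not in `T`
  have hΨR : Ψ c ∈ R := (hRmem _).mpr hpow
  have hTonly : ∀ z ∈ T, Ψ z = Ψ c → z = e (Ψ c) := by
    intro z hz hzΨ
    rw [hT, Finset.mem_image] at hz
    obtain ⟨w, hw, rfl⟩ := hz
    rw [heΨ w hw] at hzΨ
    rw [hzΨ]
  have hPc' : P d (m + 1) c' = a := by rw [← hΨ.pow c' hc', ← h, hpow]
  have hcard : q.roots.toFinset.card ≤ d ^ m := by
    calc q.roots.toFinset.card ≤ Multiset.card q.roots := Multiset.toFinset_card_le _
      _ ≤ q.natDegree := Polynomial.card_roots' q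
      _ = d ^ m := hqdeg
  have key : ∀ z, z ∉ T → P d (m + 1) z = a → False := by
    intro z hz hza
    have h1 : (insert z T) ⊆ q.roots.toFinset := by
      intro y hy
      rw [Finset.mem_insert] at hy
      rcases hy with rfl | hy
      · exact hroot _ hza
      · exact hTsub hy
    have h2 := Finset.card_le_card h1
    rw [Finset.card_insert_of_notMem hz, hTcard] at h2
    omega
  have hcT : c ∈ T := by
    by_contra hh
    exact key c hh rfl
  have hcT' : c' ∈ T := by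
    by_contra hh
    exact key c' hh hPc'
  exact hne ((hTonly c hcT rfl).trans (hTonly c' hcT' h.symm).symm)

/-- The sublevel sets of the critical orbit polynomials are connected. -/
theorem isPreconnected_sub {d : ℕ} (hd : 2 ≤ d) (m : ℕ) {s : ℝ} (hs : 2 < s) :
    IsPreconnected {c | ‖P d (m + 1) c‖ ≤ s} := by
  have hN : d ^ m ≠ 0 := pow_ne_zero _ (by omega)
  obtain ⟨Ψ, hΨ⟩ := exists_Psi hd m
  rw [isPreconnected_closed_iff]
  intro t t' ht ht' hsub hne hne'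
  by_contra hcon
  rw [not_nonempty_iff_eq_empty] at hcon
  set E : Set ℂ := {c | ‖P d (m + 1) c‖ ≤ s} with hE
  have hEc : IsCompact E := isCompact_sub hd m s
  -- a piece must meet the boundary
  have hbdry : ∀ u u' : Set ℂ, IsClosed u → IsClosed u' → E ⊆ u ∪ u' → E ∩ (u ∩ u') = ∅ →
      (E ∩ u).Nonempty → ∃ c, c ∈ E ∩ u ∧ ‖P d (m + 1) c‖ = s := by
    intro u u' hu hu' hcov hemp hnon
    by_contra hno
    push Not at hno
    have h1 : E ∩ u = {c | ‖P d (m + 1) c‖ < s} ∩ u'ᶜ := by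
      ext c
      constructor
      · intro hc
        refine ⟨lt_of_le_of_ne hc.1 (hno c hc), fun hcu' => ?_⟩
        have : c ∈ E ∩ (u ∩ u') := ⟨hc.1, hc.2, hcu'⟩
        rw [hemp] at this
        exact this
      · rintro ⟨hc1, hc2⟩
        have hc1' : ‖P d (m + 1) c‖ < s := hc1
        have hcE : c ∈ E := (show ‖P d (m + 1) c‖ ≤ s from hc1'.le)
        rcases hcov hcE with h | h
        · exact ⟨hcE, h⟩
        · exact absurd h hc2
    have h2 : IsOpen (E ∩ u) := by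
      rw [h1]
      exact (isOpen_lt (continuous_P d (m + 1)).norm continuous_const).inter hu'.isOpen_compl
    have h3 : IsCompact (E ∩ u) := hEc.inter_right hu
    have h4 : IsClopen (E ∩ u) := ⟨h3.isClosed, h2⟩
    rcases isClopen_iff.mp h4 with h5 | h5
    · rw [h5] at hnon; exact not_nonempty_empty hnon
    · rw [h5] at h3
      exact noncompact_univ ℂ h3
  -- the circle
  set r : ℝ := s ^ ((d ^ m : ℕ) : ℝ)⁻¹ with hr
  have hs0 : 0 ≤ s := by linarith
  have hrN : r ^ (d ^ m) = s := Real.rpow_inv_natCast_pow hs0 hN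
  have hr0 : 0 ≤ r := Real.rpow_nonneg hs0 _
  have hcirc : IsPreconnected (Metric.sphere (0:ℂ) r) :=
    isPreconnected_sphere (by simp) 0 r
  have hmemc : ∀ w, w ∈ Metric.sphere (0:ℂ) r ↔ ‖w‖ ^ (d ^ m) = s := by
    intro w
    rw [mem_sphere_zero_iff_norm]
    constructor
    · intro h; rw [h, hrN]
    · intro h
      rw [← hrN] at h
      exact (pow_left_inj₀ (norm_nonneg _) hr0 hN).mp h
  -- images
  have hΨc : ∀ u : Set ℂ, IsClosed u →
      IsClosed (Ψ '' (E ∩ u ∩ {c | ‖P d (m + 1) c‖ = s})) := by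
    intro u hu
    apply IsCompact.isClosed
    apply IsCompact.image_of_continuousOn
    · apply (hEc.inter_right hu).inter_right
      exact isClosed_eq (continuous_P d (m + 1)).norm continuous_const
    · intro c hc
      apply ContinuousAt.continuousWithinAt
      apply hΨ.cont
      rw [hc.2]; exact hs
  rw [isPreconnected_closed_iff] at hcirc
  have hcover : Metric.sphere (0:ℂ) r ⊆ Ψ '' (E ∩ t ∩ {c | ‖P d (m + 1) c‖ = s}) ∪
      Ψ '' (E ∩ t' ∩ {c | ‖P d (m + 1) c‖ = s}) := by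
    intro w hw
    rw [hmemc] at hw
    obtain ⟨c, hc, hcw⟩ := Psi_surj hd hΨ w (by rw [hw]; exact hs)
    have h1 : ‖P d (m + 1) c‖ = s := by
      rw [← hΨ.pow c hc, hcw, norm_pow, hw]
    have hcE : c ∈ E := (show ‖P d (m + 1) c‖ ≤ s from le_of_eq h1)
    rcases hsub hcE with h | h
    · left; exact ⟨c, ⟨⟨hcE, h⟩, h1⟩, hcw⟩
    · right; exact ⟨c, ⟨⟨hcE, h⟩, h1⟩, hcw⟩
  have hin : ∀ c, ‖P d (m + 1) c‖ = s → Ψ c ∈ Metric.sphere (0:ℂ) r := by
    intro c hc
    rw [hmemc, ← norm_pow, hΨ.pow c (by rw [hc]; exact hs), hc]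
  obtain ⟨c1, hc1, hc1s⟩ := hbdry t t' ht ht' hsub hcon hne
  obtain ⟨c2, hc2, hc2s⟩ := hbdry t' t ht' ht (by rw [union_comm]; exact hsub)
    (by rw [inter_comm t' t]; exact hcon) hne'
  obtain ⟨w, hw, hw1, hw2⟩ := hcirc _ _ (hΨc t ht) (hΨc t' ht') hcover
    ⟨Ψ c1, hin c1 hc1s, ⟨c1, ⟨hc1, hc1s⟩, rfl⟩⟩ ⟨Ψ c2, hin c2 hc2s, ⟨c2, ⟨hc2, hc2s⟩, rfl⟩⟩
  obtain ⟨a, ⟨⟨haE, hat⟩, has⟩, haw⟩ := hw1
  obtain ⟨b, ⟨⟨hbE, hbt⟩, hbs⟩, hbw⟩ := hw2
  have has' : ‖P d (m + 1) a‖ = s := has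
  have hbs' : ‖P d (m + 1) b‖ = s := hbs
  have hab : a = b := Psi_inj hd hΨ a b (by rw [has']; exact hs) (by rw [hbs']; exact hs)
    (haw.trans hbw.symm)
  subst hab
  have : a ∈ E ∩ (t ∩ t') := ⟨haE, hat, hbt⟩
  rw [hcon] at this
  exact this

end Pool.Agent.H712R2
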