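import Mathlib
import Pool.Prelude.Def_F_c31e40fa
import Pool.Agent.H712R2.MultiConn

set_option autoImplicit false

open Complex Set Topology Filter Bornology N62a1eb23

namespace Pool.Agent.H712R2

theorem isPreconnected_iInter_of_antitone {X : Type*} [TopologicalSpace X] [T2Space X]
    (E : ℕ → Set X) (hanti : Antitone E) (hc : ∀ n, IsCompact (E n))
    (hp : ∀ n, IsPreconnected (E n)) : IsPreconnected (⋂ n, E n) := by
  rw [isPreconnected_closed_iff]
  intro t t' ht ht' hsub hne hne'
  by_contra hcon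
  rw [not_nonempty_iff_eq_empty] at hcon
  have hIc : IsCompact (⋂ n, E n) := by
    apply (hc 0).of_isClosed_subset (isClosed_iInter fun n => (hc n).isClosed)
    exact iInter_subset _ 0
  have hdisj : Disjoint ((⋂ n, E n) ∩ t) ((⋂ n, E n) ∩ t') := by
    rw [Set.disjoint_iff_inter_eq_empty]
    rw [← hcon]
    ext x; simp only [mem_inter_iff]; tauto
  obtain ⟨U, V, hU, hV, hUt, hVt, hUV⟩ :=
    SeparatedNhds.of_isCompact_isCompact (hIc.inter_right ht) (hIc.inter_right ht') hdisj
  obtain ⟨n, hn⟩ := exists_subset_nhds_of_isCompact' (V := E) hanti.directed_ge hc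
    (fun n => (hc n).isClosed) (U := U ∪ V) (by
      intro x hx
      rcases hsub hx with h | h
      · exact mem_of_superset (hU.mem_nhds (hUt ⟨hx, h⟩)) subset_union_left
      · exact mem_of_superset (hV.mem_nhds (hVt ⟨hx, h⟩)) subset_union_right)
  obtain ⟨x, hx, hxt⟩ := hne
  obtain ⟨y, hy, hyt⟩ := hne'
  obtain ⟨z, hz, hzU, hzV⟩ := hp n U V hU hV hn
    ⟨x, mem_iInter.mp hx n, hUt ⟨hx, hxt⟩⟩ ⟨y, mem_iInter.mp hy n, hVt ⟨hy, hyt⟩⟩
  exact (Set.disjoint_left.mp hUV) hzU hzV

theorem tendsto_of_gt {d : ℕ} (hd : 2 ≤ d) {k : ℕ} {c : ℂ} (hk : 2 < ‖P d k c‖) :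
    Tendsto (fun k => P d k c) atTop (cobounded ℂ) := by
  have hk1 : 1 ≤ k := by
    by_contra h
    have : k = 0 := by omega
    subst this
    rw [P_zero, norm_zero] at hk
    linarith
  have hc := esc_of_gt hd hk1 hk
  set η : ℝ := ‖P d k c‖ - 1 with hη
  have hη1 : 1 < η := by linarith
  have key : ∀ j, ‖P d k c‖ * η ^ j ≤ ‖P d (k + j) c‖ := by
    intro j
    induction j with
    | zero => simp
    | succ j ih =>
      have h1 := esc_mono hd hk hc j
      have h2 := norm_lt_succ hd (k := k + j) (c := c) (by linarith) (by linarith)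
      rw [← add_assoc, pow_succ]
      calc ‖P d k c‖ * (η ^ j * η) = (‖P d k c‖ * η ^ j) * η := by ring
        _ ≤ ‖P d (k + j) c‖ * (‖P d (k + j) c‖ - 1) := by
            apply mul_le_mul ih (by linarith) (by linarith) (norm_nonneg _)
        _ ≤ _ := h2
  rw [← tendsto_norm_atTop_iff_cobounded]
  have h3 : Tendsto (fun j => ‖P d k c‖ * η ^ j) atTop atTop :=
    (tendsto_pow_atTop_atTop_of_one_lt hη1).const_mul_atTop (by linarith)
  have h4 : Tendsto (fun j => ‖P d (k + j) c‖) atTop atTop := tendsto_atTop_mono key h3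
  have h5 : (fun j => ‖P d (k + j) c‖) = fun j => (fun i => ‖P d i c‖) (j + k) := by
    funext j; simp only [add_comm]
  rw [h5] at h4
  exact (tendsto_add_atTop_iff_nat k).mp h4

theorem mem_multibrot_iff {d : ℕ} (hd : 2 ≤ d) (c : ℂ) :
    c ∈ multibrotSet d ↔ ∀ k, ‖P d k c‖ ≤ 2 := by
  have hdef : c ∈ multibrotSet d ↔ ¬ Tendsto (fun k => P d k c) atTop (cobounded ℂ) := Iff.rfl
  rw [hdef]
  constructor
  · intro h k
    by_contra hk
    push Not at hk
    exact h (tendsto_of_gt hd hk)
  · intro h ht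
    rw [← tendsto_norm_atTop_iff_cobounded] at ht
    obtain ⟨k, hk⟩ := (ht.eventually (eventually_gt_atTop 2)).exists
    exact absurd (h k) (not_le.mpr hk)

theorem multibrot_eq_iInter {d : ℕ} (hd : 2 ≤ d) :
    multibrotSet d = ⋂ m : ℕ, {c | ‖P d (m + 1) c‖ ≤ 3} := by
  ext c
  rw [mem_multibrot_iff hd, mem_iInter]
  constructor
  · intro h m
    exact (h (m + 1)).trans (by norm_num)
  · intro h k
    by_contra hk
    push Not at hk
    have ht := tendsto_of_gt hd hk
    rw [← tendsto_norm_atTop_iff_cobounded] at ht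
    have h2 := ((tendsto_add_atTop_iff_nat 1).mpr ht).eventually (eventually_gt_atTop 3)
    obtain ⟨m, hm⟩ := h2.exists
    have h3 : ‖P d (m + 1) c‖ ≤ 3 := h m
    exact absurd h3 (not_le.mpr hm)

theorem multibrot_antitone {d : ℕ} (hd : 2 ≤ d) :
    Antitone (fun m : ℕ => {c | ‖P d (m + 1) c‖ ≤ 3}) := by
  apply antitone_nat_of_succ_le
  intro m c hc
  have hc' : ‖P d (m + 1 + 1) c‖ ≤ 3 := hc
  change ‖P d (m + 1) c‖ ≤ 3
  by_contra h
  push Not at h
  have h1 := esc_of_gt hd (k := m + 1) (by omega) (show 2 < ‖P d (m + 1) c‖ by linarith)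
  have h2 := esc_step hd (show 2 < ‖P d (m + 1) c‖ by linarith) h1
  linarith

/-- **The Multibrot sets are connected.** -/
theorem isConnected_multibrot {d : ℕ} (hd : 2 ≤ d) : IsConnected (multibrotSet d) := by
  constructor
  · refine ⟨0, ?_⟩
    rw [mem_multibrot_iff hd]
    intro k
    have : P d k 0 = 0 := by
      induction k with
      | zero => rfl
      | succ k ih => rw [P_succ, ih, zero_pow (by omega), zero_add]
    rw [this]; simp
  · rw [multibrot_eq_iInter hd]
    exact isPreconnected_iInter_of_antitone _ (multibrot_antitone hd)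
      (fun m => isCompact_sub hd m 3) (fun m => isPreconnected_sub hd m (by norm_num))

theorem isCompact_multibrot {d : ℕ} (hd : 2 ≤ d) : IsCompact (multibrotSet d) := by
  rw [multibrot_eq_iInter hd]
  apply (isCompact_sub hd 0 3).of_isClosed_subset
    (isClosed_iInter fun m => (isCompact_sub hd m 3).isClosed)
  exact iInter_subset (fun m : ℕ => {c | ‖P d (m + 1) c‖ ≤ 3}) 0

end Pool.Agent.H712R2
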