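import Pool.Agent.H712R2.QuadDefs

set_option autoImplicit false

open Complex Set Topology Filter

namespace Pool.Agent.H712R2.Cremer

/-- `z` is accessible from the basin of infinity of `f_c(z) = z² + c`, in the form given in the
problem file: some external ray `{φ(r e^{2πit}) : r > 1}` of `K_c` lands at `z`, where `φ` is the
Böttcher parametrisation of the basin of infinity. -/
def Accessible (c z : ℂ) : Prop :=
  ∃ φ : ℂ → ℂ, IsBottcher c φ ∧ ∃ t : ℝ, Lands φ z t

end Pool.Agent.H712R2.Cremer
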