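import Pool.Agent.H712R2.Wind

set_option autoImplicit false

open Complex Set Topology Filter

namespace Pool.Agent.H712R2.Cremer

variable {c : ℂ} {φ : ℂ → ℂ} {p : ℂ}

theorem slit_of_rot {θ : ℝ} (hθ : |θ| < Real.pi) {w : ℂ}
    (hw : 0 < (Complex.exp (-(θ / 2 : ℝ) * Complex.I) * w).re) : w ∈ slitPlane := by
  rw [mem_slitPlane_iff]
  by_contra h
  push Not at h
  obtain ⟨h1, h2⟩ := h
  have hw2 : w = (w.re : ℂ) := Complex.ext (by simp) (by simp [h2])
  rw [hw2, Complex.re_mul_ofReal] at hw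
  have h3 : (Complex.exp (-(θ / 2 : ℝ) * Complex.I)).re = Real.cos (θ/2) := by
    have : (-((θ / 2 : ℝ) : ℂ) * Complex.I) = ((-(θ/2) : ℝ) : ℂ) * Complex.I := by push_cast; ring
    rw [this, Complex.exp_ofReal_mul_I_re, Real.cos_neg]
  rw [h3] at hw
  have h4 : 0 < Real.cos (θ/2) := by
    apply Real.cos_pos_of_mem_Ioo
    rw [abs_lt] at hθ
    constructor <;> linarith
  nlinarith

theorem ee_sub_eq {x : ℝ} : ee x = - Complex.exp ((2 * Real.pi * (x - 1/2) : ℝ) * Complex.I) := by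
  have : ee x = ee ((x - 1/2) + 1/2) := by congr 1; ring
  rw [this, ee_add_half, ee]
  congr 2
  push_cast; ring

theorem asym (hφ : IsBottcher c φ) {t s : ℝ} (ht : Lands φ p t) (h1 : t < s) (h2 : s < t + 1) :
    Tendsto (fun r : ℝ => vv φ p t (φ (r * ee s))) atTop (𝓝 (s - 1/2)) := by
  set θ : ℝ := 2 * Real.pi * (s - t - 1/2) with hθdef
  have hpi := Real.pi_pos
  have hθ : |θ| < Real.pi := by
    rw [abs_lt, hθdef]
    constructor <;> nlinarith
  set c₀ : ℝ := Real.cos (θ/2) with hc₀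
  have hc₀pos : 0 < c₀ := by
    apply Real.cos_pos_of_mem_Ioo
    rw [abs_lt] at hθ
    constructor <;> linarith
  -- κ
  have hinf : Tendsto (fun r : ℝ => (r : ℂ) * ee s) atTop (Bornology.cobounded ℂ) := by
    rw [← tendsto_norm_atTop_iff_cobounded]
    refine tendsto_id.congr' ?_
    filter_upwards [eventually_gt_atTop (0:ℝ)] with r hr
    rw [norm_mul, norm_ee, mul_one, Complex.norm_real, Real.norm_eq_abs, abs_of_pos hr]; rfl
  have hκ : Tendsto (fun r : ℝ => φ (r * ee s) / (r * ee s)) atTop (𝓝 1) := hφ.norm.comp hinf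
  -- z_r ee(-t) = - r κ exp(iθ)
  have hz : ∀ r : ℝ, 0 < r → φ (r * ee s) * ee (-t) =
      - (r * ((φ (r * ee s) / (r * ee s)) * Complex.exp (θ * Complex.I))) := by
    intro r hr
    have hr' : (r:ℂ) ≠ 0 := by exact_mod_cast hr.ne'
    have e1 : Complex.exp (θ * Complex.I) = - (ee s * ee (-t)) := by
      rw [← ee_add, show s + -t = s - t by ring, ee_sub_eq, neg_neg]
    rw [e1]
    have := ee_ne s
    field_simp
  -- bounds for tau
  have hτc := continuousOn_tau hφ ht
  obtain ⟨M, hM⟩ : ∃ M : ℝ, ∀ ρ ∈ Icc (0:ℝ) 1, ‖tau φ p t ρ‖ ≤ M :=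
    isCompact_Icc.exists_bound_of_continuousOn hτc
  have hM0 : 0 ≤ M := (norm_nonneg _).trans (hM 0 (by simp))
  obtain ⟨ρ₀, hρ₀pos, hρ₀⟩ : ∃ ρ₀ > 0, ∀ ρ ∈ Icc (0:ℝ) 1, ρ < ρ₀ → ‖tau φ p t ρ - 1‖ < c₀ / 2 := by
    have h0 := hτc 0 (by simp)
    rw [Metric.continuousWithinAt_iff] at h0
    obtain ⟨δ, hδ, h⟩ := h0 (c₀/2) (by positivity)
    refine ⟨δ, hδ, fun ρ hρ hlt => ?_⟩
    have := h hρ (by rw [dist_zero_right, Real.norm_eq_abs, abs_of_nonneg hρ.1]; exact hlt)
    rwa [tau_zero, dist_eq_norm] at this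
  -- half-plane
  have hhalf : Tendsto (fun r : ℝ => ((φ (r * ee s) / (r * ee s)) *
      Complex.exp ((θ / 2 : ℝ) * Complex.I)).re) atTop (𝓝 c₀) := by
    have := (hκ.mul_const (Complex.exp ((θ / 2 : ℝ) * Complex.I)))
    have h3 := (Complex.continuous_re.tendsto _).comp this
    rw [one_mul, Complex.exp_ofReal_mul_I_re] at h3
    exact h3
  have hev1 : ∀ᶠ r : ℝ in atTop, c₀ / 2 < ((φ (r * ee s) / (r * ee s)) *
      Complex.exp ((θ / 2 : ℝ) * Complex.I)).re := hhalf.eventually (lt_mem_nhds (by linarith))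
  have hev2 : ∀ᶠ r : ℝ in atTop, 2 * M / (ρ₀ * c₀) < r := eventually_gt_atTop _
  have hev : ∀ᶠ r : ℝ in atTop, vv φ p t (φ (r * ee s)) =
      Complex.arg (((r⁻¹ : ℝ) : ℂ) * (p * ee (-t)) +
        (φ (r * ee s) / (r * ee s)) * Complex.exp (θ * Complex.I)) / (2 * Real.pi) + t := by
    filter_upwards [hev1, hev2, eventually_gt_atTop (0:ℝ)] with r hr1 hr2 hr0
    have hslit : ∀ ρ ∈ Icc (0:ℝ) 1, TT φ p t (φ (r * ee s)) ρ ∈ slitPlane := by
      intro ρ hρ
      apply slit_of_rot hθ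
      have e1 : TT φ p t (φ (r * ee s)) ρ = tau φ p t ρ +
          ρ * (r * ((φ (r * ee s) / (r * ee s)) * Complex.exp (θ * Complex.I))) := by
        have : φ (r * ee s) * ρ * ee (-t) = ρ * (φ (r * ee s) * ee (-t)) := by ring
        rw [TT, this, hz r hr0]; ring
      have e2 : Complex.exp (-(θ / 2 : ℝ) * Complex.I) * Complex.exp (θ * Complex.I) =
          Complex.exp ((θ / 2 : ℝ) * Complex.I) := by
        rw [← Complex.exp_add]; congr 1; push_cast; ring
      have e3 : Complex.exp (-(θ / 2 : ℝ) * Complex.I) * TT φ p t (φ (r * ee s)) ρ =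
          Complex.exp (-(θ / 2 : ℝ) * Complex.I) * tau φ p t ρ +
          ((ρ * r : ℝ) : ℂ) * ((φ (r * ee s) / (r * ee s)) *
            Complex.exp ((θ / 2 : ℝ) * Complex.I)) := by
        rw [e1, ← e2]; push_cast; ring
      rw [e3, Complex.add_re, Complex.re_ofReal_mul]
      have hn : ‖Complex.exp (-(θ / 2 : ℝ) * Complex.I)‖ = 1 := by
        have : (-((θ / 2 : ℝ) : ℂ) * Complex.I) = ((-(θ/2) : ℝ) : ℂ) * Complex.I := by
          push_cast; ring
        rw [this, Complex.norm_exp_ofReal_mul_I]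
      have hre : (Complex.exp (-(θ / 2 : ℝ) * Complex.I)).re = c₀ := by
        have : (-((θ / 2 : ℝ) : ℂ) * Complex.I) = ((-(θ/2) : ℝ) : ℂ) * Complex.I := by
          push_cast; ring
        rw [this, Complex.exp_ofReal_mul_I_re, Real.cos_neg]
      rcases lt_or_ge ρ ρ₀ with hlt | hge
      · have f1 := hρ₀ ρ hρ hlt
        have f2 : (Complex.exp (-(θ / 2 : ℝ) * Complex.I) * tau φ p t ρ).re =
            c₀ + (Complex.exp (-(θ / 2 : ℝ) * Complex.I) * (tau φ p t ρ - 1)).re := by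
          rw [mul_sub, Complex.sub_re, mul_one, hre]; ring
        have f3 : |(Complex.exp (-(θ / 2 : ℝ) * Complex.I) * (tau φ p t ρ - 1)).re| < c₀ / 2 := by
          refine lt_of_le_of_lt (Complex.abs_re_le_norm _) ?_
          rwa [norm_mul, hn, one_mul]
        rw [abs_lt] at f3
        have f4 : 0 ≤ ρ * r * ((φ (r * ee s) / (r * ee s)) *
            Complex.exp ((θ / 2 : ℝ) * Complex.I)).re := by
          have := hρ.1
          have : 0 < ((φ (r * ee s) / (r * ee s)) *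
            Complex.exp ((θ / 2 : ℝ) * Complex.I)).re := by linarith
          positivity
        rw [f2]
        linarith [f3.1]
      · have f1 : |(Complex.exp (-(θ / 2 : ℝ) * Complex.I) * tau φ p t ρ).re| ≤ M := by
          refine (Complex.abs_re_le_norm _).trans ?_
          rw [norm_mul, hn, one_mul]
          exact hM ρ hρ
        rw [abs_le] at f1
        have f2 : M < ρ * r * ((φ (r * ee s) / (r * ee s)) *
            Complex.exp ((θ / 2 : ℝ) * Complex.I)).re := by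
          have g1 : 2 * M < r * (ρ₀ * c₀) := by
            rwa [div_lt_iff₀ (by positivity)] at hr2
          have g2 : M < ρ₀ * r * (c₀ / 2) := by nlinarith
          have g3 : ρ₀ * r ≤ ρ * r := mul_le_mul_of_nonneg_right hge hr0.le
          have g4 : ρ₀ * r * (c₀/2) ≤ ρ * r * (c₀ / 2) :=
            mul_le_mul_of_nonneg_right g3 (by positivity)
          have g5 : ρ * r * (c₀/2) ≤ ρ * r * ((φ (r * ee s) / (r * ee s)) *
            Complex.exp ((θ / 2 : ℝ) * Complex.I)).re := by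
            apply mul_le_mul_of_nonneg_left hr1.le
            have := hρ.1
            positivity
          linarith
        linarith [f1.1]
    have hell : ell φ p t (φ (r * ee s)) = Complex.log (TT φ p t (φ (r * ee s)) 1) := by
      apply ell_eq
      refine IsPL.of_slit ?_ (TT_zero _ _ _ _) hslit
      exact (continuousOn_TT hφ ht).comp (f := fun ρ : ℝ => (φ (r * ee s), ρ)) (by fun_prop)
        (fun ρ hρ => ⟨mem_univ _, hρ⟩)
    rw [vv, hell, Complex.log_im]
    congr 2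
    have e5 : TT φ p t (φ (r * ee s)) 1 = (r : ℝ) * (((r⁻¹ : ℝ) : ℂ) * (p * ee (-t)) +
        (φ (r * ee s) / (r * ee s)) * Complex.exp (θ * Complex.I)) := by
      rw [TT_one, sub_mul, hz r hr0]
      have hr' : (r:ℂ) ≠ 0 := by exact_mod_cast hr0.ne'
      push_cast
      field_simp
      ring
    rw [e5, Complex.arg_real_mul _ hr0]
  refine Tendsto.congr' (hev.mono fun r hr => hr.symm) ?_
  have hlim : Tendsto (fun r : ℝ => ((r⁻¹ : ℝ) : ℂ) * (p * ee (-t)) +
        (φ (r * ee s) / (r * ee s)) * Complex.exp (θ * Complex.I)) atTop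
        (𝓝 (Complex.exp (θ * Complex.I))) := by
    have g1 : Tendsto (fun r : ℝ => ((r⁻¹ : ℝ) : ℂ)) atTop (𝓝 0) := by
      have := (Complex.continuous_ofReal.tendsto 0).comp (tendsto_inv_atTop_zero (𝕜 := ℝ))
      rw [Complex.ofReal_zero] at this
      exact this
    have := (g1.mul_const (p * ee (-t))).add (hκ.mul_const (Complex.exp (θ * Complex.I)))
    rwa [zero_mul, zero_add, one_mul] at this
  have harg : Complex.arg (Complex.exp (θ * Complex.I)) = θ := by
    rw [abs_lt] at hθ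
    rw [← Complex.log_im, Complex.log_exp (by simpa using hθ.1) (by simpa using hθ.2.le)]
    simp
  have hslit2 : Complex.exp (θ * Complex.I) ∈ slitPlane := by
    rw [Complex.mem_slitPlane_iff_arg]
    constructor
    · rw [harg]
      rw [abs_lt] at hθ
      exact hθ.2.ne
    · exact Complex.exp_ne_zero _
  have hcont : ContinuousAt Complex.arg (Complex.exp (θ * Complex.I)) :=
    Complex.continuousAt_arg hslit2
  have h5 := hcont.tendsto.comp hlim
  rw [harg] at h5
  have h6 := (h5.div_const (2 * Real.pi)).add_const t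
  have e : θ / (2 * Real.pi) + t = s - 1/2 := by
    rw [hθdef]; field_simp; ring
  rw [e] at h6
  exact h6

theorem ray_mem_ZZ (hφ : IsBottcher c φ) (hp : fq c p = p) {t s : ℝ}
    (hst : ∀ n : ℤ, s ≠ t + n) {r : ℝ} (hr : 1 < r) : φ (r * ee s) ∈ ZZ φ p t := by
  have hw : ∀ {x u : ℝ}, 1 < x → 1 < ‖(x:ℂ) * ee u‖ := by
    intro x u hx
    rw [norm_mul, norm_ee, mul_one, Complex.norm_real, Real.norm_eq_abs, abs_of_pos (by linarith)]
    exact hx
  rw [mem_ZZ_iff]
  constructor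
  · intro h
    have h1 : φ (r * ee s) ∈ (KJ c)ᶜ := by rw [← hφ.image]; exact ⟨_, hw hr, rfl⟩
    rw [h] at h1
    exact h1 (fixed_mem_KJ hp)
  · intro r' hr' h
    have h1 := hφ.inj (hw hr') (hw hr) h
    have h2 : r' = r := by
      have := congrArg norm h1
      rw [norm_mul, norm_mul, norm_ee, norm_ee, mul_one, mul_one, Complex.norm_real,
        Complex.norm_real, Real.norm_eq_abs, Real.norm_eq_abs, abs_of_pos (by linarith),
        abs_of_pos (by linarith)] at this
      exact this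
    subst h2
    have h3 : ((r':ℝ):ℂ) ≠ 0 := by exact_mod_cast (by linarith : r' ≠ 0)
    have h4 := mul_left_cancel₀ h3 h1
    obtain ⟨n, hn⟩ := ee_eq_iff.mp h4
    exact hst (-n) (by push_cast; linarith)

theorem ne_add_int {t s : ℝ} (h1 : t < s) (h2 : s < t + 1) (n : ℤ) : s ≠ t + n := by
  rintro rfl
  have a1 : (0:ℝ) < n := by linarith
  have a2 : (n:ℝ) < 1 := by linarith
  have b1 : 0 < n := by exact_mod_cast a1
  have b2 : n < 1 := by exact_mod_cast a2
  omega

theorem isPreconnected_ray (hφ : IsBottcher c φ) (s : ℝ) :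
    IsPreconnected ((fun r : ℝ => φ (r * ee s)) '' Ioi 1) := by
  apply isPreconnected_Ioi.image
  refine (continuousOn_phi hφ).comp (by fun_prop) ?_
  intro r hr
  have hr' : (1:ℝ) < r := hr
  show 1 < ‖(r:ℂ) * ee s‖
  rw [norm_mul, norm_ee, mul_one, Complex.norm_real, Real.norm_eq_abs, abs_of_pos (by linarith)]
  exact hr

/-- The difference of angular functions on a ray of the basin. -/
theorem ray_diff (hφ : IsBottcher c φ) (hp : fq c p = p) {t t' s : ℝ} {k : ℤ}
    (ht : Lands φ p t) (ht' : Lands φ p t') (h1 : t < s) (h2 : s < t + 1)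
    (h3 : t' < s + k) (h4 : s + k < t' + 1) {r : ℝ} (hr : 1 < r) :
    vv φ p t (φ (r * ee s)) - vv φ p t' (φ (r * ee s)) = -k := by
  have hn1 : ∀ n : ℤ, s ≠ t + n := ne_add_int h1 h2
  have hn2 : ∀ n : ℤ, s ≠ t' + n := by
    intro n hn
    exact ne_add_int h3 h4 (n + k) (by push_cast; linarith)
  have ek : ∀ x : ℝ, φ (x * ee (s + k)) = φ (x * ee s) := by
    intro x; rw [ee_add_int]
  have a1 := asym hφ ht h1 h2
  have a2 := asym hφ ht' h3 h4
  simp only [ek] at a2
  have a3 := a1.sub a2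
  have a4 : ∀ᶠ x : ℝ in atTop, vv φ p t (φ (x * ee s)) - vv φ p t' (φ (x * ee s)) =
      vv φ p t (φ (r * ee s)) - vv φ p t' (φ (r * ee s)) := by
    filter_upwards [eventually_gt_atTop (1:ℝ)] with x hx
    refine vv_sub_const hφ ht ht' (isPreconnected_ray hφ s) ?_ ?_ ⟨x, hx, rfl⟩ ⟨r, hr, rfl⟩
    · rintro _ ⟨y, hy, rfl⟩; exact ray_mem_ZZ hφ hp hn1 hy
    · rintro _ ⟨y, hy, rfl⟩; exact ray_mem_ZZ hφ hp hn2 hy
  have a5 := tendsto_nhds_unique (a3.congr' a4) tendsto_const_nhds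
  rw [← a5]; ring

theorem exists_polar {w : ℂ} (hw : 1 < ‖w‖) (t : ℝ) :
    ∃ s : ℝ, t < s ∧ s ≤ t + 1 ∧ w = ((‖w‖ : ℝ) : ℂ) * ee s := by
  -- argument
  have h0 : w = (‖w‖ : ℂ) * ee (Complex.arg w / (2 * Real.pi)) := by
    have h1 := Complex.norm_mul_exp_arg_mul_I w
    have hpi : (Real.pi : ℂ) ≠ 0 := by exact_mod_cast Real.pi_ne_zero
    rw [ee]
    rw [show (2 * Real.pi * ((Complex.arg w / (2 * Real.pi) : ℝ) : ℂ) * Complex.I) =
      Complex.arg w * Complex.I by push_cast; field_simp]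
    exact h1.symm
  set a := Complex.arg w / (2 * Real.pi)
  -- shift into (t, t+1]
  refine ⟨a + (⌊t + 1 - a⌋ : ℤ), ?_, ?_, ?_⟩
  · have := Int.lt_floor_add_one (t + 1 - a); linarith
  · have := Int.floor_le (t + 1 - a); linarith
  · rw [ee_add_int]; exact h0

theorem exists_JJ_segment {z : ℂ} (hz : z ∈ KJ c) (hzp : z ≠ p) :
    ∃ S : Set ℂ, IsPreconnected S ∧ S ⊆ KJ c \ {p} ∧ z ∈ S ∧ ∃ z' ∈ S, z' ∈ JJ c := by
  have hd : 0 < ‖z - p‖ := norm_pos_iff.mpr (sub_ne_zero.mpr hzp)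
  set u : ℂ := z - p with hu
  -- points z + x u
  let γ : ℝ → ℂ := fun x => z + x * u
  have hγ : Continuous γ := by fun_prop
  let X : Set ℝ := {x | 0 ≤ x ∧ γ x ∉ interior (KJ c)}
  have hXc : IsClosed X := by
    have : X = Ici 0 ∩ γ ⁻¹' (interior (KJ c))ᶜ := by ext x; rfl
    rw [this]
    exact isClosed_Ici.inter (isOpen_interior.isClosed_compl.preimage hγ)
  have hXne : X.Nonempty := by
    refine ⟨(RR c + 1 + ‖z‖) / ‖u‖, ?_, ?_⟩
    · have : 0 ≤ RR c := by unfold RR; positivity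
      positivity
    · intro h
      have h1 := norm_le_of_mem_KJ (interior_subset h)
      have h2 : ‖γ ((RR c + 1 + ‖z‖) / ‖u‖)‖ ≥ ‖(((RR c + 1 + ‖z‖) / ‖u‖ : ℝ) : ℂ) * u‖ - ‖z‖ := by
        have := norm_sub_norm_le ((((RR c + 1 + ‖z‖) / ‖u‖ : ℝ) : ℂ) * u) (-z)
        rw [norm_neg] at this
        have e : (((RR c + 1 + ‖z‖) / ‖u‖ : ℝ) : ℂ) * u - -z = γ ((RR c + 1 + ‖z‖) / ‖u‖) := by
          show _ = z + _ * u
          ring
        rw [e] at this
        exact this
      have h3 : ‖(((RR c + 1 + ‖z‖) / ‖u‖ : ℝ) : ℂ) * u‖ = RR c + 1 + ‖z‖ := by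
        have : 0 ≤ RR c := by unfold RR; positivity
        rw [norm_mul, Complex.norm_real, Real.norm_eq_abs, abs_of_nonneg (by positivity)]
        field_simp
      linarith
  have hbd : BddBelow X := ⟨0, fun x hx => hx.1⟩
  have hmem : sInf X ∈ X := hXc.csInf_mem hXne hbd
  set x₀ := sInf X with hx₀
  have hlt : ∀ x, 0 ≤ x → x < x₀ → γ x ∈ interior (KJ c) := by
    intro x hx hxlt
    by_contra h
    exact absurd (csInf_le hbd ⟨hx, h⟩) (not_le.mpr hxlt)
  have hmemK : γ x₀ ∈ KJ c := by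
    rcases eq_or_lt_of_le hmem.1 with h | h
    · rw [← h]; simpa [γ] using hz
    · have hcl : γ x₀ ∈ closure (KJ c) := by
        have h1 : x₀ ∈ closure (Ico 0 x₀) := by
          rw [closure_Ico h.ne]; exact ⟨h.le, le_rfl⟩
        have h2 : MapsTo γ (Ico 0 x₀) (KJ c) := fun x hx => interior_subset (hlt x hx.1 hx.2)
        exact map_mem_closure hγ h1 h2
      rwa [(isClosed_KJ c).closure_eq] at hcl
  refine ⟨γ '' Icc 0 x₀, isPreconnected_Icc.image _ hγ.continuousOn, ?_, ⟨0, ⟨le_rfl, hmem.1⟩, by simp [γ]⟩,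
    γ x₀, ⟨x₀, ⟨hmem.1, le_rfl⟩, rfl⟩, ?_⟩
  · rintro _ ⟨x, hx, rfl⟩
    constructor
    · rcases eq_or_lt_of_le hx.2 with h | h
      · rw [h]; exact hmemK
      · exact interior_subset (hlt x hx.1 h)
    · intro h
      simp only [mem_singleton_iff] at h
      have h2 : ((1 + x : ℝ) : ℂ) * u = 0 := by
        have : z + x * u = p := h
        push_cast
        rw [hu] at this ⊢
        linear_combination this
      rcases mul_eq_zero.mp h2 with h3 | h3
      · have : (1 + x : ℝ) = 0 := by exact_mod_cast h3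
        have := hx.1
        linarith
      · rw [h3] at hd; simp at hd
  · rw [JJ, frontier, (isClosed_KJ c).closure_eq]
    exact ⟨hmemK, hmem.2⟩

/-- (v2) -/
theorem vv_mono_aux (hφ : IsBottcher c φ) (hp : fq c p = p) {t t' : ℝ} (ht : Lands φ p t)
    (ht' : Lands φ p t') (h1 : t < t') (h2 : t' < t + 1) {z : ℂ} (hz : z ∈ KJ c) (hzp : z ≠ p) :
    vv φ p t' z = vv φ p t z ∨ vv φ p t' z = vv φ p t z + 1 := by
  obtain ⟨S, hS, hSK, hzS, z', hz'S, hz'J⟩ := exists_JJ_segment hz hzp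
  have hZ : ∀ u : ℝ, S ⊆ ZZ φ p u := fun u x hx => KJ_subset_ZZ hφ (hSK hx).1 (hSK hx).2
  have e1 := vv_sub_const hφ ht ht' hS (hZ t) (hZ t') hzS hz'S
  -- now work at z'
  have hU : IsOpen (ZZ φ p t ∩ ZZ φ p t') := (isOpen_ZZ hφ ht).inter (isOpen_ZZ hφ ht')
  obtain ⟨ε, hε, hball⟩ := Metric.isOpen_iff.mp hU z' ⟨hZ t hz'S, hZ t' hz'S⟩
  have hcl : z' ∈ closure (KJ c)ᶜ := by
    rw [closure_compl]; exact hz'J.2
  obtain ⟨z'', hz''K, hz''⟩ := Metric.mem_closure_iff.mp hcl ε hε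
  have hz''b : z'' ∈ Metric.ball z' ε := by rw [Metric.mem_ball, dist_comm]; exact hz''
  have e2 := vv_sub_const hφ ht ht' (convex_ball z' ε).isPreconnected
    (hball.trans inter_subset_left) (hball.trans inter_subset_right) (Metric.mem_ball_self hε) hz''b
  rw [← hφ.image] at hz''K
  obtain ⟨w, hw, hwz⟩ := hz''K
  obtain ⟨s, hs1, hs2, hs3⟩ := exists_polar hw t
  have hne : s ≠ t + 1 := by
    rintro rfl
    have h3 := (mem_ZZ_iff.mp (hball hz''b).1).2 ‖w‖ hw
    apply h3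
    rw [← hwz]
    conv_rhs => rw [hs3]
    rw [show t + 1 = t + ((1:ℤ):ℝ) by push_cast; ring, ee_add_int]
  have hne' : s ≠ t' := by
    rintro rfl
    have h3 := (mem_ZZ_iff.mp (hball hz''b).2).2 ‖w‖ hw
    apply h3
    rw [← hwz]
    conv_rhs => rw [hs3]
  have hs2' : s < t + 1 := lt_of_le_of_ne hs2 hne
  rw [hs3] at hwz
  rcases lt_or_gt_of_ne hne' with hlt | hgt
  · have e3 := ray_diff hφ hp (k := 1) ht ht' hs1 hs2' (by push_cast; linarith)
      (by push_cast; linarith) hw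
    rw [hwz] at e3
    right
    push_cast at e3
    linarith
  · have e3 := ray_diff hφ hp (k := 0) ht ht' hs1 hs2' (by push_cast; linarith)
      (by push_cast; linarith) hw
    rw [hwz] at e3
    left
    push_cast at e3
    linarith

theorem vv_mono (hφ : IsBottcher c φ) (hp : fq c p = p) {t t' : ℝ} (ht : Lands φ p t)
    (ht' : Lands φ p t') (h1 : t ≤ t') {z : ℂ} (hz : z ∈ KJ c) (hzp : z ≠ p) :
    vv φ p t z + ⌊t' - t⌋ ≤ vv φ p t' z := by
  have hk : t' = (t' - ⌊t' - t⌋) + ⌊t' - t⌋ := by ring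
  have hl1 : t ≤ t' - ⌊t' - t⌋ := by have := Int.floor_le (t' - t); linarith
  have hl2 : t' - ⌊t' - t⌋ < t + 1 := by have := Int.lt_floor_add_one (t' - t); linarith
  have hland : Lands φ p (t' - ⌊t' - t⌋) := by
    rw [hk] at ht'
    exact (lands_add_int _).mp ht'
  have e1 : vv φ p t' z = vv φ p (t' - ⌊t' - t⌋) z + ⌊t' - t⌋ := by
    conv_lhs => rw [hk]
    exact vv_add_int _ _ _
  rw [e1]
  rcases eq_or_lt_of_le hl1 with h | h
  · rw [← h]
  · rcases vv_mono_aux hφ hp ht hland h hl2 hz hzp with h3 | h3 <;> rw [h3] <;> linarith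

theorem lands_neg (hφ : IsBottcher c φ) {t : ℝ} (ht : Lands φ p t) : Lands φ (-p) (t + 1/2) := by
  unfold Lands at *
  refine ht.neg.congr' ?_
  filter_upwards [self_mem_nhdsWithin] with r hr
  have hr' : (1:ℝ) < r := hr
  rw [ee_add_half, mul_neg, phi_neg hφ]
  rw [norm_mul, norm_ee, mul_one, Complex.norm_real, Real.norm_eq_abs, abs_of_pos (by linarith)]
  exact hr'

/-- (v4) -/
theorem block_short (hφ : IsBottcher c φ) (hp : fq c p = p) (hp0 : p ≠ 0) {t t' : ℝ}
    (ht : Lands φ p t) (ht' : Lands φ p t') (h1 : t < t')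
    (h2 : vv φ p t (-p) = vv φ p t' (-p)) : t' - t < 1/2 := by
  have hpn : -p ≠ p := by
    intro h
    exact hp0 (by linear_combination (-1/2) * h)
  have hpK : -p ∈ KJ c := neg_mem_KJ.mpr (fixed_mem_KJ hp)
  have hlt1 : t' < t + 1 := by
    by_contra h
    push Not at h
    have h3 := vv_mono hφ hp ht ht' h1.le hpK hpn
    have h4 : (1:ℤ) ≤ ⌊t' - t⌋ := Int.le_floor.mpr (by push_cast; linarith)
    have h5 : (1:ℝ) ≤ ⌊t' - t⌋ := by exact_mod_cast h4
    linarith
  by_contra hcon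
  push Not at hcon
  rcases eq_or_lt_of_le hcon with heq | hgt
  · -- t' = t + 1/2
    have e : t' = t + 1/2 := by linarith
    have h3 := lands_neg hφ ht
    rw [← e] at h3
    exact hpn (tendsto_nhds_unique h3 ht')
  · have h3 := lands_neg hφ ht
    have hrd := fun r (hr : (1:ℝ) < r) => ray_diff hφ hp (k := 1) (s := t + 1/2) ht ht' (by linarith)
      (by linarith) (by push_cast; linarith) (by push_cast; linarith) hr
    have hc : ContinuousAt (fun z => vv φ p t z - vv φ p t' z) (-p) := by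
      refine ContinuousAt.sub ?_ ?_
      · exact (continuousOn_vv hφ ht).continuousAt
          ((isOpen_ZZ hφ ht).mem_nhds (KJ_subset_ZZ hφ hpK hpn))
      · exact (continuousOn_vv hφ ht').continuousAt
          ((isOpen_ZZ hφ ht').mem_nhds (KJ_subset_ZZ hφ hpK hpn))
    have h4 := hc.tendsto.comp h3
    have h5 : Tendsto (fun r : ℝ => (-1 : ℝ)) (𝓝[>] 1) (𝓝 (vv φ p t (-p) - vv φ p t' (-p))) := by
      refine h4.congr' ?_
      filter_upwards [self_mem_nhdsWithin] with r hr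
      have := hrd r hr
      simp only [Function.comp_apply]
      rw [this]; norm_num
    have h6 := tendsto_nhds_unique h5 tendsto_const_nhds
    linarith

end Pool.Agent.H712R2.Cremer
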