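import Pool.Agent.H712R2.Asym

set_option autoImplicit false

open Complex Set Topology Filter

namespace Pool.Agent.H712R2.Cremer

/-- Two points are equivalent if no pair of rays landing at `p` separates them. -/
def Eqv (φ : ℂ → ℂ) (p : ℂ) (z z' : ℂ) : Prop :=
  ∀ t, Lands φ p t → ∀ t', Lands φ p t' →
    vv φ p t z - vv φ p t' z = vv φ p t z' - vv φ p t' z'

/-- block index -/
noncomputable def BB (φ : ℂ → ℂ) (p : ℂ) (t : ℝ) : ℝ := vv φ p t (-p)

/-- the monotone lift of the doubling map -/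
noncomputable def FF (φ : ℂ → ℂ) (p : ℂ) (t₀ : ℝ) (t : ℝ) : ℝ := 2 * t - (BB φ p t - BB φ p t₀)

theorem seq_aux' (t : ℕ → ℝ) (hbd : ∀ n m, |t n - t m| < 1/2) (hs : ∀ n, t n < t (n+1))
    (C : ℝ) (hC : 0 < C)
    (hexp : ∀ n, |t (n+1) - t n| < C → |t (n+1) - t n| ≤ |t (n+2) - t (n+1)|) : False := by
  have hmono : Monotone t := monotone_nat_of_le_succ fun n => (hs n).le
  have hb : BddAbove (Set.range t) := by
    refine ⟨t 0 + 1/2, ?_⟩
    rintro _ ⟨n, rfl⟩
    have := (abs_lt.mp (hbd n 0)).2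
    linarith
  have h1 := tendsto_atTop_ciSup hmono hb
  have h2 := (h1.comp (tendsto_add_atTop_nat 1)).sub h1
  rw [sub_self] at h2
  have h3 : Tendsto (fun n => |t (n+1) - t n|) atTop (𝓝 0) := by
    have := h2.abs
    rw [abs_zero] at this
    exact this
  obtain ⟨N, hN⟩ := (h3.eventually (gt_mem_nhds hC)).exists_forall_of_atTop
  have h4 : ∀ k, |t (N+1) - t N| ≤ |t (N + k + 1) - t (N + k)| := by
    intro k
    induction k with
    | zero => simp
    | succ k ih => exact ih.trans (hexp (N + k) (hN (N + k) (by omega)))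
  have h5 : 0 < |t (N+1) - t N| := abs_pos.mpr (by have := hs N; linarith)
  obtain ⟨M, hM⟩ := (h3.eventually (gt_mem_nhds h5)).exists_forall_of_atTop
  have h6 := hM (N + M) (by omega)
  exact absurd (h4 M) (not_le.mpr h6)

theorem seq_aux (t : ℕ → ℝ) (hbd : ∀ n m, |t n - t m| < 1/2)
    (hs : (∀ n, t n < t (n+1)) ∨ (∀ n, t (n+1) < t n))
    (C : ℝ) (hC : 0 < C)
    (hexp : ∀ n, |t (n+1) - t n| < C → |t (n+1) - t n| ≤ |t (n+2) - t (n+1)|) : False := by
  rcases hs with hs | hs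
  · exact seq_aux' t hbd hs C hC hexp
  · refine seq_aux' (fun n => - t n) (fun n m => ?_) (fun n => by simpa using hs n) C hC ?_
    · have := hbd m n
      rwa [show - t n - -t m = t m - t n by ring]
    · intro n hn
      have e1 : |-t (n+1) - -t n| = |t (n+1) - t n| := by
        rw [← abs_neg]; congr 1; ring
      have e2 : |-t (n+2) - -t (n+1)| = |t (n+2) - t (n+1)| := by
        rw [← abs_neg]; congr 1; ring
      rw [e1] at hn ⊢
      rw [e2]
      exact hexp n hn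

variable {c : ℂ} {φ : ℂ → ℂ} {p : ℂ}

theorem BB_add_int (t : ℝ) (n : ℤ) : BB φ p (t + n) = BB φ p t + n := vv_add_int t n (-p)

theorem neg_p_ne (hp0 : p ≠ 0) : -p ≠ p := by
  intro h
  exact hp0 (by linear_combination (-1/2) * h)

theorem neg_p_mem (hp : fq c p = p) : -p ∈ KJ c := neg_mem_KJ.mpr (fixed_mem_KJ hp)

theorem BB_int (hφ : IsBottcher c φ) (hp : fq c p = p) (hp0 : p ≠ 0) {t t' : ℝ}
    (ht : Lands φ p t) (ht' : Lands φ p t') : ∃ n : ℤ, BB φ p t - BB φ p t' = n :=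
  vv_sub_int hφ ht ht' (KJ_subset_ZZ hφ (neg_p_mem hp) (neg_p_ne hp0))
    (KJ_subset_ZZ hφ (neg_p_mem hp) (neg_p_ne hp0))

theorem FF_eq (hφ : IsBottcher c φ) (hp : fq c p = p) (hp0 : p ≠ 0) {t₀ t : ℝ}
    (ht₀ : Lands φ p t₀) (ht : Lands φ p t) :
    ∃ n : ℤ, BB φ p t - BB φ p t₀ = n ∧ FF φ p t₀ t = 2 * t + ((-n : ℤ) : ℝ) := by
  obtain ⟨n, hn⟩ := BB_int hφ hp hp0 ht ht₀
  exact ⟨n, hn, by rw [FF, hn]; push_cast; ring⟩

theorem FF_lands (hφ : IsBottcher c φ) (hp : fq c p = p) (hp0 : p ≠ 0) {t₀ t : ℝ}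
    (ht₀ : Lands φ p t₀) (ht : Lands φ p t) : Lands φ p (FF φ p t₀ t) := by
  obtain ⟨n, -, hn⟩ := FF_eq hφ hp hp0 ht₀ ht
  rw [hn]
  exact (lands_add_int _).mpr (lands_two hφ hp ht)

theorem FF_iter_lands (hφ : IsBottcher c φ) (hp : fq c p = p) (hp0 : p ≠ 0) {t₀ t : ℝ}
    (ht₀ : Lands φ p t₀) (ht : Lands φ p t) (j : ℕ) : Lands φ p ((FF φ p t₀)^[j] t) := by
  induction j with
  | zero => simpa using ht
  | succ j ih => rw [Function.iterate_succ_apply']; exact FF_lands hφ hp hp0 ht₀ ih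

theorem FF_iter_int (hφ : IsBottcher c φ) (hp : fq c p = p) (hp0 : p ≠ 0) {t₀ t : ℝ}
    (ht₀ : Lands φ p t₀) (ht : Lands φ p t) (j : ℕ) :
    ∃ m : ℤ, (FF φ p t₀)^[j] t = 2 ^ j * t + m := by
  induction j with
  | zero => exact ⟨0, by simp⟩
  | succ j ih =>
    obtain ⟨m, hm⟩ := ih
    obtain ⟨n, -, hn⟩ := FF_eq hφ hp hp0 ht₀ (FF_iter_lands hφ hp hp0 ht₀ ht j)
    refine ⟨2 * m - n, ?_⟩
    rw [Function.iterate_succ_apply', hn, hm]
    push_cast
    ring

theorem BB_mono (hφ : IsBottcher c φ) (hp : fq c p = p) (hp0 : p ≠ 0) {t t' : ℝ}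
    (ht : Lands φ p t) (ht' : Lands φ p t') (h : t ≤ t') : BB φ p t ≤ BB φ p t' := by
  have h1 := vv_mono hφ hp ht ht' h (neg_p_mem hp) (neg_p_ne hp0)
  have h2 : (0:ℤ) ≤ ⌊t' - t⌋ := Int.floor_nonneg.mpr (by linarith)
  have h3 : (0:ℝ) ≤ ⌊t' - t⌋ := by exact_mod_cast h2
  unfold BB
  linarith

theorem block_abs (hφ : IsBottcher c φ) (hp : fq c p = p) (hp0 : p ≠ 0) {t t' : ℝ}
    (ht : Lands φ p t) (ht' : Lands φ p t') (h : BB φ p t = BB φ p t') : |t - t'| < 1/2 := by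
  rcases lt_trichotomy t t' with h1 | h1 | h1
  · have := block_short hφ hp hp0 ht ht' h1 h
    rw [abs_sub_comm, abs_of_pos (by linarith)]
    exact this
  · rw [h1, sub_self, abs_zero]; norm_num
  · have := block_short hφ hp hp0 ht' ht h1 h.symm
    rw [abs_of_pos (by linarith)]
    exact this

theorem dist_block (hφ : IsBottcher c φ) (hp : fq c p = p) (hp0 : p ≠ 0) {t t' : ℝ}
    (ht : Lands φ p t) (ht' : Lands φ p t') :
    |(t' - t) - (BB φ p t' - BB φ p t)| < 1/2 := by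
  obtain ⟨n, hn⟩ := BB_int hφ hp hp0 ht' ht
  have h1 : Lands φ p (t + n) := (lands_add_int n).mpr ht
  have h2 := block_abs hφ hp hp0 ht' h1 (by rw [BB_add_int, ← hn]; ring)
  rw [hn]
  rwa [show t' - t - (n:ℝ) = t' - (t + n) by ring]

theorem FF_strict (hφ : IsBottcher c φ) (hp : fq c p = p) (hp0 : p ≠ 0) {t₀ t t' : ℝ}
    (ht : Lands φ p t) (ht' : Lands φ p t') (h : t < t') :
    FF φ p t₀ t < FF φ p t₀ t' := by
  obtain ⟨n, hn⟩ := BB_int hφ hp hp0 ht' ht
  have h1 := BB_mono hφ hp hp0 ht ht' h.le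
  have h2 := dist_block hφ hp hp0 ht ht'
  rw [hn] at h2
  have h3 : (0:ℝ) ≤ n := by rw [← hn]; linarith
  have h4 : 0 ≤ n := by exact_mod_cast h3
  unfold FF
  rcases eq_or_lt_of_le h4 with h5 | h5
  · have : (n:ℝ) = 0 := by rw [← h5]; simp
    rw [this] at hn
    linarith
  · have h6 : (1:ℝ) ≤ n := by exact_mod_cast h5
    rw [abs_lt] at h2
    linarith [h2.1]

theorem FF_iter_strict (hφ : IsBottcher c φ) (hp : fq c p = p) (hp0 : p ≠ 0) {t₀ t t' : ℝ}
    (ht₀ : Lands φ p t₀) (ht : Lands φ p t) (ht' : Lands φ p t') (h : t < t') (j : ℕ) :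
    (FF φ p t₀)^[j] t < (FF φ p t₀)^[j] t' := by
  induction j with
  | zero => simpa using h
  | succ j ih =>
    rw [Function.iterate_succ_apply', Function.iterate_succ_apply']
    exact FF_strict hφ hp hp0 (FF_iter_lands hφ hp hp0 ht₀ ht j)
      (FF_iter_lands hφ hp hp0 ht₀ ht' j) ih

theorem FF_expand (hφ : IsBottcher c φ) (hp : fq c p = p) (hp0 : p ≠ 0) {t₀ t t' : ℝ}
    (ht : Lands φ p t) (ht' : Lands φ p t') (h : |t' - t| ≤ 1/2) :
    |FF φ p t₀ t' - FF φ p t₀ t| = 2 * |t' - t| := by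
  obtain ⟨n, hn⟩ := BB_int hφ hp hp0 ht' ht
  have h2 := dist_block hφ hp hp0 ht ht'
  rw [hn] at h2
  rw [abs_lt] at h2
  rw [abs_le] at h
  have h3 : (n:ℝ) < 1 := by linarith [h2.1, h2.2, h.1, h.2]
  have h4 : (-1:ℝ) < n := by linarith [h2.1, h2.2, h.1, h.2]
  have h5 : n < 1 := by exact_mod_cast h3
  have h6 : -1 < n := by exact_mod_cast h4
  have h7 : n = 0 := by omega
  have e : FF φ p t₀ t' - FF φ p t₀ t = 2 * (t' - t) := by
    have : BB φ p t' - BB φ p t = 0 := by rw [hn, h7]; simp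
    unfold FF
    linarith
  rw [e, abs_mul, abs_of_pos (by norm_num : (0:ℝ) < 2)]

theorem FF_iter_expand (hφ : IsBottcher c φ) (hp : fq c p = p) (hp0 : p ≠ 0) {t₀ t t' : ℝ}
    (ht₀ : Lands φ p t₀) (ht : Lands φ p t) (ht' : Lands φ p t') (j : ℕ)
    (h : 2 ^ j * |t' - t| ≤ 1) :
    |(FF φ p t₀)^[j] t' - (FF φ p t₀)^[j] t| = 2 ^ j * |t' - t| := by
  induction j with
  | zero => simp
  | succ j ih =>
    have h1 : 2 ^ j * |t' - t| ≤ 1/2 := by
      rw [pow_succ] at h; linarith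
    have h2 := ih (by linarith)
    rw [Function.iterate_succ_apply', Function.iterate_succ_apply',
      FF_expand hφ hp hp0 (FF_iter_lands hφ hp hp0 ht₀ ht j)
      (FF_iter_lands hφ hp hp0 ht₀ ht' j) (by rw [h2]; exact h1), h2]
    ring

/-- (C-c) -/
theorem FF_vv (hφ : IsBottcher c φ) (hp : fq c p = p) (hp0 : p ≠ 0) {t₀ t t' : ℝ}
    (ht₀ : Lands φ p t₀) (ht : Lands φ p t) (ht' : Lands φ p t') {z : ℂ} (hz : z ∈ KJ c)
    (h1 : z ≠ p) (h2 : z ≠ -p) (hc : Eqv φ p (-z) (-p)) :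
    vv φ p (FF φ p t₀ t) (fq c z) - vv φ p (FF φ p t₀ t') (fq c z) =
      vv φ p t z - vv φ p t' z := by
  obtain ⟨n, hn, hn'⟩ := FF_eq hφ hp hp0 ht₀ ht
  obtain ⟨m, hm, hm'⟩ := FF_eq hφ hp hp0 ht₀ ht'
  rw [hn', hm', vv_add_int, vv_add_int, vv_two hφ hp ht hz h1 h2, vv_two hφ hp ht' hz h1 h2]
  have h3 := hc t ht t' ht'
  unfold BB at hn hm
  push_cast
  linarith

/-- (C-a) -/
theorem central_of_block (hφ : IsBottcher c φ) (hp : fq c p = p) (hp0 : p ≠ 0) {z : ℂ}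
    (h : ∀ t, Lands φ p t → ∀ t', Lands φ p t' → BB φ p t = BB φ p t' →
      vv φ p t z = vv φ p t' z) : Eqv φ p z (-p) := by
  intro t ht t' ht'
  obtain ⟨n, hn⟩ := BB_int hφ hp hp0 ht ht'
  have h1 : Lands φ p (t' + n) := (lands_add_int n).mpr ht'
  have h2 := h t ht (t' + n) h1 (by rw [BB_add_int, ← hn]; ring)
  rw [vv_add_int] at h2
  unfold BB at hn
  linarith

/-- monotonicity in a block -/
theorem vv_block_mono (hφ : IsBottcher c φ) (hp : fq c p = p) {t t' : ℝ}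
    (ht : Lands φ p t) (ht' : Lands φ p t') (h : t ≤ t') {z : ℂ} (hz : z ∈ KJ c) (hzp : z ≠ p) :
    vv φ p t z ≤ vv φ p t' z := by
  have h1 := vv_mono hφ hp ht ht' h hz hzp
  have h2 : (0:ℤ) ≤ ⌊t' - t⌋ := Int.floor_nonneg.mpr (by linarith)
  have h3 : (0:ℝ) ≤ ⌊t' - t⌋ := by exact_mod_cast h2
  linarith

theorem exists_jump (hφ : IsBottcher c φ) (hp : fq c p = p) (hp0 : p ≠ 0) {z : ℂ}
    (hz : z ∈ KJ c) (hzp : z ≠ p) (h : ¬ Eqv φ p z (-p)) :
    ∃ t, Lands φ p t ∧ ∃ t', Lands φ p t' ∧ BB φ p t = BB φ p t' ∧ t < t' ∧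
      vv φ p t' z = vv φ p t z + 1 := by
  have h1 : ∃ t, Lands φ p t ∧ ∃ t', Lands φ p t' ∧ BB φ p t = BB φ p t' ∧
      vv φ p t z ≠ vv φ p t' z := by
    by_contra hcon
    push Not at hcon
    exact h (central_of_block hφ hp hp0 fun t ht t' ht' hb => hcon t ht t' ht' hb)
  obtain ⟨t, ht, t', ht', hb, hne⟩ := h1
  have hab := block_abs hφ hp hp0 ht ht' hb
  rcases lt_trichotomy t t' with h1 | h1 | h1
  · refine ⟨t, ht, t', ht', hb, h1, ?_⟩
    rw [abs_sub_comm, abs_of_pos (by linarith)] at hab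
    exact (vv_mono_aux hφ hp ht ht' h1 (by linarith) hz hzp).resolve_left (Ne.symm hne)
  · exact absurd (by rw [h1]) hne
  · refine ⟨t', ht', t, ht, hb.symm, h1, ?_⟩
    rw [abs_of_pos (by linarith)] at hab
    exact (vv_mono_aux hφ hp ht' ht h1 (by linarith) hz hzp).resolve_left hne

/-- (C-b) -/
theorem central_or (hφ : IsBottcher c φ) (hp : fq c p = p) (hp0 : p ≠ 0) {z : ℂ}
    (hz : z ∈ KJ c) (h1 : z ≠ p) (h2 : z ≠ -p) : Eqv φ p z (-p) ∨ Eqv φ p (-z) (-p) := by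
  by_contra hcon
  push Not at hcon
  obtain ⟨hc1, hc2⟩ := hcon
  have hz' : -z ∈ KJ c := neg_mem_KJ.mpr hz
  have hzp' : -z ≠ p := fun h => h2 (by rw [← h, neg_neg])
  obtain ⟨t₁, ht₁, t₂, ht₂, hb12, hlt12, hj12⟩ := exists_jump hφ hp hp0 hz h1 hc1
  obtain ⟨t₃, ht₃, t₄, ht₄, hb34, hlt34, hj34⟩ := exists_jump hφ hp hp0 hz' hzp' hc2
  -- translate t₃, t₄ to the block of t₁
  obtain ⟨n, hn⟩ := BB_int hφ hp hp0 ht₁ ht₃
  set s₃ := t₃ + n with hs₃
  set s₄ := t₄ + n with hs₄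
  have hs3 : Lands φ p s₃ := (lands_add_int n).mpr ht₃
  have hs4 : Lands φ p s₄ := (lands_add_int n).mpr ht₄
  have hB3 : BB φ p s₃ = BB φ p t₁ := by rw [hs₃, BB_add_int, ← hn]; ring
  have hB4 : BB φ p s₄ = BB φ p t₁ := by rw [hs₄, BB_add_int, ← hb34, ← hn]; ring
  have hj' : vv φ p s₄ (-z) = vv φ p s₃ (-z) + 1 := by
    rw [hs₃, hs₄, vv_add_int, vv_add_int, hj34]; ring
  have hlt' : s₃ < s₄ := by rw [hs₃, hs₄]; linarith
  have key : ∀ a b : ℝ, Lands φ p a → Lands φ p b → BB φ p a = BB φ p b → a ≤ t₁ → a ≤ s₃ →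
      t₂ ≤ b → s₄ ≤ b → False := by
    intro a b ha hb hab ha1 ha3 hb2 hb4
    have hlt : a < b := by linarith
    have hshort := block_short hφ hp hp0 ha hb hlt hab
    have hfz : fq c z ∈ KJ c := fq_mem_KJ.mpr hz
    have hfzp : fq c z ≠ p := by
      intro h
      have h3 : (z - p) * (z + p) = 0 := by
        have : fq c z = fq c p := by rw [h, hp]
        simp only [fq] at this
        linear_combination this
      rcases mul_eq_zero.mp h3 with h4 | h4
      · exact h1 (by linear_combination h4)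
      · exact h2 (by linear_combination h4)
    have e1 := vv_two hφ hp ha hz h1 h2
    have e2 := vv_two hφ hp hb hz h1 h2
    have e3 := vv_mono_aux hφ hp (lands_two hφ hp ha) (lands_two hφ hp hb) (by linarith)
      (by linarith) hfz hfzp
    have e4 : vv φ p (2 * b) (fq c z) ≤ vv φ p (2 * a) (fq c z) + 1 := by
      rcases e3 with h | h <;> rw [h]
      linarith
    have f1 := vv_block_mono hφ hp ha ht₁ ha1 hz h1
    have f2 := vv_block_mono hφ hp ht₂ hb hb2 hz h1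
    have f3 := vv_block_mono hφ hp ha hs3 ha3 hz' hzp'
    have f4 := vv_block_mono hφ hp hs4 hb hb4 hz' hzp'
    linarith
  rcases le_total t₁ s₃ with ha | ha <;> rcases le_total t₂ s₄ with hb | hb
  · exact key t₁ s₄ ht₁ hs4 (by rw [hB4]) le_rfl ha hb le_rfl
  · exact key t₁ t₂ ht₁ ht₂ hb12 le_rfl ha le_rfl hb
  · exact key s₃ s₄ hs3 hs4 (by rw [hB3, hB4]) ha le_rfl hb le_rfl
  · exact key s₃ t₂ hs3 ht₂ (by rw [hB3, hb12]) ha le_rfl le_rfl hb

/-- (C-d) -/
theorem central_zero (hφ : IsBottcher c φ) (hp : fq c p = p) (hp0 : p ≠ 0) :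
    Eqv φ p 0 (-p) := by
  have h := central_or hφ hp hp0 (z := 0) (zero_mem_KJ hφ) (Ne.symm hp0)
    (by intro h; exact hp0 (by linear_combination h))
  rw [neg_zero] at h
  exact h.elim id id

/-- no periodic ray lands at `p` -/
def NoPer (φ : ℂ → ℂ) (p : ℂ) : Prop :=
  ∀ t, Lands φ p t → ∀ q : ℕ, 1 ≤ q → ∀ m : ℤ, 2 ^ q * t ≠ t + m

/-- the orbit of `0` -/
noncomputable def zz (c : ℂ) (n : ℕ) : ℂ := (fq c)^[n] 0

theorem zz_succ (c : ℂ) (n : ℕ) : zz c (n+1) = fq c (zz c n) := Function.iterate_succ_apply' _ _ _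

theorem zz_ne_neg (hp : fq c p = p) (hz : ∀ n, zz c n ≠ p) (n : ℕ) : zz c n ≠ -p := by
  intro h
  apply hz (n+1)
  rw [zz_succ, h, fq_neg, hp]

theorem zz_mem (hφ : IsBottcher c φ) (n : ℕ) : zz c n ∈ KJ c :=
  (fq_iter_mem_KJ n).mpr (zero_mem_KJ hφ)

theorem iter_vv (hφ : IsBottcher c φ) (hp : fq c p = p) (hp0 : p ≠ 0)
    (hz : ∀ n, zz c n ≠ p) {t₀ : ℝ} (ht₀ : Lands φ p t₀) (j : ℕ)
    (hcen : ∀ i < j, Eqv φ p (- zz c i) (-p)) {t t' : ℝ} (ht : Lands φ p t)
    (ht' : Lands φ p t') :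
    vv φ p ((FF φ p t₀)^[j] t) (zz c j) - vv φ p ((FF φ p t₀)^[j] t') (zz c j) =
      vv φ p t 0 - vv φ p t' 0 := by
  induction j with
  | zero => simp [zz]
  | succ j ih =>
    rw [Function.iterate_succ_apply', Function.iterate_succ_apply', zz_succ,
      FF_vv hφ hp hp0 ht₀ (FF_iter_lands hφ hp hp0 ht₀ ht j) (FF_iter_lands hφ hp hp0 ht₀ ht' j)
      (zz_mem hφ j) (hz j) (zz_ne_neg hp hz j) (hcen j (by omega))]
    exact ih fun i hi => hcen i (by omega)

/-- (C-e) -/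
theorem not_central (hφ : IsBottcher c φ) (hp : fq c p = p) (hp0 : p ≠ 0)
    (hz : ∀ n, zz c n ≠ p) {t₀ : ℝ} (ht₀ : Lands φ p t₀) (hper : NoPer φ p) (j : ℕ)
    (hj : 1 ≤ j) : ¬ Eqv φ p (zz c j) (-p) := by
  induction j using Nat.strong_induction_on with
  | _ j ih =>
    intro hcj
    have hcen : ∀ i < j, Eqv φ p (- zz c i) (-p) := by
      intro i hi
      rcases Nat.eq_zero_or_pos i with h0 | h0
      · subst h0
        have : -zz c 0 = 0 := by simp [zz]
        rw [this]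
        exact central_zero hφ hp hp0
      · exact (central_or hφ hp hp0 (zz_mem hφ i) (hz i) (zz_ne_neg hp hz i)).resolve_left
          (ih i hi h0)
    set F := FF φ p t₀ with hF
    have hB : ∀ t, Lands φ p t → ∀ t', Lands φ p t' →
        BB φ p (F^[j] t) - BB φ p (F^[j] t') = BB φ p t - BB φ p t' := by
      intro t ht t' ht'
      have e1 := iter_vv hφ hp hp0 hz ht₀ j hcen ht ht'
      have e2 := hcj _ (FF_iter_lands hφ hp hp0 ht₀ ht j) _ (FF_iter_lands hφ hp hp0 ht₀ ht' j)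
      have e3 := central_zero hφ hp hp0 t ht t' ht'
      unfold BB
      rw [hF]
      linarith
    obtain ⟨m, hm⟩ := BB_int hφ hp hp0 (FF_iter_lands hφ hp hp0 ht₀ ht₀ j) ht₀
    let G : ℝ → ℝ := fun t => F^[j] t + ((-m : ℤ) : ℝ)
    have hGl : ∀ t, Lands φ p t → Lands φ p (G t) := fun t ht =>
      (lands_add_int _).mpr (FF_iter_lands hφ hp hp0 ht₀ ht j)
    have hGB : ∀ t, Lands φ p t → BB φ p (G t) = BB φ p t := by
      intro t ht
      have e1 := hB t ht t₀ ht₀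
      show BB φ p (F^[j] t + ((-m : ℤ) : ℝ)) = _
      rw [BB_add_int]
      push_cast
      linarith
    have hGs : ∀ t, Lands φ p t → ∀ t', Lands φ p t' → t < t' → G t < G t' := by
      intro t ht t' ht' hlt
      have := FF_iter_strict hφ hp hp0 ht₀ ht ht' hlt j
      show F^[j] t + _ < F^[j] t' + _
      linarith
    have hTl : ∀ n, Lands φ p (G^[n] t₀) := by
      intro n
      induction n with
      | zero => simpa using ht₀
      | succ n ih2 => rw [Function.iterate_succ_apply']; exact hGl _ ih2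
    have hTB : ∀ n, BB φ p (G^[n] t₀) = BB φ p t₀ := by
      intro n
      induction n with
      | zero => simp
      | succ n ih2 => rw [Function.iterate_succ_apply', hGB _ (hTl n), ih2]
    by_cases hfix : G t₀ = t₀
    · obtain ⟨m', hm'⟩ := FF_iter_int hφ hp hp0 ht₀ ht₀ j
      have h1 : F^[j] t₀ + ((-m : ℤ) : ℝ) = t₀ := hfix
      rw [hF, hm'] at h1
      exact hper t₀ ht₀ j hj (m - m') (by push_cast at h1 ⊢; linarith)
    · refine seq_aux (fun n => G^[n] t₀) (fun n k => ?_) ?_ (1 / 2 ^ j) (by positivity) ?_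
      · exact block_abs hφ hp hp0 (hTl n) (hTl k) (by rw [hTB, hTB])
      · rcases lt_or_gt_of_ne hfix with hlt | hgt
        · right
          intro n
          induction n with
          | zero => simpa using hlt
          | succ n ih2 =>
            have := hGs _ (hTl (n+1)) _ (hTl n) ih2
            rwa [← Function.iterate_succ_apply' G, ← Function.iterate_succ_apply' G] at this
        · left
          intro n
          induction n with
          | zero => simpa using hgt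
          | succ n ih2 =>
            have := hGs _ (hTl n) _ (hTl (n+1)) ih2
            rwa [← Function.iterate_succ_apply' G, ← Function.iterate_succ_apply' G] at this
      · intro n hn
        have hn' : 2 ^ j * |G^[n+1] t₀ - G^[n] t₀| ≤ 1 := by
          have : 0 < (2:ℝ) ^ j := by positivity
          rw [lt_div_iff₀ this] at hn
          linarith
        have e1 := FF_iter_expand hφ hp hp0 ht₀ (hTl n) (hTl (n+1)) j hn'
        have e2 : G^[n+2] t₀ - G^[n+1] t₀ = F^[j] (G^[n+1] t₀) - F^[j] (G^[n] t₀) := by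
          rw [Function.iterate_succ_apply' G (n+1) t₀]
          conv_lhs => rw [Function.iterate_succ_apply' G n t₀]
          show (F^[j] (G (G^[n] t₀)) + _) - (F^[j] (G^[n] t₀) + _) = _
          rw [Function.iterate_succ_apply' G n t₀]
          ring
        show |G^[n+1] t₀ - G^[n] t₀| ≤ |G^[n+2] t₀ - G^[n+1] t₀|
        rw [e2, e1]
        have h1 : (1:ℝ) ≤ 2 ^ j := one_le_pow₀ (by norm_num)
        have h2 := abs_nonneg (G^[n+1] t₀ - G^[n] t₀)
        nlinarith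

theorem central_neg_zz (hφ : IsBottcher c φ) (hp : fq c p = p) (hp0 : p ≠ 0)
    (hz : ∀ n, zz c n ≠ p) {t₀ : ℝ} (ht₀ : Lands φ p t₀) (hper : NoPer φ p) (i : ℕ) :
    Eqv φ p (- zz c i) (-p) := by
  rcases Nat.eq_zero_or_pos i with h0 | h0
  · subst h0
    have : -zz c 0 = 0 := by simp [zz]
    rw [this]
    exact central_zero hφ hp hp0
  · exact (central_or hφ hp hp0 (zz_mem hφ i) (hz i) (zz_ne_neg hp hz i)).resolve_left
      (not_central hφ hp hp0 hz ht₀ hper i h0)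

/-- (C-f) -/
theorem not_eqv (hφ : IsBottcher c φ) (hp : fq c p = p) (hp0 : p ≠ 0)
    (hz : ∀ n, zz c n ≠ p) {t₀ : ℝ} (ht₀ : Lands φ p t₀) (hper : NoPer φ p) (i k : ℕ)
    (hk : 1 ≤ k) : ¬ Eqv φ p (zz c i) (zz c (i + k)) := by
  induction i with
  | zero =>
    intro h
    rw [zero_add] at h
    apply not_central hφ hp hp0 hz ht₀ hper k hk
    intro t ht t' ht'
    rw [← h t ht t' ht']
    have : zz c 0 = 0 := rfl
    rw [this]
    exact central_zero hφ hp hp0 t ht t' ht'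
  | succ i ih =>
    intro h
    apply ih
    intro t ht t' ht'
    have e1 := FF_vv hφ hp hp0 ht₀ ht ht' (zz_mem hφ i) (hz i) (zz_ne_neg hp hz i)
      (central_neg_zz hφ hp hp0 hz ht₀ hper i)
    have e2 := FF_vv hφ hp hp0 ht₀ ht ht' (zz_mem hφ (i+k)) (hz (i+k)) (zz_ne_neg hp hz (i+k))
      (central_neg_zz hφ hp hp0 hz ht₀ hper (i+k))
    rw [← zz_succ] at e1 e2
    have e3 := h _ (FF_lands hφ hp hp0 ht₀ ht) _ (FF_lands hφ hp hp0 ht₀ ht')
    rw [show i + 1 + k = i + k + 1 by ring] at e3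
    rw [← e1, ← e2, e3]

/-- connected subsets of `K ∖ {p}` lie in one class -/
theorem eqv_of_connected (hφ : IsBottcher c φ) {S : Set ℂ} (hS : IsPreconnected S)
    (hSK : S ⊆ KJ c \ {p}) {z z' : ℂ} (hz : z ∈ S) (hz' : z' ∈ S) : Eqv φ p z z' := by
  intro t ht t' ht'
  exact vv_sub_const hφ ht ht' hS (fun x hx => KJ_subset_ZZ hφ (hSK hx).1 (hSK hx).2)
    (fun x hx => KJ_subset_ZZ hφ (hSK hx).1 (hSK hx).2) hz hz'

end Pool.Agent.H712R2.Cremer
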