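import Pool.Agent.H712R2.ManePar

set_option autoImplicit false

open Complex Set Topology Filter Metric

namespace Pool.Agent.H712R2.Cremer

open Pool.Agent.H712R2.M

variable {c : ℂ}

theorem isOpen_image_of_inj {Z : ℂ → ℂ} (hZ : DifferentiableOn ℂ Z (ball 0 1))
    (hi : InjOn Z (ball 0 1)) {s : Set ℂ} (hs : s ⊆ ball 0 1) (hso : IsOpen s) :
    IsOpen (Z '' s) := by
  have hA : AnalyticOnNhd ℂ Z (ball 0 1) := hZ.analyticOnNhd isOpen_ball
  rcases hA.is_constant_or_isOpen (convex_ball (0:ℂ) 1).isPreconnected with ⟨w, hw⟩ | h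
  · exfalso
    have h0 : (0:ℂ) ∈ ball (0:ℂ) 1 := mem_ball_self one_pos
    have h1 : (1/2:ℂ) ∈ ball (0:ℂ) 1 := by rw [mem_ball_zero_iff]; norm_num
    have := hi h0 h1 (by rw [hw _ h0, hw _ h1])
    norm_num at this
  · exact h s hs hso

/-- F7: a piece is small, or a disc of definite size is contained in the big component. -/
theorem piece_dist (M s : ℝ) (hM : 0 < M) (hs : 0 < s) : ∃ ρ > 0, ∀ (n : ℕ) (q y : ℂ) (R : ℝ)
    (Z b : ℂ → ℂ), 0 < R → (fq c)^[n] y = q → IsB b → Par (CC c n (ball q R) y) y Z →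
    (∀ η ∈ ball (0:ℂ) 1, (fq c)^[n] (Z η) = q + R * b η) →
    CC c n (ball q R) y ⊆ closedBall 0 M →
    ∀ v ∈ CC c n (ball q (R/512)) y, ∀ v' ∈ CC c n (ball q (R/512)) y, s ≤ ‖v - v'‖ →
    ball v ρ ⊆ CC c n (ball q R) y := by
  obtain ⟨ρ, hρ, hdist⟩ := distortion M s hM hs
  refine ⟨ρ, hρ, ?_⟩
  intro n q y R Z b hR hy hb hZ hZb hsub v hv v' hv' hvv
  obtain ⟨hZd, hZi, hZ0, hZim⟩ := hZ
  obtain ⟨r, hr, hr4, hlow⟩ := hb.lower
  have hyq : (fq c)^[n] y ∈ ball q (R/512) := by rw [hy]; exact mem_ball_self (by positivity)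
  set V' := CC c n (ball q (R/512)) y with hV'
  have hV'V : V' ⊆ CC c n (ball q R) y := CC_mono hyq (ball_subset_ball (by linarith))
  have hr1 : ball (0:ℂ) r ⊆ ball 0 1 := ball_subset_ball (by linarith)
  have hsubU : V' ⊆ Z '' ball 0 r := by
    refine isPreconnected_CC.subset_left_of_subset_union
      (isOpen_image_of_inj hZd hZi hr1 isOpen_ball)
      (isOpen_image_of_inj hZd hZi (s := ball 0 1 ∩ (closedBall 0 r)ᶜ) inter_subset_left
        (isOpen_ball.inter isClosed_closedBall.isOpen_compl)) ?_ ?_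
      ⟨y, mem_CC hyq, 0, mem_ball_self hr, hZ0⟩
    · rw [Set.disjoint_left]
      rintro _ ⟨η, hη, rfl⟩ ⟨η', ⟨hη1, hη2⟩, h⟩
      have := hZi hη1 (hr1 hη) h
      rw [this] at hη2
      exact hη2 (ball_subset_closedBall hη)
    · intro x hx
      have hx2 := hV'V hx
      rw [← hZim] at hx2
      obtain ⟨η, hη, rfl⟩ := hx2
      rcases lt_trichotomy ‖η‖ r with h | h | h
      · left; exact ⟨η, by rw [mem_ball_zero_iff]; exact h, rfl⟩
      · exfalso
        have h1 := CC_subset hx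
        rw [mem_preimage, hZb η hη, mem_ball, dist_eq_norm, add_sub_cancel_left, norm_mul,
          Complex.norm_real, Real.norm_eq_abs, abs_of_pos hR] at h1
        have h2 := hlow η h
        nlinarith
      · right
        refine ⟨η, ⟨hη, ?_⟩, rfl⟩
        simp only [mem_compl_iff, mem_closedBall_zero_iff, not_le]
        exact h
  obtain ⟨η₀, hη₀, rfl⟩ := hsubU hv
  obtain ⟨η₁, hη₁, rfl⟩ := hsubU hv'
  rw [mem_ball_zero_iff] at hη₀ hη₁
  rw [← hZim]
  refine hdist Z hZd hZi (fun η hη => ?_) η₀ η₁ (by linarith) (by linarith) ?_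
  · have : Z η ∈ CC c n (ball q R) y := by rw [← hZim]; exact ⟨η, hη, rfl⟩
    simpa using hsub this
  · rw [norm_sub_rev]; exact hvv

/-- F3 iterated -/
theorem small_fixed (n : ℕ) : ∀ ε > 0, ∃ r₀ > 0, ∀ (x : ℂ) (r : ℝ) (y : ℂ), 0 < r → r ≤ r₀ →
    (fq c)^[n] y ∈ ball x r → ∀ a ∈ CC c n (ball x r) y, ∀ b ∈ CC c n (ball x r) y,
    ‖a - b‖ < ε := by
  induction n with
  | zero =>
    intro ε hε
    refine ⟨ε / 2, by positivity, fun x r y hr hrr hy a ha b hb => ?_⟩
    have h1 : a ∈ ball x r := by simpa using CC_subset ha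
    have h2 : b ∈ ball x r := by simpa using CC_subset hb
    have h3 : dist a b < r + r := by
      calc dist a b ≤ dist a x + dist b x := dist_triangle_right _ _ _
        _ < r + r := add_lt_add h1 h2
    rw [← dist_eq_norm]
    linarith
  | succ n ih =>
    intro ε hε
    obtain ⟨r₀, hr₀, h⟩ := ih ((ε/4)^2) (by positivity)
    refine ⟨r₀, hr₀, fun x r y hr hrr hy => ?_⟩
    have hy' : (fq c)^[n] (fq c y) ∈ ball x r := by rw [← Function.iterate_succ_apply]; exact hy
    have h1 := h x r (fq c y) hr hrr hy'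
    intro a ha b hb
    have h2 := small_of_image_small (c := c) (Q := CC c (n+1) (ball x r) y) isPreconnected_CC
      (η := (ε/4)^2) (by positivity) (fun a ha b hb => (h1 _ (fq_CC hy ⟨a, ha, rfl⟩) _
        (fq_CC hy ⟨b, hb, rfl⟩)).le) a ha b hb
    rw [Real.sqrt_sq (by positivity)] at h2
    linarith

theorem small_fixed' (N : ℕ) : ∀ ε > 0, ∃ r₀ > 0, ∀ n < N, ∀ (x : ℂ) (r : ℝ) (y : ℂ), 0 < r →
    r ≤ r₀ → (fq c)^[n] y ∈ ball x r → ∀ a ∈ CC c n (ball x r) y, ∀ b ∈ CC c n (ball x r) y,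
    ‖a - b‖ < ε := by
  intro ε hε
  induction N with
  | zero => exact ⟨1, one_pos, fun n hn => by omega⟩
  | succ N ih =>
    obtain ⟨r₁, hr₁, h1⟩ := ih
    obtain ⟨r₂, hr₂, h2⟩ := small_fixed (c := c) N ε hε
    refine ⟨min r₁ r₂, by positivity, fun n hn x r y hr hrr => ?_⟩
    rcases Nat.lt_succ_iff_lt_or_eq.mp hn with h | h
    · exact h1 n h x r y hr (hrr.trans (min_le_left _ _))
    · subst h
      exact h2 x r y hr (hrr.trans (min_le_right _ _))

/-- preimages of discs near `J` are uniformly bounded -/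
theorem preimage_bounded {n : ℕ} {z : ℂ} {s : ℝ} (hs : 0 ≤ s) (h : ‖(fq c)^[n] z‖ < RR c + s) :
    ‖z‖ < RR c + s := by
  by_contra hcon
  push Not at hcon
  have h1 := escape_iter hs hcon n
  have h2 : (1:ℝ) ≤ 2 ^ n := one_le_pow₀ (by norm_num)
  nlinarith

/-- a finite set of centres -/
theorem exists_net : ∃ T : Finset ℂ, (∀ a ∈ T, ‖a‖ < 1) ∧
    ∀ z : ℂ, ‖z‖ < 1 → ∃ a ∈ T, ‖z - a‖ < 1/2048 := by
  have hc : TotallyBounded (ball (0:ℂ) 1) :=
    (isCompact_closedBall (0:ℂ) 1).totallyBounded.subset ball_subset_closedBall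
  obtain ⟨t, htsub, htfin, hcov⟩ :=
    Metric.finite_approx_of_totallyBounded hc (1/2048) (by norm_num)
  refine ⟨htfin.toFinset, ?_, ?_⟩
  · intro a ha
    have := htsub (htfin.mem_toFinset.mp ha)
    simpa using this
  · intro z hz
    have h1 : z ∈ ball (0:ℂ) 1 := by simpa using hz
    obtain ⟨a, ha, hza⟩ := mem_iUnion₂.mp (hcov h1)
    exact ⟨a, htfin.mem_toFinset.mpr ha, by rwa [mem_ball, dist_eq_norm] at hza⟩

/-- the thresholds -/
theorem exists_thresholds (ρ : ℝ → ℝ) (hρ : ∀ s > 0, 0 < ρ s) {τ : ℝ} (hτ : 0 < τ) :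
    ∃ σ : ℕ → ℝ, σ 0 = τ ∧ (∀ k, 0 < σ k) ∧ (∀ k, σ (k+1) ≤ σ k / 2) ∧
      ∀ k, σ (k+1) ≤ ρ (σ k / 2) / 4 := by
  let σ : ℕ → ℝ := fun k => Nat.rec τ (fun _ s => min (s / 2) (ρ (s / 2) / 4)) k
  have h1 : ∀ k, σ (k+1) = min (σ k / 2) (ρ (σ k / 2) / 4) := fun k => rfl
  have hpos : ∀ k, 0 < σ k := by
    intro k
    induction k with
    | zero => exact hτ
    | succ k ih =>
      rw [h1]
      have := hρ (σ k / 2) (by positivity)
      positivity
  exact ⟨σ, rfl, hpos, fun k => by rw [h1]; exact min_le_left _ _,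
    fun k => by rw [h1]; exact min_le_right _ _⟩

/-- **Claim M**: pullbacks of small discs meeting `J` are uniformly small. -/
theorem claimM {δ₀ : ℝ} (hδ₀ : 0 < δ₀) (hNR : NonRec c δ₀) (hJne : (JJ c).Nonempty) :
    ∀ ε > 0, ∃ r₀ > 0, ∀ (n : ℕ) (x : ℂ) (r : ℝ) (y : ℂ), 0 < r → r ≤ r₀ →
      (ball x r ∩ JJ c).Nonempty → (fq c)^[n] y ∈ ball x r →
      ∀ a ∈ CC c n (ball x r) y, ∀ b ∈ CC c n (ball x r) y, ‖a - b‖ < ε := by
  intro ε' hε'
  set ε := min ε' δ₀ with hε
  have hεpos : 0 < ε := by positivity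
  have hεδ : ε ≤ δ₀ := min_le_right _ _
  set M := RR c + 3 with hM
  have hRR : 0 < RR c := by unfold RR; positivity
  have hMpos : 0 < M := by positivity
  -- distortion function
  have hdist := fun s (hs : 0 < s) => piece_dist (c := c) M s hMpos hs
  choose! ρ hρpos hρ using hdist
  obtain ⟨T, hT1, hT2⟩ := exists_net
  set m := 2 * T.card with hm
  obtain ⟨σ, hσ0, hσpos, hσhalf, hσρ⟩ := exists_thresholds ρ hρpos (τ := ε / 2) (by positivity)
  have hσanti : ∀ i j, i ≤ j → σ j ≤ σ i := by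
    intro i j hij
    induction j, hij using Nat.le_induction with
    | base => exact le_rfl
    | succ j _ ih => have := hσhalf j; have := hσpos j; linarith
  obtain ⟨N, hN⟩ := claimU (c := c) hJne (hσpos m) M
  obtain ⟨r₁, hr₁, hsmall⟩ := small_fixed' (c := c) N ε hεpos
  refine ⟨min r₁ 1, by positivity, ?_⟩
  suffices H : ∀ (n : ℕ) (x : ℂ) (r : ℝ) (y : ℂ), 0 < r → r ≤ min r₁ 1 →
      (ball x r ∩ JJ c).Nonempty → (fq c)^[n] y ∈ ball x r →
      ∀ a ∈ CC c n (ball x r) y, ∀ b ∈ CC c n (ball x r) y, ‖a - b‖ < ε by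
    intro n x r y h1 h2 h3 h4 a ha b hb
    exact lt_of_lt_of_le (H n x r y h1 h2 h3 h4 a ha b hb) (min_le_left _ _)
  intro n
  induction n using Nat.strong_induction_on with
  | _ n ih =>
    intro x r y hr hrr hmeet hy a ha b hb
    have hrr1 : r ≤ r₁ := hrr.trans (min_le_left _ _)
    have hr1 : r ≤ 1 := hrr.trans (min_le_right _ _)
    rcases lt_or_ge n N with hnN | hnN
    · exact hsmall n hnN x r y hr hrr1 hy a ha b hb
    by_contra hcon
    push Not at hcon
    set V := CC c n (ball x r) y with hV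
    -- boundedness of discs
    obtain ⟨xJ, hxJb, hxJ⟩ := hmeet
    have hxn : ‖x‖ < RR c + r := by
      have h1 := norm_le_of_mem_KJ (JJ_subset c hxJ)
      rw [mem_ball, dist_eq_norm] at hxJb
      have h2 : ‖x‖ ≤ ‖xJ‖ + ‖xJ - x‖ := by
        calc ‖x‖ = ‖xJ - (xJ - x)‖ := by congr 1; ring
          _ ≤ _ := norm_sub_le _ _
      linarith
    have hbd : ∀ v, (fq c)^[n] v ∈ ball x r → ball ((fq c)^[n] v) (r/2) ⊆ ball 0 M := by
      intro v hv w hw
      rw [mem_ball, dist_eq_norm] at hv hw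
      rw [mem_ball_zero_iff]
      calc ‖w‖ = ‖(w - (fq c)^[n] v) + (((fq c)^[n] v - x) + x)‖ := by congr 1; ring
        _ ≤ ‖w - (fq c)^[n] v‖ + (‖(fq c)^[n] v - x‖ + ‖x‖) :=
          (norm_add_le _ _).trans (by gcongr; exact norm_add_le _ _)
        _ < M := by rw [hM]; linarith
    -- one pass for all discs of radius r/2 centred at images
    have hpassv : ∀ v ∈ V, ∀ i j, 1 ≤ i → i < j → j ≤ n →
        c ∈ CC c (n - i) (ball ((fq c)^[n] v) (r/2)) ((fq c)^[i] v) →
        c ∉ CC c (n - j) (ball ((fq c)^[n] v) (r/2)) ((fq c)^[j] v) := by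
      intro v hv
      have hr2 : 0 < r / 2 := by positivity
      refine pass_lemma hNR (mem_ball_self hr2) ?_
      intro j h1 h2 h3 a ha b hb
      obtain ⟨z, hz1, hz2⟩ := h3
      have hm : (ball ((fq c)^[n] v) (r/2) ∩ JJ c).Nonempty := by
        refine ⟨(fq c)^[n - j] z, CC_subset hz1, ?_⟩
        rwa [fq_iter_mem_JJ]
      have hvj : (fq c)^[n - j] ((fq c)^[j] v) ∈ ball ((fq c)^[n] v) (r/2) := by
        rw [← Function.iterate_add_apply, Nat.sub_add_cancel h2]
        exact mem_ball_self hr2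
      exact lt_of_lt_of_le (ih (n - j) (by omega) _ _ _ hr2 (by linarith) hm hvj a ha b hb) hεδ
    -- a point y₀ of J in V
    have hsurj := surj_CC (c := c) (n := n) isOpen_ball (convex_ball x r).isPreconnected hy
    obtain ⟨y₀, hy₀V, hy₀x⟩ : ∃ y₀ ∈ V, (fq c)^[n] y₀ = xJ := by
      have : xJ ∈ (fq c)^[n] '' CC c n (ball x r) y := by rw [hsurj]; exact hxJb
      obtain ⟨y₀, h1, h2⟩ := this
      exact ⟨y₀, h1, h2⟩
    have hy₀J : y₀ ∈ JJ c := by rw [← fq_iter_mem_JJ n, hy₀x]; exact hxJ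
    -- a point over the centre
    obtain ⟨yc, hycV, hycx⟩ : ∃ yc ∈ V, (fq c)^[n] yc = x := by
      have : x ∈ (fq c)^[n] '' CC c n (ball x r) y := by rw [hsurj]; exact mem_ball_self hr
      obtain ⟨yc, h1, h2⟩ := this
      exact ⟨yc, h1, h2⟩
    have hVyc : CC c n (ball x r) yc = V := CC_eq_of_mem hycV
    -- parametrisation of V
    obtain ⟨Z, β, hβ, hZ, hZβ⟩ := par_one (c := c) hr n yc hycx (by
      refine pass_lemma hNR (by rw [hycx]; exact mem_ball_self hr) ?_
      intro j h1 h2 h3 a ha b hb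
      have hvj : (fq c)^[n - j] ((fq c)^[j] yc) ∈ ball x r := by
        rw [← Function.iterate_add_apply, Nat.sub_add_cancel h2, hycx]
        exact mem_ball_self hr
      exact lt_of_lt_of_le (ih (n - j) (by omega) x r _ hr hrr ⟨xJ, hxJb, hxJ⟩ hvj a ha b hb) hεδ)
    rw [hVyc] at hZ
    -- at most two preimages in V
    have htwo : ∀ w₁ ∈ V, ∀ w₂ ∈ V, ∀ w₃ ∈ V, (fq c)^[n] w₁ = (fq c)^[n] w₂ →
        (fq c)^[n] w₁ = (fq c)^[n] w₃ → w₁ = w₂ ∨ w₁ = w₃ ∨ w₂ = w₃ := by
      intro w₁ hw₁ w₂ hw₂ w₃ hw₃ e12 e13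
      rw [← hZ.2.2.2] at hw₁ hw₂ hw₃
      obtain ⟨η₁, h1, rfl⟩ := hw₁
      obtain ⟨η₂, h2, rfl⟩ := hw₂
      obtain ⟨η₃, h3, rfl⟩ := hw₃
      rw [hZβ _ h1, hZβ _ h2] at e12
      rw [hZβ _ h1, hZβ _ h3] at e13
      have hr' : (r:ℂ) ≠ 0 := by exact_mod_cast hr.ne'
      have f12 : β η₁ = β η₂ := mul_left_cancel₀ hr' (add_left_cancel e12)
      have f13 : β η₁ = β η₃ := mul_left_cancel₀ hr' (add_left_cancel e13)
      rw [mem_ball_zero_iff] at h1 h2 h3
      rcases hβ.two h1 h2 h3 rfl f12.symm f13.symm with h | h | h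
      · left; rw [h]
      · right; left; rw [h]
      · right; right; rw [h]
    -- points at prescribed distances
    have hfar : ∃ w ∈ V, ε / 2 ≤ ‖w - y₀‖ := by
      by_contra h
      push Not at h
      have h1 := h a ha
      have h2 := h b hb
      have : ‖a - b‖ ≤ ‖a - y₀‖ + ‖b - y₀‖ := by
        calc ‖a - b‖ = ‖(a - y₀) - (b - y₀)‖ := by congr 1; ring
          _ ≤ _ := norm_sub_le _ _
      linarith
    obtain ⟨w, hw, hwd⟩ := hfar
    have hivt : ∀ k, ∃ v ∈ V, ‖v - y₀‖ = σ k := by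
      intro k
      have h1 : IsPreconnected V := isPreconnected_CC
      have h2 := h1.intermediate_value hy₀V hw (f := fun v => ‖v - y₀‖) (by fun_prop)
      have h3 : σ k ∈ Icc ((fun v => ‖v - y₀‖) y₀) ((fun v => ‖v - y₀‖) w) := by
        constructor
        · simp only [sub_self, norm_zero]; exact (hσpos k).le
        · exact ((hσanti 0 k (Nat.zero_le _)).trans (by rw [hσ0])).trans hwd
      obtain ⟨v, hv, hvk⟩ := h2 h3
      exact ⟨v, hv, hvk⟩
    choose v hvV hvd using hivt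
    -- colours
    have hcol : ∀ k, ∃ t ∈ T, ‖(fq c)^[n] (v k) - (x + r * t)‖ < r / 2048 := by
      intro k
      have h1 : (fq c)^[n] (v k) ∈ ball x r := CC_subset (hvV k)
      rw [mem_ball, dist_eq_norm] at h1
      have hr' : (r:ℂ) ≠ 0 := by exact_mod_cast hr.ne'
      obtain ⟨t, ht, htd⟩ := hT2 (((fq c)^[n] (v k) - x) / r) (by
        rw [norm_div, Complex.norm_real, Real.norm_eq_abs, abs_of_pos hr, div_lt_one hr]
        exact h1)
      refine ⟨t, ht, ?_⟩
      have e1 : (fq c)^[n] (v k) - (x + r * t) = r * (((fq c)^[n] (v k) - x) / r - t) := by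
        field_simp
        ring
      rw [e1, norm_mul, Complex.norm_real, Real.norm_eq_abs, abs_of_pos hr]
      nlinarith
    choose col hcolT hcold using hcol
    -- pigeonhole
    have hpig : ∃ k l, k < l ∧ l ≤ m ∧ v l ∈ CC c n (ball ((fq c)^[n] (v l)) (r/2/512)) (v l) ∧
        v k ∈ CC c n (ball ((fq c)^[n] (v l)) (r/2/512)) (v l) := by
      obtain ⟨t, htT, ht3⟩ := Finset.exists_lt_card_fiber_of_mul_lt_card_of_maps_to
        (s := Finset.range (m+1)) (t := T) (f := col) (n := 2) (fun k _ => hcolT k)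
        (by rw [Finset.card_range, hm]; omega)
      rw [Finset.two_lt_card] at ht3
      obtain ⟨k₁, hk₁, k₂, hk₂, k₃, hk₃, n12, n13, n23⟩ := ht3
      simp only [Finset.mem_filter, Finset.mem_range] at hk₁ hk₂ hk₃
      -- the small convex set
      set B := ball (x + r * t) (r/2048) ∩ ball x r with hB
      have hBo : IsOpen B := isOpen_ball.inter isOpen_ball
      have hBc : IsPreconnected B :=
        ((convex_ball _ _).inter (convex_ball _ _)).isPreconnected
      have hcent : x + r * t ∈ B := by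
        refine ⟨mem_ball_self (by positivity), ?_⟩
        rw [mem_ball, dist_eq_norm, add_sub_cancel_left, norm_mul, Complex.norm_real,
          Real.norm_eq_abs, abs_of_pos hr]
        have := hT1 t htT
        nlinarith
      have hvB : ∀ k, col k = t → (fq c)^[n] (v k) ∈ B := by
        intro k hk
        refine ⟨?_, CC_subset (hvV k)⟩
        rw [mem_ball, dist_eq_norm, ← hk]
        exact hcold k
      have hWV : ∀ k, col k = t → CC c n B (v k) ⊆ V := by
        intro k hk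
        rw [hV, ← CC_eq_of_mem (hvV k)]
        exact CC_mono (hvB k hk) inter_subset_right
      have hW : ∀ k, col k = t → ∃ w ∈ CC c n B (v k), (fq c)^[n] w = x + r * t := by
        intro k hk
        have h1 := surj_CC (c := c) (n := n) hBo hBc (hvB k hk)
        have h2 : x + r * t ∈ (fq c)^[n] '' CC c n B (v k) := by rw [h1]; exact hcent
        obtain ⟨w, h3, h4⟩ := h2
        exact ⟨w, h3, h4⟩
      obtain ⟨w₁, hw₁, e₁⟩ := hW k₁ hk₁.2
      obtain ⟨w₂, hw₂, e₂⟩ := hW k₂ hk₂.2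
      obtain ⟨w₃, hw₃, e₃⟩ := hW k₃ hk₃.2
      -- conclude for a pair
      have hpair : ∀ k l w, k < m + 1 → l < m + 1 → k ≠ l → col k = t → col l = t →
          w ∈ CC c n B (v k) → w ∈ CC c n B (v l) →
          ∃ k l, k < l ∧ l ≤ m ∧ v l ∈ CC c n (ball ((fq c)^[n] (v l)) (r/2/512)) (v l) ∧
            v k ∈ CC c n (ball ((fq c)^[n] (v l)) (r/2/512)) (v l) := by
        have aux : ∀ k l w, k < l → l < m + 1 → col k = t → col l = t →
            w ∈ CC c n B (v k) → w ∈ CC c n B (v l) →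
            ∃ k l, k < l ∧ l ≤ m ∧ v l ∈ CC c n (ball ((fq c)^[n] (v l)) (r/2/512)) (v l) ∧
              v k ∈ CC c n (ball ((fq c)^[n] (v l)) (r/2/512)) (v l) := by
          intro k l w hkl hl hkt hlt hwk hwl
          refine ⟨k, l, hkl, by omega, mem_CC (mem_ball_self (by positivity)), ?_⟩
          have e : CC c n B (v k) = CC c n B (v l) := by
            rw [← CC_eq_of_mem hwk, ← CC_eq_of_mem hwl]
          have h1 : v k ∈ CC c n B (v l) := by rw [← e]; exact mem_CC (hvB k hkt)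
          refine CC_mono (hvB l hlt) ?_ h1
          intro z hz
          have h2 := hz.1
          have h3 := (hvB l hlt).1
          rw [mem_ball] at h2 h3 ⊢
          calc dist z ((fq c)^[n] (v l)) ≤ dist z (x + r * t) + dist ((fq c)^[n] (v l)) (x + r * t) :=
                dist_triangle_right _ _ _
            _ < r/2048 + r/2048 := add_lt_add h2 h3
            _ = r/2/512 := by ring
        intro k l w hk hl hkl hkt hlt hwk hwl
        rcases lt_or_gt_of_ne hkl with h | h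
        · exact aux k l w h hl hkt hlt hwk hwl
        · exact aux l k w h hk hlt hkt hwl hwk
      rcases htwo w₁ (hWV k₁ hk₁.2 hw₁) w₂ (hWV k₂ hk₂.2 hw₂) w₃ (hWV k₃ hk₃.2 hw₃)
        (by rw [e₁, e₂]) (by rw [e₁, e₃]) with h | h | h
      · exact hpair k₁ k₂ w₁ hk₁.1 hk₂.1 n12 hk₁.2 hk₂.2 hw₁ (by rw [h]; exact hw₂)
      · exact hpair k₁ k₃ w₁ hk₁.1 hk₃.1 n13 hk₁.2 hk₃.2 hw₁ (by rw [h]; exact hw₃)
      · exact hpair k₂ k₃ w₂ hk₂.1 hk₃.1 n23 hk₂.2 hk₃.2 hw₂ (by rw [h]; exact hw₃)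
    obtain ⟨k, l, hkl, hlm, hvl, hvk⟩ := hpig
    obtain ⟨j, rfl⟩ : ∃ j, l = j + 1 := ⟨l - 1, by omega⟩
    -- parametrisation of the big component at v l
    have hr2 : 0 < r / 2 := by positivity
    obtain ⟨Z', b', hb', hZ', hZb'⟩ := par_one (c := c) hr2 n (v (j+1)) rfl
      (hpassv (v (j+1)) (hvV (j+1)))
    have hsubM : CC c n (ball ((fq c)^[n] (v (j+1))) (r/2)) (v (j+1)) ⊆ closedBall 0 M := by
      intro z hz
      have h1 := hbd (v (j+1)) (CC_subset (hvV (j+1))) (CC_subset hz)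
      rw [mem_ball_zero_iff] at h1
      rw [mem_closedBall_zero_iff]
      exact (preimage_bounded (by norm_num) h1).le
    have hsep : σ j / 2 ≤ ‖v (j+1) - v k‖ := by
      have h1 : ‖v k - y₀‖ ≤ ‖v (j+1) - v k‖ + ‖v (j+1) - y₀‖ := by
        calc ‖v k - y₀‖ = ‖(v (j+1) - y₀) - (v (j+1) - v k)‖ := by congr 1; ring
          _ ≤ ‖v (j+1) - y₀‖ + ‖v (j+1) - v k‖ := norm_sub_le _ _
          _ = _ := by ring
      rw [hvd k, hvd (j+1)] at h1
      have h2 := hσanti k j (by omega)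
      have h3 := hσhalf j
      linarith
    have hball := hρ (σ j / 2) (by have := hσpos j; positivity) n _ (v (j+1)) (r/2) Z' b' hr2 rfl
      hb' hZ' hZb' hsubM (v (j+1)) hvl (v k) hvk hsep
    -- contradiction with claim U
    apply hN n hnN y₀ hy₀J
    rintro _ ⟨z, hz, rfl⟩
    have hz2 : z ∈ ball (v (j+1)) (ρ (σ j / 2)) := by
      rw [mem_ball, dist_eq_norm] at hz ⊢
      calc ‖z - v (j+1)‖ = ‖(z - y₀) - (v (j+1) - y₀)‖ := by congr 1; ring
        _ ≤ ‖z - y₀‖ + ‖v (j+1) - y₀‖ := norm_sub_le _ _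
        _ < ρ (σ j / 2) := by
          rw [hvd (j+1)]
          have h1 := hσρ j
          have h2 := hσanti (j+1) m hlm
          have h3 := hρpos (σ j / 2) (by have := hσpos j; positivity)
          linarith
    have h1 := CC_subset (hball hz2)
    exact ball_subset_closedBall (hbd (v (j+1)) (CC_subset (hvV (j+1))) h1)

/-- **Mañé type theorem** for the indifferent fixed point. -/
theorem not_nonRec {p : ℂ} (hp : fq c p = p) (hpn : ‖2 * p‖ = 1) (hpJ : p ∈ JJ c) :
    ∀ δ₀ > 0, ¬ NonRec c δ₀ := by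
  intro δ₀ hδ₀ hNR
  obtain ⟨r₀, hr₀, h⟩ := claimM hδ₀ hNR ⟨p, hpJ⟩ (1/8) (by norm_num)
  have hpD : ∀ n, (fq c)^[n] p ∈ ball p r₀ := by
    intro n
    rw [Function.iterate_fixed hp]; exact mem_ball_self hr₀
  have hsmall : ∀ n, CC c n (ball p r₀) p ⊆ ball p (1/8) := by
    intro n z hz
    have := h n p r₀ p hr₀ le_rfl ⟨p, mem_ball_self hr₀, hpJ⟩ (hpD n) z hz p (mem_CC (hpD n))
    rwa [mem_ball, dist_eq_norm]
  have hcp : ‖c - p‖ = 1/4 := by
    have h1 : c - p = -(p ^ 2) := by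
      unfold fq at hp
      linear_combination hp
    rw [h1, norm_neg, norm_pow]
    rw [norm_mul] at hpn
    have h2 : ‖(2:ℂ)‖ = 2 := by simp
    rw [h2] at hpn
    have h3 : ‖p‖ = 1/2 := by linarith
    rw [h3]; norm_num
  have hcV : ∀ n, c ∉ CC c n (ball p r₀) p := by
    intro n hcn
    have := hsmall n hcn
    rw [mem_ball, dist_eq_norm, hcp] at this
    norm_num at this
  obtain ⟨δ, hδ, hcov⟩ := cover_ball hr₀ (M := 1/8) (by norm_num)
  have hcov2 : ∀ n, ball p δ ⊆ CC c n (ball p r₀) p := by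
    intro n
    obtain ⟨Z, hZ, hZ2⟩ := par_none (c := c) hr₀ n p (Function.iterate_fixed hp n)
      (fun j _ _ => by rw [Function.iterate_fixed hp]; exact hcV _)
    obtain ⟨hZd, hZi, hZ0, hZim⟩ := hZ
    have hr' : (r₀:ℂ) ≠ 0 := by exact_mod_cast hr₀.ne'
    have hmaps : MapsTo (fun η : ℂ => η / r₀) (ball 0 r₀) (ball 0 1) := by
      intro η hη
      rw [mem_ball_zero_iff] at hη ⊢
      rw [norm_div, Complex.norm_real, Real.norm_eq_abs, abs_of_pos hr₀, div_lt_one hr₀]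
      exact hη
    have hFd : DifferentiableOn ℂ (fun η : ℂ => Z (η / r₀)) (ball 0 r₀) :=
      hZd.comp (by fun_prop) hmaps
    have hFm : MapsTo (fun η : ℂ => Z (η / r₀)) (ball 0 r₀) (ball p (1/8)) := by
      intro η hη
      apply hsmall n
      rw [← hZim]
      exact ⟨_, hmaps hη, rfl⟩
    have hder : ‖deriv (fun η : ℂ => Z (η / r₀)) 0‖ = 1 := by
      have h0 : (0:ℂ) ∈ ball (0:ℂ) r₀ := mem_ball_self hr₀
      have hFa : HasDerivAt (fun η : ℂ => Z (η / r₀)) (deriv (fun η : ℂ => Z (η / r₀)) 0) 0 :=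
        (hFd.differentiableAt (isOpen_ball.mem_nhds h0)).hasDerivAt
      have hF0 : Z ((0:ℂ) / r₀) = p := by rw [zero_div, hZ0]
      have h1 : HasDerivAt ((fq c)^[n]) ((2 * p) ^ n) (Z ((0:ℂ) / r₀)) := by
        rw [hF0]; exact deriv_iter_fixed hp n
      have h2 := HasDerivAt.comp (0:ℂ) h1 hFa
      have h3 : HasDerivAt (fun η : ℂ => p + η) 1 0 := by
        simpa using (hasDerivAt_id (0:ℂ)).const_add p
      have h4 : ((fq c)^[n] ∘ fun η : ℂ => Z (η / r₀)) =ᶠ[𝓝 0] fun η : ℂ => p + η := by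
        filter_upwards [isOpen_ball.mem_nhds h0] with η hη
        simp only [Function.comp_apply]
        rw [hZ2 _ (hmaps hη)]
        field_simp
      have h5 := (h2.congr_of_eventuallyEq h4.symm).unique h3
      have h6 := congrArg norm h5
      rw [norm_mul, norm_pow, hpn, one_pow, one_mul, norm_one] at h6
      exact h6
    have h1 := hcov 0 p (fun η : ℂ => Z (η / r₀)) hFd hFm (by simp [hZ0]) hder
    refine h1.trans ?_
    rintro _ ⟨η, hη, rfl⟩
    rw [← hZim]
    exact ⟨_, hmaps hη, rfl⟩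
  obtain ⟨N, hN⟩ := claimU (c := c) ⟨p, hpJ⟩ hδ (‖p‖ + r₀)
  apply hN N le_rfl p hpJ
  rintro _ ⟨z, hz, rfl⟩
  have h1 := CC_subset (hcov2 N hz)
  rw [mem_preimage, mem_ball, dist_eq_norm] at h1
  rw [mem_closedBall_zero_iff]
  have := norm_sub_norm_le ((fq c)^[N] z) p
  linarith

end Pool.Agent.H712R2.Cremer
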