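import Pool.Agent.H712R2.MainAux
import Pool.Agent.H712R2.ManeMain

set_option autoImplicit false

open Complex Set Topology Filter Metric

namespace Pool.Agent.H712R2.Cremer

variable {c : ℂ} {φ : ℂ → ℂ} {p : ℂ}

theorem mane {p : ℂ} (hp : fq c p = p) (hpn : ‖2 * p‖ = 1) (hpJ : p ∈ JJ c) : ManeConcl c :=
  mane_of_not_nonRec (not_nonRec hp hpn hpJ)

/-- inequivalence is an open condition -/
theorem not_eqv_open (hφ : IsBottcher c φ) {z z' : ℂ} (hz : z ∈ KJ c) (hzp : z ≠ p)
    (hz' : z' ∈ KJ c) (hzp' : z' ≠ p) (h : ¬ Eqv φ p z z') :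
    ∃ ε > 0, ∀ x ∈ ball z ε, ∀ x' ∈ ball z' ε, ¬ Eqv φ p x x' := by
  unfold Eqv at h
  push Not at h
  obtain ⟨t, ht, t', ht', hne⟩ := h
  have hU : IsOpen (ZZ φ p t ∩ ZZ φ p t') := (isOpen_ZZ hφ ht).inter (isOpen_ZZ hφ ht')
  obtain ⟨ε, hε, hb⟩ := Metric.isOpen_iff.mp hU z
    ⟨KJ_subset_ZZ hφ hz hzp, KJ_subset_ZZ hφ hz hzp⟩
  obtain ⟨ε', hε', hb'⟩ := Metric.isOpen_iff.mp hU z'
    ⟨KJ_subset_ZZ hφ hz' hzp', KJ_subset_ZZ hφ hz' hzp'⟩
  refine ⟨min ε ε', by positivity, fun x hx x' hx' hE => hne ?_⟩
  have h1 := vv_sub_const hφ ht ht' (convex_ball z ε).isPreconnected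
    (hb.trans inter_subset_left) (hb.trans inter_subset_right) (mem_ball_self hε)
    (ball_subset_ball (min_le_left _ _) hx)
  have h2 := vv_sub_const hφ ht ht' (convex_ball z' ε').isPreconnected
    (hb'.trans inter_subset_left) (hb'.trans inter_subset_right) (mem_ball_self hε')
    (ball_subset_ball (min_le_right _ _) hx')
  rw [h1, h2]
  exact hE t ht t' ht'

theorem continuum_many (hφ : IsBottcher c φ) (hp : fq c p = p) (hpn : ‖2 * p‖ = 1)
    (hirr : ∀ q : ℕ, 1 ≤ q → (2 * p) ^ q ≠ 1) {t₀ : ℝ} (ht₀ : Lands φ p t₀) :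
    Cardinal.mk (ConnectedComponents ↥(JJ c \ {p})) = Cardinal.continuum := by
  have hp0 : p ≠ 0 := by
    rintro rfl
    simp at hpn
  have hper := noPer hφ hp hpn hirr
  have hpJ := landing_mem_JJ hφ hp ht₀
  have hM : ManeConcl c := mane hp hpn hpJ
  have hz := zz_ne_p hp hp0 hpJ hM
  have hcJ := c_mem_JJ hφ hp hp0 ht₀ hper hM
  have hne := not_eqv hφ hp hp0 hz ht₀ hper
  have hrec := zz_recurrent hcJ hM
  have hzK := fun n => zz_mem hφ n
  have hzJ : ∀ n, zz c n ∈ JJ c := by
    intro n
    rw [zz, fq_iter_mem_JJ]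
    have : fq c 0 = c := by simp [fq]
    rw [← fq_mem_JJ, this]; exact hcJ
  apply le_antisymm
  · -- upper bound
    have h1 : Cardinal.mk (ConnectedComponents ↥(JJ c \ {p})) ≤ Cardinal.mk ↥(JJ c \ {p}) :=
      Cardinal.mk_le_of_surjective ConnectedComponents.surjective_coe
    have h2 : Cardinal.mk ↥(JJ c \ {p}) ≤ Cardinal.mk ℂ := Cardinal.mk_set_le _
    rw [Cardinal.mk_complex] at h2
    exact h1.trans h2
  · -- one step
    have step : ∀ (n : ℕ) (ε : ℝ), 0 < ε → ∃ (m : Bool → ℕ) (ε' : ℝ), 0 < ε' ∧ ε' ≤ ε / 2 ∧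
        (∀ b, closedBall (zz c (m b)) ε' ⊆ closedBall (zz c n) ε) ∧
        ∀ x ∈ closedBall (zz c (m false)) ε', ∀ x' ∈ closedBall (zz c (m true)) ε',
          ¬ Eqv φ p x x' := by
      intro n ε hε
      obtain ⟨k, hk, hkd⟩ := hrec n (ε / 2) (by positivity)
      obtain ⟨η, hη, hηe⟩ := not_eqv_open hφ (hzK n) (hz n) (hzK (n+k)) (hz (n+k)) (hne n k hk)
      set ε' := min (η / 2) (ε / 2) with hε'
      have hε'pos : 0 < ε' := by positivity
      have h1 : ε' ≤ ε / 2 := min_le_right _ _
      have h2 : ε' < η := lt_of_le_of_lt (min_le_left _ _) (by linarith)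
      refine ⟨fun b => if b then n + k else n, ε', hε'pos, h1, ?_, ?_⟩
      · intro b x hx
        rw [mem_closedBall] at hx ⊢
        have h3 : dist (zz c (if b then n + k else n)) (zz c n) ≤ ε / 2 := by
          cases b
          · simp; positivity
          · simp only [if_true]; rw [dist_eq_norm]; exact hkd.le
        calc dist x (zz c n) ≤ dist x (zz c (if b then n + k else n)) +
              dist (zz c (if b then n + k else n)) (zz c n) := dist_triangle _ _ _
          _ ≤ ε' + ε / 2 := add_le_add hx h3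
          _ ≤ ε := by linarith
      · intro x hx x' hx'
        exact hηe x (closedBall_subset_ball h2 (by simpa using hx)) x'
          (closedBall_subset_ball h2 (by simpa using hx'))
    choose! m ε' hpos hhalf hsub hsep using step
    -- initial radius avoiding p
    set ε₀ : ℝ := ‖p‖ / 2 with hε₀
    have hε₀pos : 0 < ε₀ := by rw [hε₀]; have := norm_pos_iff.mpr hp0; linarith
    let S : (ℕ → Bool) → ℕ → ℕ × ℝ := fun x j =>
      Nat.rec (0, ε₀) (fun j s => (m s.1 s.2 (x j), ε' s.1 s.2)) j
    have hS0 : ∀ x, S x 0 = (0, ε₀) := fun x => rfl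
    have hSs : ∀ x j, S x (j+1) = (m (S x j).1 (S x j).2 (x j), ε' (S x j).1 (S x j).2) :=
      fun x j => rfl
    have hSpos : ∀ x j, 0 < (S x j).2 := by
      intro x j
      induction j with
      | zero => exact hε₀pos
      | succ j ih => rw [hSs]; exact hpos _ _ ih
    have hSle : ∀ x j, (S x j).2 ≤ ε₀ / 2 ^ j := by
      intro x j
      induction j with
      | zero => rw [hS0]; simp
      | succ j ih =>
        rw [hSs]
        calc ε' (S x j).1 (S x j).2 ≤ (S x j).2 / 2 := hhalf _ _ (hSpos x j)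
          _ ≤ (ε₀ / 2 ^ j) / 2 := by linarith
          _ = ε₀ / 2 ^ (j+1) := by rw [pow_succ]; field_simp
    have hSsub : ∀ x j, closedBall (zz c (S x (j+1)).1) (S x (j+1)).2 ⊆
        closedBall (zz c (S x j).1) (S x j).2 := by
      intro x j
      rw [hSs]
      exact hsub _ _ (hSpos x j) _
    have hSdep : ∀ x x' : ℕ → Bool, ∀ j, (∀ i < j, x i = x' i) → S x j = S x' j := by
      intro x x' j
      induction j with
      | zero => intro _; rfl
      | succ j ih =>
        intro h
        rw [hSs, hSs, ih (fun i hi => h i (by omega)), h j (by omega)]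
    have hy : ∀ x, ∃ y : ℂ, ∀ j, y ∈ closedBall (zz c (S x j).1) (S x j).2 := by
      intro x
      have h1 : (⋂ j, closedBall (zz c (S x j).1) (S x j).2).Nonempty := by
        apply IsCompact.nonempty_iInter_of_sequence_nonempty_isCompact_isClosed
        · exact hSsub x
        · intro j; exact ⟨_, mem_closedBall_self (hSpos x j).le⟩
        · exact isCompact_closedBall _ _
        · intro j; exact isClosed_closedBall
      obtain ⟨y, hy⟩ := h1
      exact ⟨y, fun j => mem_iInter.mp hy j⟩
    choose y hy using hy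
    have hyJ : ∀ x, y x ∈ JJ c := by
      intro x
      have h1 : y x ∈ closure (Set.range (zz c)) := by
        rw [Metric.mem_closure_iff]
        intro δ hδ
        have h2 : Tendsto (fun j : ℕ => ε₀ / 2 ^ j) atTop (𝓝 0) := by
          have := (tendsto_pow_atTop_nhds_zero_of_lt_one (r := (1/2:ℝ)) (by norm_num)
            (by norm_num)).const_mul ε₀
          rw [mul_zero] at this
          refine this.congr fun j => ?_
          rw [one_div, inv_pow]; rfl
        obtain ⟨j, hj⟩ := (h2.eventually (gt_mem_nhds hδ)).exists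
        refine ⟨_, ⟨(S x j).1, rfl⟩, ?_⟩
        exact lt_of_le_of_lt ((mem_closedBall.mp (hy x j)).trans (hSle x j)) hj
      exact closure_minimal (by rintro _ ⟨n, rfl⟩; exact hzJ n) (isClosed_JJ c) h1
    have hyp : ∀ x, y x ≠ p := by
      intro x h
      have h1 := hy x 0
      rw [hS0, h, mem_closedBall, dist_eq_norm] at h1
      have h2 : zz c 0 = 0 := rfl
      simp only [h2, sub_zero] at h1
      rw [hε₀] at h1
      have := norm_pos_iff.mpr hp0
      linarith
    have hyne : ∀ x x', x ≠ x' → ¬ Eqv φ p (y x) (y x') := by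
      intro x x' hxx
      have hex : ∃ j, x j ≠ x' j := by
        by_contra h
        push Not at h
        exact hxx (funext h)
      classical
      set j := Nat.find hex with hj
      have hjne : x j ≠ x' j := Nat.find_spec hex
      have hjlt : ∀ i < j, x i = x' i := fun i hi => by
        have := Nat.find_min hex hi
        push Not at this
        exact this
      have hSj := hSdep x x' j hjlt
      have h1 := hy x (j+1)
      have h2 := hy x' (j+1)
      rw [hSs] at h1 h2
      rw [← hSj] at h2
      have hs := hsep (S x j).1 (S x j).2 (hSpos x j)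
      cases hb : x j
      · have hb' : x' j = true := by
          cases hb2 : x' j
          · exact absurd (hb.trans hb2.symm) hjne
          · rfl
        rw [hb] at h1
        rw [hb'] at h2
        exact hs _ h1 _ h2
      · have hb' : x' j = false := by
          cases hb2 : x' j
          · rfl
          · exact absurd (hb.trans hb2.symm) hjne
        rw [hb] at h1
        rw [hb'] at h2
        intro hE
        refine hs _ h2 _ h1 ?_
        intro t ht t' ht'
        exact (hE t ht t' ht').symm
    let Φ : (ℕ → Bool) → ConnectedComponents ↥(JJ c \ {p}) := fun x =>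
      ConnectedComponents.mk ⟨y x, hyJ x, hyp x⟩
    have hΦ : Function.Injective Φ := by
      intro x x' h
      by_contra hxx
      have h3 : ConnectedComponents.mk (⟨y x, hyJ x, hyp x⟩ : ↥(JJ c \ {p})) =
        ConnectedComponents.mk ⟨y x', hyJ x', hyp x'⟩ := h
      rw [ConnectedComponents.coe_eq_coe] at h3
      set x₁ : ↥(JJ c \ {p}) := ⟨y x, hyJ x, hyp x⟩ with hx₁
      set x₂ : ↥(JJ c \ {p}) := ⟨y x', hyJ x', hyp x'⟩ with hx₂
      have h4 : x₂ ∈ connectedComponent x₁ := by rw [h3]; exact mem_connectedComponent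
      have h5 : x₁ ∈ connectedComponent x₁ := mem_connectedComponent
      let S' : Set ℂ := Subtype.val '' connectedComponent x₁
      have hSpre : IsPreconnected S' :=
        isPreconnected_connectedComponent.image _ continuous_subtype_val.continuousOn
      have hSsub' : S' ⊆ KJ c \ {p} := by
        rintro _ ⟨w, _, rfl⟩
        exact ⟨JJ_subset c w.2.1, w.2.2⟩
      exact hyne x x' hxx (eqv_of_connected hφ hSpre hSsub' (z := y x) (z' := y x')
        ⟨x₁, h5, rfl⟩ ⟨x₂, h4, rfl⟩)
    have h1 := Cardinal.mk_le_of_injective hΦ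
    have h2 : Cardinal.mk (ℕ → Bool) = Cardinal.continuum := by
      rw [← Cardinal.power_def]
      simp
    rw [h2] at h1
    exact h1

end Pool.Agent.H712R2.Cremer
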