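import Mathlib

set_option autoImplicit false

open Complex Set Topology Filter Metric

namespace Pool.Agent.H712R2.Cremer

/-- Quantitative open mapping: a holomorphic map of a disc of radius `R` into a disc of radius `M`,
with derivative of modulus one at the centre, covers a disc of fixed radius. -/
theorem cover_ball {R M : ℝ} (hR : 0 < R) (hM : 0 < M) : ∃ δ > 0, ∀ (p p' : ℂ) (F : ℂ → ℂ),
    DifferentiableOn ℂ F (ball p R) → MapsTo F (ball p R) (ball p' M) → F p = p' →
    ‖deriv F p‖ = 1 → ball p' δ ⊆ F '' ball p R := by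
  -- radius
  set r : ℝ := min (R / 2) (R ^ 2 / (8 * M)) with hr
  have hrpos : 0 < r := by rw [hr]; positivity
  have hrR : r ≤ R / 2 := min_le_left _ _
  have hr2 : r ≤ R ^ 2 / (8 * M) := min_le_right _ _
  refine ⟨r / 4, by positivity, fun p p' F hF hmap hFp hder => ?_⟩
  have hmap' : MapsTo F (ball p R) (ball (F p) M) := by rw [hFp]; exact hmap
  have hG : DifferentiableOn ℂ (dslope F p) (ball p R) :=
    (differentiableOn_dslope (isOpen_ball.mem_nhds (mem_ball_self hR))).mpr hF
  have hGb : ∀ z ∈ ball p R, ‖dslope F p z‖ ≤ M / R := fun z hz =>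
    norm_dslope_le_div_of_mapsTo_ball hF (hmap'.mono_right ball_subset_closedBall) hz
  have hGp : ‖dslope F p p‖ = 1 := by rw [dslope_same]; exact hder
  have hMR : 1 ≤ M / R := by rw [← hGp]; exact hGb p (mem_ball_self hR)
  -- G maps into closed ball
  have hmapG : MapsTo (dslope F p) (ball p R) (closedBall (dslope F p p) (2 * (M / R))) := by
    intro z hz
    rw [mem_closedBall, dist_eq_norm]
    calc ‖dslope F p z - dslope F p p‖ ≤ ‖dslope F p z‖ + ‖dslope F p p‖ := norm_sub_le _ _
      _ ≤ M / R + M / R := add_le_add (hGb z hz) (hGb p (mem_ball_self hR))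
      _ = _ := by ring
  have hlow : ∀ z ∈ sphere p r, r / 2 ≤ ‖F z - F p‖ := by
    intro z hz
    rw [mem_sphere] at hz
    have hzR : z ∈ ball p R := by rw [mem_ball, hz]; linarith
    have h1 : dist (dslope F p z) (dslope F p p) ≤ 2 * (M / R) / R * dist z p :=
      dist_le_div_mul_dist_of_mapsTo_ball hG hmapG hzR
    have h2 : 2 * (M / R) / R * dist z p ≤ 1 / 4 := by
      rw [hz]
      calc 2 * (M / R) / R * r ≤ 2 * (M / R) / R * (R ^ 2 / (8 * M)) := by gcongr
        _ = 1 / 4 := by field_simp; norm_num
    have h3 : 1 / 2 ≤ ‖dslope F p z‖ := by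
      have := norm_sub_norm_le (dslope F p p) (dslope F p z)
      rw [hGp, ← dist_eq_norm, dist_comm] at this
      linarith
    have h4 : F z - F p = (z - p) * dslope F p z := by
      rw [← smul_eq_mul, sub_smul_dslope]
    rw [h4, norm_mul, ← dist_eq_norm, hz]
    nlinarith
  have hcl : DiffContOnCl ℂ F (ball p r) := by
    refine DifferentiableOn.diffContOnCl ?_
    rw [closure_ball _ hrpos.ne']
    exact hF.mono (closedBall_subset_ball (by linarith))
  have hfreq : ∃ᶠ z in 𝓝 p, F z ≠ F p := by
    intro hcon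
    have h1 : ∀ᶠ z in 𝓝 p, F z = F p := by
      filter_upwards [hcon] with z hz
      exact not_not.mp hz
    have h2 : deriv F p = 0 := by
      have : F =ᶠ[𝓝 p] fun _ => F p := h1
      rw [this.deriv_eq, deriv_const]
    rw [h2, norm_zero] at hder
    exact zero_ne_one hder
  have h5 := hcl.ball_subset_image_closedBall hrpos hlow hfreq
  rw [hFp] at h5
  refine (ball_subset_ball (by linarith)).trans (h5.trans (image_mono ?_))
  exact closedBall_subset_ball (by linarith)

end Pool.Agent.H712R2.Cremer
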