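import Pool.Agent.H712R2.Cover

set_option autoImplicit false

open Complex Set Topology Filter Metric

namespace Pool.Agent.H712R2.Cremer

/-- A holomorphic germ with an indifferent fixed point has, in every small closed disc around it,
another point whose whole forward orbit stays in the disc. -/
theorem exists_trapped {g : ℂ → ℂ} (hg : Differentiable ℂ g) {p : ℂ} (hp : g p = p)
    (hd : ‖deriv g p‖ = 1) {ρ : ℝ} (hρ : 0 < ρ) :
    ∃ z, z ≠ p ∧ ∀ i : ℕ, g^[i] z ∈ closedBall p ρ := by
  by_contra hcon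
  push Not at hcon
  set μ := deriv g p with hμ
  have hμ0 : μ ≠ 0 := by
    intro h; rw [h, norm_zero] at hd; exact zero_ne_one hd
  -- analyticity
  have hgA : AnalyticAt ℂ g p := hg.analyticAt p
  have hstrict : HasStrictDerivAt g μ p := hgA.hasStrictDerivAt
  -- local inverse
  have hfd : HasStrictFDerivAt g ((ContinuousLinearEquiv.unitsEquivAut ℂ (Units.mk0 μ hμ0) : ℂ ≃L[ℂ] ℂ) : ℂ →L[ℂ] ℂ) p := by
    exact hstrict.hasStrictFDerivAt_equiv hμ0
  set e := hfd.toOpenPartialHomeomorph g with he
  have hecoe : ∀ z, e z = g z := fun z => rfl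
  have hpe : p ∈ e.source := hfd.mem_toOpenPartialHomeomorph_source
  have hpt : p ∈ e.target := by
    have := e.map_source hpe
    rwa [hecoe, hp] at this
  have hsp : e.symm p = p := by
    have := e.left_inv hpe
    rwa [hecoe, hp] at this
  set h : ℂ → ℂ := (fun z => e.symm z) with hh
  have hsp' : h p = p := hsp
  have hcont_deriv : Continuous (deriv g) := (hg.contDiff (n := 1)).continuous_deriv le_rfl
  have hhc : ContinuousAt h p := e.continuousAt_symm hpt
  -- radius r₁
  obtain ⟨r₁, hr₁, hball⟩ : ∃ r₁ > 0, ∀ z ∈ ball p r₁, z ∈ e.target ∧ deriv g (h z) ≠ 0 := by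
    have h1 : ∀ᶠ z in 𝓝 p, z ∈ e.target := e.open_target.mem_nhds hpt
    have h2 : ∀ᶠ z in 𝓝 p, deriv g (h z) ≠ 0 := by
      have : ContinuousAt (fun z => deriv g (h z)) p := hcont_deriv.continuousAt.comp hhc
      refine this.eventually_ne ?_
      rw [hsp']; exact hμ0
    obtain ⟨r, hr, hb⟩ := Metric.eventually_nhds_iff_ball.mp (h1.and h2)
    exact ⟨r, hr, hb⟩
  have hgh : ∀ z ∈ ball p r₁, g (h z) = z := fun z hz => e.right_inv (hball z hz).1
  have hhd : DifferentiableOn ℂ h (ball p r₁) := by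
    intro z hz
    have h1 := e.hasDerivAt_symm (hball z hz).1 (hball z hz).2
      (hg (e.symm z)).hasDerivAt
    exact h1.differentiableAt.differentiableWithinAt
  have hhder : HasDerivAt h μ⁻¹ p := by
    have h1 := e.hasDerivAt_symm (f' := μ) hpt hμ0 (by rw [hsp]; exact (hg p).hasDerivAt)
    exact h1
  -- shrink ρ
  set ρ' := min ρ (r₁ / 2) with hρ'
  have hρ'pos : 0 < ρ' := by positivity
  have hρ'r : ρ' < r₁ := lt_of_le_of_lt (min_le_right _ _) (by linarith)
  obtain ⟨ρ₂', hρ₂', hmap₂'⟩ : ∃ ρ₂ > 0, ∀ z ∈ ball p ρ₂, h z ∈ ball p ρ' := by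
    have h1 : ∀ᶠ z in 𝓝 p, h z ∈ ball p ρ' := hhc.eventually_mem (by
      rw [hsp']; exact ball_mem_nhds p hρ'pos)
    exact Metric.eventually_nhds_iff_ball.mp h1
  set ρ₂ := min ρ₂' ρ' with hρ₂
  have hρ₂pos : 0 < ρ₂ := by positivity
  have hmap₂ : ∀ z ∈ ball p ρ₂, h z ∈ ball p ρ' := fun z hz =>
    hmap₂' z (ball_subset_ball (min_le_left _ _) hz)
  have hρ₂ρ' : ρ₂ ≤ ρ' := min_le_right _ _
  -- E_n
  let E : ℕ → Set ℂ := fun n => {z | ∀ i ≤ n, g^[i] z ∈ closedBall p ρ'}
  have hEcl : ∀ n, IsClosed (E n) := by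
    intro n
    have : E n = ⋂ i, ⋂ (_ : i ≤ n), g^[i] ⁻¹' closedBall p ρ' := by ext z; simp [E]
    rw [this]
    exact isClosed_iInter fun i => isClosed_iInter fun _ =>
      isClosed_closedBall.preimage (hg.continuous.iterate i)
  obtain ⟨n, hn⟩ : ∃ n, E n ⊆ ball p ρ₂ := by
    by_contra hc
    push Not at hc
    have hne : (⋂ n, E n ∩ (ball p ρ₂)ᶜ).Nonempty := by
      apply IsCompact.nonempty_iInter_of_sequence_nonempty_isCompact_isClosed
      · intro i x hx
        exact ⟨fun j hj => hx.1 j (by omega), hx.2⟩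
      · intro i
        obtain ⟨x, hx1, hx2⟩ := Set.not_subset.mp (hc i)
        exact ⟨x, hx1, hx2⟩
      · refine (isCompact_closedBall p ρ').of_isClosed_subset
          ((hEcl 0).inter isOpen_ball.isClosed_compl) ?_
        intro x hx
        simpa using hx.1 0 le_rfl
      · intro i
        exact (hEcl i).inter isOpen_ball.isClosed_compl
    obtain ⟨z, hz⟩ := hne
    rw [mem_iInter] at hz
    have hzp : z ≠ p := by
      rintro rfl
      exact (hz 0).2 (mem_ball_self hρ₂pos)
    obtain ⟨i, hi⟩ := hcon z hzp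
    exact hi (closedBall_subset_closedBall (min_le_left _ _) ((hz i).1 i le_rfl))
  -- iterates of h
  have hiter_p : ∀ i, h^[i] p = p := fun i => Function.iterate_fixed hsp i
  have hiter_c : ∀ i, ContinuousAt h^[i] p := by
    intro i
    induction i with
    | zero => simpa using continuousAt_id
    | succ i ih =>
      rw [Function.iterate_succ']
      exact ContinuousAt.comp (by rw [hiter_p]; exact hhc) ih
  obtain ⟨ε, hε, hW⟩ : ∃ ε > 0, ∀ z ∈ ball p ε, ∀ i ≤ n, h^[i] z ∈ ball p ρ₂ := by
    have h1 : ∀ᶠ z in 𝓝 p, ∀ i ∈ Finset.range (n+1), h^[i] z ∈ ball p ρ₂ := by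
      rw [Filter.eventually_all_finset]
      intro i _
      exact (hiter_c i).eventually_mem (by rw [hiter_p]; exact ball_mem_nhds p hρ₂pos)
    obtain ⟨ε, hε, hb⟩ := Metric.eventually_nhds_iff_ball.mp h1
    exact ⟨ε, hε, fun z hz i hi => hb z hz i (by simpa using by omega)⟩
  -- g^i h^k = h^(k-i) as long as things stay
  have hback : ∀ (x : ℂ) (k : ℕ), (∀ i < k, h^[i] x ∈ ball p ρ₂) → ∀ i ≤ k,
      g^[i] (h^[k] x) = h^[k - i] x := by
    intro x k hx i hi
    induction i with
    | zero => simp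
    | succ i ih =>
      rw [Function.iterate_succ_apply', ih (by omega)]
      have e1 : k - i = (k - (i+1)) + 1 := by omega
      rw [e1, Function.iterate_succ_apply']
      exact hgh _ (ball_subset_ball (by linarith) (hx (k - (i+1)) (by omega)))
  have hstay : ∀ x ∈ ball p ε, ∀ k, h^[k] x ∈ ball p ρ₂ := by
    intro x hx k
    induction k using Nat.strong_induction_on with
    | _ k ih =>
      rcases le_or_gt k n with hk | hk
      · exact hW x hx k hk
      · apply hn
        intro i hi
        rw [hback x k ih i (by omega)]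
        rcases Nat.eq_zero_or_pos i with h0 | h0
        · subst h0
          have e1 : k - 0 = (k - 1) + 1 := by omega
          rw [e1, Function.iterate_succ_apply']
          exact ball_subset_closedBall (hmap₂ _ (ih (k-1) (by omega)))
        · exact closedBall_subset_closedBall hρ₂ρ' (ball_subset_closedBall (ih (k - i) (by omega)))
  have hdiff : ∀ k, DifferentiableOn ℂ h^[k] (ball p ε) := by
    intro k
    induction k with
    | zero => simpa using differentiableOn_id
    | succ k ih =>
      rw [Function.iterate_succ']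
      exact hhd.comp ih fun x hx => ball_subset_ball (by linarith) (hstay x hx k)
  obtain ⟨δ, hδ, hcov⟩ := cover_ball hε hρ₂pos
  have hcov' : ∀ k, ball p δ ⊆ h^[k] '' ball p ε := by
    intro k
    refine hcov p p _ (hdiff k) (fun x hx => hstay x hx k) (hiter_p k) ?_
    rw [(HasDerivAt.iterate p hhder hsp' k).deriv, norm_pow, norm_inv, hd]
    simp
  -- a point different from p in the ball
  have hz0 : p + ((δ / 2 : ℝ) : ℂ) ∈ ball p δ := by
    rw [mem_ball, dist_eq_norm, add_sub_cancel_left, Complex.norm_real, Real.norm_eq_abs,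
      abs_of_pos (by positivity)]
    linarith
  have hzp : p + ((δ / 2 : ℝ) : ℂ) ≠ p := by
    intro hcn
    have : ((δ / 2 : ℝ) : ℂ) = 0 := by linear_combination hcn
    have h2 : (δ / 2 : ℝ) = 0 := by exact_mod_cast this
    linarith
  obtain ⟨i, hi⟩ := hcon _ hzp
  obtain ⟨x, hx, hxz⟩ := hcov' i hz0
  apply hi
  rw [← hxz, hback x i (fun j _ => hstay x hx j) i le_rfl]
  exact closedBall_subset_closedBall (hρ₂ρ'.trans (min_le_left _ _))
    (ball_subset_closedBall (hstay x hx _))

end Pool.Agent.H712R2.Cremer
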