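import Pool.Agent.H712R2.NoPer

set_option autoImplicit false

open Complex Set Topology Filter Metric

namespace Pool.Agent.H712R2.Cremer

variable {c : ℂ} {φ : ℂ → ℂ} {p : ℂ}

theorem landing_mem_JJ (hφ : IsBottcher c φ) (hp : fq c p = p) {t : ℝ} (ht : Lands φ p t) :
    p ∈ JJ c := by
  rw [JJ, frontier_eq_closure_inter_closure]
  refine ⟨subset_closure (fixed_mem_KJ hp), ?_⟩
  refine mem_closure_of_tendsto ht ?_
  filter_upwards [self_mem_nhdsWithin] with r hr
  rw [← hφ.image]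
  refine ⟨_, ?_, rfl⟩
  have hr' : (1:ℝ) < r := hr
  show 1 < ‖(r:ℂ) * ee t‖
  rw [norm_mul, norm_ee, mul_one, Complex.norm_real, Real.norm_eq_abs, abs_of_pos (by linarith)]
  exact hr'

theorem zz_one (c : ℂ) : zz c 1 = c := by simp [zz, fq]

theorem zz_succ' (c : ℂ) (n : ℕ) : zz c (n + 1) = (fq c)^[n] c := by
  rw [zz, Function.iterate_succ_apply]; simp [fq]

theorem zz_add (c : ℂ) (m n : ℕ) : zz c (m + n) = (fq c)^[m] (zz c n) := by
  rw [zz, Function.iterate_add_apply]; rfl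

/-- The conclusion of the Mañé type lemma. -/
def ManeConcl (c : ℂ) : Prop :=
  (c ∈ JJ c → ∀ δ > 0, ∃ n ≥ 1, ‖(fq c)^[n] c - c‖ < δ) ∧
  (c ∉ JJ c → ∃ n ≥ 1, (fq c)^[n] c ∈ connectedComponentIn (JJ c)ᶜ c)

theorem zz_ne_p (hp : fq c p = p) (hp0 : p ≠ 0) (hpJ : p ∈ JJ c) (hM : ManeConcl c) (n : ℕ) :
    zz c n ≠ p := by
  have hcp : c ≠ p := by
    rintro rfl
    apply hp0
    have : c ^ 2 = 0 := by
      unfold fq at hp
      linear_combination hp
    simpa using this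
  rcases Nat.eq_zero_or_pos n with h0 | h0
  · subst h0; simpa [zz] using Ne.symm hp0
  obtain ⟨k, rfl⟩ : ∃ k, n = k + 1 := ⟨n - 1, by omega⟩
  by_cases hcJ : c ∈ JJ c
  · intro hk
    -- all later terms are p
    have hlate : ∀ m, k ≤ m → (fq c)^[m] c = p := by
      intro m hm
      obtain ⟨j, rfl⟩ : ∃ j, m = j + k := ⟨m - k, by omega⟩
      rw [Function.iterate_add_apply, ← zz_succ', hk, Function.iterate_fixed hp]
    have hnc : ∀ m, 1 ≤ m → (fq c)^[m] c ≠ c := by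
      intro m hm h
      apply hcp
      have h1 : (fq c)^[m * (k+1)] c = c := by
        rw [Function.iterate_mul, Function.iterate_fixed h]
      rw [← h1]
      conv_rhs => rw [← hlate (m * (k+1)) (by nlinarith)]
    -- finite set
    let S : Set ℂ := (fun m => (fq c)^[m] c) '' (Finset.Icc 1 (k+1) : Finset ℕ)
    have hSfin : S.Finite := (Finset.finite_toSet _).image _
    have hcS : c ∈ Sᶜ := by
      rintro ⟨m, hm, hmc⟩
      simp only [Finset.coe_Icc, mem_Icc] at hm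
      exact hnc m hm.1 hmc
    obtain ⟨δ, hδ, hb⟩ := Metric.isOpen_iff.mp hSfin.isClosed.isOpen_compl c hcS
    obtain ⟨m, hm, hmδ⟩ := hM.1 hcJ δ hδ
    have h1 : (fq c)^[m] c ∈ ball c δ := by rw [mem_ball, dist_eq_norm]; exact hmδ
    apply hb h1
    rcases le_or_gt m (k+1) with h2 | h2
    · exact ⟨m, by simp; omega, rfl⟩
    · refine ⟨k+1, by simp, ?_⟩
      show (fq c)^[k+1] c = (fq c)^[m] c
      rw [hlate (k+1) (by omega), hlate m (by omega)]
  · intro h
    apply hcJ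
    rw [zz_succ'] at h
    rw [← fq_iter_mem_JJ k, h]
    exact hpJ

theorem c_mem_JJ (hφ : IsBottcher c φ) (hp : fq c p = p) (hp0 : p ≠ 0) {t₀ : ℝ}
    (ht₀ : Lands φ p t₀) (hper : NoPer φ p) (hM : ManeConcl c) : c ∈ JJ c := by
  have hpJ := landing_mem_JJ hφ hp ht₀
  have hz := zz_ne_p hp hp0 hpJ hM
  by_contra hcJ
  obtain ⟨n, hn, hcomp⟩ := hM.2 hcJ
  have hcK : c ∈ KJ c := by
    have := zz_mem hφ 1
    rwa [zz_one] at this
  set S := connectedComponentIn (JJ c)ᶜ c with hS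
  have hcS : c ∈ S := mem_connectedComponentIn hcJ
  have hSpre : IsPreconnected S := isPreconnected_connectedComponentIn
  have hSsub : S ⊆ (JJ c)ᶜ := connectedComponentIn_subset _ _
  have hcint : c ∈ interior (KJ c) := by
    by_contra h
    apply hcJ
    rw [JJ, frontier, (isClosed_KJ c).closure_eq]
    exact ⟨hcK, h⟩
  have hSK : S ⊆ interior (KJ c) := by
    refine hSpre.subset_left_of_subset_union isOpen_interior (isClosed_KJ c).isOpen_compl ?_ ?_
      ⟨c, hcS, hcint⟩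
    · exact disjoint_compl_right.mono_left interior_subset
    · intro x hx
      by_cases h : x ∈ KJ c
      · left
        by_contra h2
        apply hSsub hx
        rw [JJ, frontier, (isClosed_KJ c).closure_eq]
        exact ⟨h, h2⟩
      · right; exact h
  have hSK' : S ⊆ KJ c \ {p} := by
    intro x hx
    refine ⟨interior_subset (hSK hx), ?_⟩
    rintro rfl
    exact hSsub hx hpJ
  have h1 := eqv_of_connected hφ hSpre hSK' hcS hcomp
  apply not_eqv hφ hp hp0 hz ht₀ hper 1 n hn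
  rw [zz_one, show 1 + n = n + 1 by ring, zz_succ']
  exact h1

theorem zz_recurrent (hcJ : c ∈ JJ c) (hM : ManeConcl c) (m : ℕ) :
    ∀ δ > 0, ∃ n ≥ 1, ‖zz c (m + n) - zz c m‖ < δ := by
  intro δ hδ
  have hc : ContinuousAt ((fq c)^[m]) 0 := (continuous_fq_iter c m).continuousAt
  rw [Metric.continuousAt_iff] at hc
  obtain ⟨ε, hε, hb⟩ := hc δ hδ
  obtain ⟨n, hn, hnδ⟩ := hM.1 hcJ (ε ^ 2) (by positivity)
  refine ⟨n, hn, ?_⟩
  have h1 : (fq c)^[n] c - c = (zz c n) ^ 2 := by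
    rw [← zz_succ', zz_succ]; simp [fq]
  rw [h1, norm_pow] at hnδ
  have h2 : ‖zz c n‖ < ε := lt_of_pow_lt_pow_left₀ 2 hε.le hnδ
  have h3 := hb (x := zz c n) (by rw [dist_zero_right]; exact h2)
  rw [dist_eq_norm] at h3
  rw [zz_add]
  exact h3

theorem main_of_mane (hφ : IsBottcher c φ) (hp : fq c p = p) (hpn : ‖2 * p‖ = 1)
    (hirr : ∀ q : ℕ, 1 ≤ q → (2 * p) ^ q ≠ 1) {t₀ : ℝ} (ht₀ : Lands φ p t₀)
    (hM : ManeConcl c) : ¬ Countable (ConnectedComponents ↥(JJ c \ {p})) := by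
  intro hcount
  have hp0 : p ≠ 0 := by
    rintro rfl
    simp at hpn
  have hper := noPer hφ hp hpn hirr
  have hpJ := landing_mem_JJ hφ hp ht₀
  have hz := zz_ne_p hp hp0 hpJ hM
  have hcJ := c_mem_JJ hφ hp hp0 ht₀ hper hM
  have hne := not_eqv hφ hp hp0 hz ht₀ hper
  have hrec := zz_recurrent hcJ hM
  have hzJ : ∀ n, zz c n ∈ JJ c := by
    intro n
    rw [zz, fq_iter_mem_JJ]
    have : fq c 0 = c := by simp [fq]
    rw [← fq_mem_JJ, this]; exact hcJ
  -- Y
  set Y : Set ℂ := closure (Set.range (zz c)) \ {p} with hY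
  have hYsub : Y ⊆ JJ c \ {p} := by
    rintro x ⟨hx, hxp⟩
    refine ⟨?_, hxp⟩
    have : closure (Set.range (zz c)) ⊆ JJ c :=
      closure_minimal (by rintro _ ⟨n, rfl⟩; exact hzJ n) (isClosed_JJ c)
    exact this hx
  have hlc : IsLocallyClosed Y := by
    rw [hY, Set.sdiff_eq]
    exact isClosed_closure.isLocallyClosed.inter (isOpen_compl_singleton.isLocallyClosed)
  have : LocallyCompactSpace Y := by
    apply Topology.IsInducing.subtypeVal.locallyCompactSpace
    rw [Subtype.range_coe]; exact hlc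
  have : Nonempty Y := ⟨⟨zz c 0, subset_closure ⟨0, rfl⟩, hz 0⟩⟩
  -- closed cover
  let ι : Y → ↥(JJ c \ {p}) := fun y => ⟨y.1, hYsub y.2⟩
  have hι : Continuous ι := by fun_prop
  let F : ConnectedComponents ↥(JJ c \ {p}) → Set Y := fun κ => {y | ConnectedComponents.mk (ι y) = κ}
  have hFc : ∀ κ, IsClosed (F κ) := by
    intro κ
    obtain ⟨x, rfl⟩ := ConnectedComponents.surjective_coe κ
    have h1 : F (x : ConnectedComponents _) = ι ⁻¹' (connectedComponent x) := by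
      ext y
      rw [mem_preimage, ← connectedComponents_preimage_singleton]
      rfl
    rw [h1]
    exact isClosed_connectedComponent.preimage hι
  have hFU : ⋃ κ, F κ = univ := by
    rw [eq_univ_iff_forall]
    intro y
    exact mem_iUnion.mpr ⟨_, rfl⟩
  obtain ⟨κ, y, hy⟩ := nonempty_interior_of_iUnion_of_closed hFc hFU
  rw [mem_interior_iff_mem_nhds, Metric.mem_nhds_iff] at hy
  obtain ⟨ε, hε, hball⟩ := hy
  have hy2 : (y : ℂ) ∈ closure (Set.range (zz c)) := y.2.1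
  obtain ⟨_, ⟨m, rfl⟩, hm⟩ := Metric.mem_closure_iff.mp hy2 ε hε
  have hε' : 0 < ε - dist (y:ℂ) (zz c m) := by linarith
  obtain ⟨n, hn, hn2⟩ := hrec m _ hε'
  have hYm : ∀ k, zz c k ∈ Y := fun k => ⟨subset_closure ⟨k, rfl⟩, hz k⟩
  have h1 : (⟨zz c m, hYm m⟩ : Y) ∈ F κ := hball (by
    rw [mem_ball, Subtype.dist_eq, dist_comm]; exact hm)
  have h2 : (⟨zz c (m+n), hYm (m+n)⟩ : Y) ∈ F κ := hball (by
    rw [mem_ball, Subtype.dist_eq]
    calc dist (zz c (m+n)) (y:ℂ) ≤ dist (zz c (m+n)) (zz c m) + dist (zz c m) (y:ℂ) :=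
          dist_triangle _ _ _
      _ < (ε - dist (y:ℂ) (zz c m)) + dist (zz c m) (y:ℂ) := by
          rw [dist_eq_norm (zz c (m+n))]; linarith
      _ = ε := by rw [dist_comm (zz c m)]; ring)
  have h3 : ConnectedComponents.mk (ι ⟨zz c m, hYm m⟩) =
      ConnectedComponents.mk (ι ⟨zz c (m+n), hYm (m+n)⟩) := by
    have e1 : ConnectedComponents.mk (ι ⟨zz c m, hYm m⟩) = κ := h1
    have e2 : ConnectedComponents.mk (ι ⟨zz c (m+n), hYm (m+n)⟩) = κ := h2
    rw [e1, e2]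
  rw [ConnectedComponents.coe_eq_coe] at h3
  set x₁ := ι ⟨zz c m, hYm m⟩ with hx₁
  set x₂ := ι ⟨zz c (m+n), hYm (m+n)⟩ with hx₂
  have h4 : x₂ ∈ connectedComponent x₁ := by rw [h3]; exact mem_connectedComponent
  have h5 : x₁ ∈ connectedComponent x₁ := mem_connectedComponent
  let S : Set ℂ := Subtype.val '' connectedComponent x₁
  have hSpre : IsPreconnected S :=
    isPreconnected_connectedComponent.image _ continuous_subtype_val.continuousOn
  have hSsub : S ⊆ KJ c \ {p} := by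
    rintro _ ⟨x, _, rfl⟩
    exact ⟨JJ_subset c x.2.1, x.2.2⟩
  have h6 := eqv_of_connected hφ hSpre hSsub (z := zz c m) (z' := zz c (m+n)) ⟨x₁, h5, rfl⟩
    ⟨x₂, h4, rfl⟩
  exact hne m n hn h6

end Pool.Agent.H712R2.Cremer
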