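import Pool.Agent.H712R2.NoPer

set_option autoImplicit false

open Complex Set Topology Filter Metric

namespace Pool.Agent.H712R2.Cremer

/-- component of the preimage of `D` under `f^n` containing `y` -/
def CC (c : ℂ) (n : ℕ) (D : Set ℂ) (y : ℂ) : Set ℂ :=
  connectedComponentIn ((fq c)^[n] ⁻¹' D) y

variable {c : ℂ}

theorem isOpen_CC {n : ℕ} {D : Set ℂ} {y : ℂ} (hD : IsOpen D) : IsOpen (CC c n D y) :=
  (hD.preimage (continuous_fq_iter c n)).connectedComponentIn

theorem isPreconnected_CC {n : ℕ} {D : Set ℂ} {y : ℂ} : IsPreconnected (CC c n D y) :=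
  isPreconnected_connectedComponentIn

theorem CC_subset {n : ℕ} {D : Set ℂ} {y : ℂ} : CC c n D y ⊆ (fq c)^[n] ⁻¹' D :=
  connectedComponentIn_subset _ _

theorem mem_CC {n : ℕ} {D : Set ℂ} {y : ℂ} (hy : (fq c)^[n] y ∈ D) : y ∈ CC c n D y :=
  mem_connectedComponentIn hy

theorem subset_CC {n : ℕ} {D S : Set ℂ} {y : ℂ} (hS : IsPreconnected S) (hy : y ∈ S)
    (h : S ⊆ (fq c)^[n] ⁻¹' D) : S ⊆ CC c n D y :=
  hS.subset_connectedComponentIn hy h

theorem CC_mono {n : ℕ} {D D' : Set ℂ} {y : ℂ} (hy : (fq c)^[n] y ∈ D) (h : D ⊆ D') :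
    CC c n D y ⊆ CC c n D' y :=
  subset_CC isPreconnected_CC (mem_CC hy) (CC_subset.trans (preimage_mono h))

theorem CC_eq_of_mem {n : ℕ} {D : Set ℂ} {y y' : ℂ} (h : y' ∈ CC c n D y) :
    CC c n D y' = CC c n D y := (connectedComponentIn_eq h).symm

theorem fq_CC {n : ℕ} {D : Set ℂ} {y : ℂ} (hy : (fq c)^[n+1] y ∈ D) :
    fq c '' CC c (n+1) D y ⊆ CC c n D (fq c y) := by
  refine subset_CC (isPreconnected_CC.image _ (continuous_fq c).continuousOn)
    ⟨y, mem_CC hy, rfl⟩ ?_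
  rintro _ ⟨x, hx, rfl⟩
  have := CC_subset hx
  rw [mem_preimage, Function.iterate_succ_apply] at this
  exact this

theorem fqi_CC {n j : ℕ} {D : Set ℂ} {y : ℂ} (hy : (fq c)^[n+j] y ∈ D) :
    (fq c)^[j] '' CC c (n+j) D y ⊆ CC c n D ((fq c)^[j] y) := by
  refine subset_CC (isPreconnected_CC.image _ (continuous_fq_iter c j).continuousOn)
    ⟨y, mem_CC hy, rfl⟩ ?_
  rintro _ ⟨x, hx, rfl⟩
  have := CC_subset hx
  rw [mem_preimage, Function.iterate_add_apply] at this
  exact this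

/-- tower property -/
theorem CC_tower {n : ℕ} {D : Set ℂ} {y : ℂ} (hy : (fq c)^[n+1] y ∈ D) :
    connectedComponentIn (fq c ⁻¹' CC c n D (fq c y)) y = CC c (n+1) D y := by
  apply Subset.antisymm
  · refine subset_CC isPreconnected_connectedComponentIn ?_ ?_
    · apply mem_connectedComponentIn
      exact mem_CC (by rw [← Function.iterate_succ_apply]; exact hy)
    · intro x hx
      have h1 : fq c x ∈ CC c n D (fq c y) :=
        (connectedComponentIn_subset (fq c ⁻¹' CC c n D (fq c y)) y) hx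
      have h2 := CC_subset h1
      rw [mem_preimage, ← Function.iterate_succ_apply] at h2
      exact h2
  · refine isPreconnected_CC.subset_connectedComponentIn (mem_CC hy) ?_
    intro x hx
    exact fq_CC hy ⟨x, hx, rfl⟩

/-- closedness in the ambient open set -/
theorem closure_CC {n : ℕ} {D : Set ℂ} {y x : ℂ} (hy : (fq c)^[n] y ∈ D)
    (hx : x ∈ closure (CC c n D y)) (hx2 : (fq c)^[n] x ∈ D) : x ∈ CC c n D y := by
  have h1 : IsPreconnected (insert x (CC c n D y)) :=
    isPreconnected_CC.subset_closure (subset_insert _ _)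
      (insert_subset hx subset_closure)
  have h2 : insert x (CC c n D y) ⊆ CC c n D y := by
    refine subset_CC h1 (mem_insert_of_mem _ (mem_CC hy)) ?_
    exact insert_subset hx2 CC_subset
  exact h2 (mem_insert _ _)

theorem norm_le_of_fq {z : ℂ} {M : ℝ} (h : ‖fq c z‖ ≤ M) : ‖z‖ ≤ M + ‖c‖ + 1 := by
  have h1 : ‖z‖ ^ 2 ≤ M + ‖c‖ := by
    have : ‖z ^ 2‖ ≤ ‖fq c z‖ + ‖c‖ := by
      calc ‖z ^ 2‖ = ‖fq c z - c‖ := by simp [fq]
        _ ≤ _ := norm_sub_le _ _
    rw [norm_pow] at this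
    linarith
  have h2 := norm_nonneg z
  nlinarith [sq_nonneg (‖z‖ - 1)]

theorem isProper_fq (c : ℂ) : IsProperMap (fq c) := by
  have h := ((Polynomial.X ^ 2 + Polynomial.C c : Polynomial ℂ)).isProperMap_eval (by
    rw [Polynomial.degree_X_pow_add_C (by norm_num)]; norm_num)
  have h2 : (fun z => (Polynomial.X ^ 2 + Polynomial.C c : Polynomial ℂ).eval z) = fq c := by
    funext z; simp [fq]
  rwa [h2] at h

theorem isProper_iter (c : ℂ) (n : ℕ) : IsProperMap ((fq c)^[n]) := by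
  induction n with
  | zero => exact isProperMap_id
  | succ n ih =>
    rw [Function.iterate_succ']
    exact (isProper_fq c).comp ih

theorem isOpenMap_iter (c : ℂ) (n : ℕ) : IsOpenMap ((fq c)^[n]) := by
  induction n with
  | zero => exact IsOpenMap.id
  | succ n ih =>
    rw [Function.iterate_succ']
    exact (isOpenMap_fq c).comp ih

theorem image_component {g : ℂ → ℂ} (hg : IsProperMap g) (ho : IsOpenMap g) {D : Set ℂ}
    (hD : IsOpen D) (hDc : IsPreconnected D) {y : ℂ} (hy : g y ∈ D) :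
    g '' connectedComponentIn (g ⁻¹' D) y = D := by
  set A := connectedComponentIn (g ⁻¹' D) y with hA
  have hyA : y ∈ A := mem_connectedComponentIn hy
  have hAsub : A ⊆ g ⁻¹' D := connectedComponentIn_subset _ _
  apply Subset.antisymm
  · rintro _ ⟨x, hx, rfl⟩
    exact hAsub hx
  · have hAo : IsOpen A := (hD.preimage hg.continuous).connectedComponentIn
    refine hDc.subset_of_closure_inter_subset (ho A hAo) ⟨g y, hy, y, hyA, rfl⟩ ?_
    rintro b ⟨hb1, hb2⟩
    obtain ⟨a, ha, rfl⟩ := hg.isClosedMap.closure_image_subset A hb1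
    refine ⟨a, ?_, rfl⟩
    have h1 : IsPreconnected (insert a A) :=
      isPreconnected_connectedComponentIn.subset_closure (subset_insert _ _)
        (insert_subset ha subset_closure)
    have h2 : insert a A ⊆ A :=
      h1.subset_connectedComponentIn (mem_insert_of_mem _ hyA) (insert_subset hb2 hAsub)
    exact h2 (mem_insert _ _)

/-- `f^n` maps the component onto `D` (D open, preconnected). -/
theorem surj_CC {n : ℕ} {D : Set ℂ} {y : ℂ} (hD : IsOpen D) (hDc : IsPreconnected D)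
    (hy : (fq c)^[n] y ∈ D) : (fq c)^[n] '' CC c n D y = D :=
  image_component (isProper_iter c n) (isOpenMap_iter c n) hD hDc hy

theorem fq_CC_eq {n : ℕ} {D : Set ℂ} {y : ℂ} (hD : IsOpen D) (hy : (fq c)^[n+1] y ∈ D) :
    fq c '' CC c (n+1) D y = CC c n D (fq c y) := by
  rw [← CC_tower hy]
  exact image_component (isProper_fq c) (isOpenMap_fq c) (isOpen_CC hD) isPreconnected_CC
    (mem_CC (by rw [← Function.iterate_succ_apply]; exact hy))

/-- F3 -/
theorem small_of_image_small {Q : Set ℂ} (hQ : IsPreconnected Q) {η : ℝ} (hη : 0 ≤ η)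
    (h : ∀ a ∈ Q, ∀ b ∈ Q, ‖fq c a - fq c b‖ ≤ η) :
    ∀ a ∈ Q, ∀ b ∈ Q, ‖a - b‖ ≤ 3 * Real.sqrt η := by
  intro a ha b hb
  have hs := Real.sqrt_nonneg η
  have hs2 : Real.sqrt η * Real.sqrt η = η := Real.mul_self_sqrt hη
  have key : ∀ b ∈ Q, ‖a - b‖ ≤ Real.sqrt η ∨ ‖a + b‖ ≤ Real.sqrt η := by
    intro b hb
    by_contra hcon
    push Not at hcon
    have h1 := h a ha b hb
    have h2 : fq c a - fq c b = (a - b) * (a + b) := by simp only [fq]; ring
    rw [h2, norm_mul] at h1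
    have h3 := mul_lt_mul'' hcon.1 hcon.2 hs hs
    linarith
  rcases le_or_gt ‖a‖ (Real.sqrt η) with h1 | h1
  · rcases key b hb with h2 | h2
    · linarith
    · have h3 : ‖a - b‖ ≤ ‖a + b‖ + 2 * ‖a‖ := by
        have : a - b = -(a + b) + 2 * a := by ring
        calc ‖a - b‖ = ‖-(a + b) + 2 * a‖ := by rw [← this]
          _ ≤ ‖-(a+b)‖ + ‖2 * a‖ := norm_add_le _ _
          _ = _ := by rw [norm_neg, norm_mul]; simp
      linarith
  · set s := (Real.sqrt η + ‖a‖) / 2 with hsdef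
    have hss : Real.sqrt η < s := by rw [hsdef]; linarith
    have hsa : s < ‖a‖ := by rw [hsdef]; linarith
    have hsub : Q ⊆ ball a s := by
      refine hQ.subset_left_of_subset_union isOpen_ball isOpen_ball (v := ball (-a) s) ?_ ?_
        ⟨a, ha, mem_ball_self (by linarith)⟩
      · rw [Set.disjoint_left]
        intro x hx1 hx2
        rw [mem_ball, dist_eq_norm] at hx1 hx2
        have h4 : 2 * ‖a‖ ≤ ‖x - a‖ + ‖x - -a‖ := by
          have : (2:ℂ) * a = (x - -a) - (x - a) := by ring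
          calc 2 * ‖a‖ = ‖(2:ℂ) * a‖ := by rw [norm_mul]; simp
            _ = ‖(x - -a) - (x - a)‖ := by rw [this]
            _ ≤ ‖x - -a‖ + ‖x - a‖ := norm_sub_le _ _
            _ = _ := by ring
        linarith
      · intro x hx
        rcases key x hx with h2 | h2
        · left; rw [mem_ball, dist_comm, dist_eq_norm]; linarith
        · right
          rw [mem_ball, dist_eq_norm]
          have : x - -a = a + x := by ring
          rw [this]; linarith
    have h5 := hsub hb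
    rw [mem_ball, dist_comm, dist_eq_norm] at h5
    rcases key b hb with h2 | h2
    · linarith
    · exfalso
      have h4 : 2 * ‖a‖ ≤ ‖a - b‖ + ‖a + b‖ := by
        calc 2 * ‖a‖ = ‖(2:ℂ) * a‖ := by rw [norm_mul]; simp
          _ = ‖(a - b) + (a + b)‖ := by congr 1; ring
          _ ≤ ‖a - b‖ + ‖a + b‖ := norm_add_le _ _
      have : s + Real.sqrt η < 2 * ‖a‖ := by rw [hsdef]; linarith
      linarith

/-- The nonrecurrence hypothesis. -/
def NonRec (c : ℂ) (δ₀ : ℝ) : Prop :=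
  ∀ S : Set ℂ, IsPreconnected S → c ∈ S → ∀ k : ℕ, 1 ≤ k → (fq c)^[k] c ∈ S →
    (S ∩ JJ c).Nonempty ∧ ∃ a ∈ S, ∃ b ∈ S, δ₀ ≤ ‖a - b‖

theorem mane_of_not_nonRec (h : ∀ δ₀ > 0, ¬ NonRec c δ₀) : 
    (c ∈ JJ c → ∀ δ > 0, ∃ n ≥ 1, ‖(fq c)^[n] c - c‖ < δ) ∧
    (c ∉ JJ c → ∃ n ≥ 1, (fq c)^[n] c ∈ connectedComponentIn (JJ c)ᶜ c) := by
  constructor
  · intro hc δ hδ
    by_contra hcon
    push Not at hcon
    apply h δ hδ
    intro S hS hcS k hk hkS
    exact ⟨⟨c, hcS, hc⟩, _, hkS, c, hcS, hcon k hk⟩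
  · intro hc
    by_contra hcon
    push Not at hcon
    obtain ⟨δ, hδ, hb⟩ := Metric.isOpen_iff.mp (isClosed_JJ c).isOpen_compl c hc
    apply h δ hδ
    intro S hS hcS k hk hkS
    have h1 : (S ∩ JJ c).Nonempty := by
      by_contra h2
      rw [not_nonempty_iff_eq_empty] at h2
      have h3 : S ⊆ (JJ c)ᶜ := by
        intro x hx hxJ
        have : x ∈ S ∩ JJ c := ⟨hx, hxJ⟩
        rw [h2] at this
        exact this
      exact hcon k hk (hS.subset_connectedComponentIn hcS h3 hkS)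
    obtain ⟨x, hxS, hxJ⟩ := h1
    refine ⟨⟨x, hxS, hxJ⟩, x, hxS, c, hcS, ?_⟩
    by_contra h4
    push Not at h4
    have : x ∈ ball c δ := by rw [mem_ball, dist_eq_norm]; exact h4
    exact hb this hxJ

/-- Claim U: small discs centred on `J` blow up. -/
theorem claimU (hJ : (JJ c).Nonempty) {ρ : ℝ} (hρ : 0 < ρ) (M : ℝ) :
    ∃ N : ℕ, ∀ n ≥ N, ∀ y ∈ JJ c, ¬ ((fq c)^[n] '' ball y ρ ⊆ closedBall 0 M) := by
  have h1 : ∀ y ∈ JJ c, ∃ N : ℕ, ∀ n ≥ N, ∀ y' ∈ ball y (ρ/2),
      ¬ ((fq c)^[n] '' ball y' ρ ⊆ closedBall 0 M) := by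
    intro y hy
    have hcl : y ∈ closure (KJ c)ᶜ := by rw [closure_compl]; exact hy.2
    obtain ⟨z, hz, hzd⟩ := Metric.mem_closure_iff.mp hcl (ρ/2) (by positivity)
    obtain ⟨N, hN⟩ := ((tendsto_escape hz).eventually_gt_atTop M).exists_forall_of_atTop
    refine ⟨N, fun n hn y' hy' hsub => ?_⟩
    have h2 : z ∈ ball y' ρ := by
      rw [mem_ball] at hy' ⊢
      calc dist z y' ≤ dist z y + dist y y' := dist_triangle _ _ _
        _ < ρ/2 + ρ/2 := by
          apply add_lt_add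
          · rw [dist_comm]; exact hzd
          · rw [dist_comm]; exact hy'
        _ = ρ := by ring
    have h3 := hsub ⟨z, h2, rfl⟩
    rw [mem_closedBall_zero_iff] at h3
    linarith [hN n hn]
  choose! N hN using h1
  obtain ⟨t, ht, hcov⟩ := (isCompact_JJ c).elim_nhds_subcover (fun y => ball y (ρ/2))
    (fun y _ => ball_mem_nhds y (by positivity))
  refine ⟨t.sup N, fun n hn y hy => ?_⟩
  obtain ⟨x, hx, hyx⟩ := mem_iUnion₂.mp (hcov hy)
  exact hN x (ht x hx) n ((Finset.le_sup hx).trans hn) y hyx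

end Pool.Agent.H712R2.Cremer
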