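import Mathlib

set_option autoImplicit false
set_option linter.all false

/-!
Three lemmas about parametrised pull-backs of quadratic polynomials (written by helper803 for
helper712's module M): a distortion lemma for bounded univalent maps and the two steps
(without / with the critical value) of the inductive parametrisation of pull-backs.
-/

open Complex Set Metric Topology Filter

namespace Pool.Agent.H712R2.M

/-- A holomorphic injective function on an open set has non-vanishing derivative.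
(Proof copied from `Pool.Agent.Helper859.SP.T15`.) -/
lemma deriv_ne_zero_of_injOn' {f : ℂ → ℂ} {U : Set ℂ} (hU : IsOpen U)
    (hf : DifferentiableOn ℂ f U)
    (hinj : Set.InjOn f U) {z₀ : ℂ} (hz : z₀ ∈ U) : deriv f z₀ ≠ 0 := by
  intro h0
  have hfa : AnalyticAt ℂ f z₀ := hf.analyticAt (hU.mem_nhds hz)
  have hFa : AnalyticAt ℂ (fun z => f z - f z₀) z₀ := hfa.sub analyticAt_const
  have hne : ¬ ∀ᶠ z in 𝓝 z₀, f z - f z₀ = 0 := by
    intro h
    have h1 : ∀ᶠ z in 𝓝[≠] z₀, f z - f z₀ = 0 ∧ z ∈ U ∧ z ≠ z₀ := by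
      filter_upwards [h.filter_mono nhdsWithin_le_nhds,
        (hU.mem_nhds hz |> fun h => mem_nhdsWithin_of_mem_nhds h),
        self_mem_nhdsWithin] with z h1 h2 h3
      exact ⟨h1, h2, h3⟩
    obtain ⟨z, hz1, hz2, hz3⟩ := h1.exists
    exact hz3 (hinj hz2 hz (sub_eq_zero.mp hz1))
  obtain ⟨n, g, hga, hg0, hgeq⟩ := hFa.exists_eventuallyEq_pow_smul_nonzero_iff.mpr hne
  have hn0 : n ≠ 0 := by
    rintro rfl
    have := hgeq.self_of_nhds
    simp at this
    exact hg0 this.symm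
  have hn1 : n ≠ 1 := by
    rintro rfl
    have h1 : HasDerivAt (fun z => (z - z₀) ^ 1 • g z) (g z₀) z₀ := by
      have h2 := ((hasDerivAt_id z₀).sub_const z₀).mul hga.differentiableAt.hasDerivAt
      simpa using! h2
    have h3 : HasDerivAt (fun z => f z - f z₀) (g z₀) z₀ := h1.congr_of_eventuallyEq hgeq
    have h4 : HasDerivAt f (g z₀) z₀ := by simpa using h3.add_const (f z₀)
    rw [h4.deriv] at h0
    exact hg0 h0
  obtain ⟨c, hc⟩ := IsAlgClosed.exists_pow_nat_eq (g z₀) (Nat.pos_of_ne_zero hn0)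
  have hc0 : c ≠ 0 := by
    rintro rfl
    rw [zero_pow hn0] at hc
    exact hg0 hc.symm
  set h : ℂ → ℂ := fun z => c * (g z / g z₀) ^ (1 / (n : ℂ)) with hh
  have hslit : g z₀ / g z₀ ∈ Complex.slitPlane := by
    rw [div_self hg0]; exact Complex.one_mem_slitPlane
  have hha : AnalyticAt ℂ h z₀ := by
    apply analyticAt_const.mul
    exact (hga.div analyticAt_const hg0).cpow analyticAt_const hslit
  have hnC : (n : ℂ) ≠ 0 := by exact_mod_cast hn0
  have hhn : ∀ z, h z ^ n = g z := by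
    intro z
    rw [hh]
    simp only
    rw [mul_pow, hc, ← Complex.cpow_mul_nat]
    rw [one_div, inv_mul_cancel₀ hnC, Complex.cpow_one]
    field_simp
  have hh0 : h z₀ = c := by
    rw [hh]; simp [div_self hg0]
  set φ : ℂ → ℂ := fun z => (z - z₀) * h z with hφ
  have hφd : HasStrictDerivAt φ c z₀ := by
    have h1 : HasStrictDerivAt h (deriv h z₀) z₀ := hha.hasStrictDerivAt
    have h2 : HasStrictDerivAt (fun z : ℂ => z - z₀) 1 z₀ :=
      (hasStrictDerivAt_id z₀).sub_const z₀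
    have h3 := h2.mul h1
    rw [← hh0]
    simpa using! h3
  have hmap : map φ (𝓝 z₀) = 𝓝 0 := by
    have := hφd.map_nhds_eq hc0
    rw [this]
    congr 1
    rw [hφ]; simp
  have hV : ∀ᶠ z in 𝓝 z₀, z ∈ U ∧ f z - f z₀ = φ z ^ n := by
    filter_upwards [hU.mem_nhds hz, hgeq] with z h1 h2
    refine ⟨h1, ?_⟩
    rw [h2, hφ]
    simp only
    rw [mul_pow, hhn, smul_eq_mul]
  obtain ⟨V, hVm, hV2⟩ := hV.exists_mem
  have himg : φ '' V ∈ 𝓝 (0 : ℂ) := by
    rw [← hmap]
    exact image_mem_map hVm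
  set ζ : ℂ := Complex.exp (2 * Real.pi * I / n) with hζ
  have hprim : IsPrimitiveRoot ζ n := Complex.isPrimitiveRoot_exp n hn0
  have hζ1 : ζ ≠ 1 := hprim.ne_one (by omega)
  have hζn : ζ ^ n = 1 := hprim.pow_eq_one
  have hcont : Tendsto (fun w : ℂ => ζ * w) (𝓝 0) (𝓝 0) := by
    have : Continuous (fun w : ℂ => ζ * w) := by fun_prop
    simpa using this.tendsto 0
  have hboth : ∀ᶠ w in 𝓝[≠] (0 : ℂ), w ∈ φ '' V ∧ ζ * w ∈ φ '' V ∧ w ≠ 0 := by
    filter_upwards [mem_nhdsWithin_of_mem_nhds himg, mem_nhdsWithin_of_mem_nhds (hcont himg),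
      self_mem_nhdsWithin] with w h1 h2 h3
    exact ⟨h1, h2, h3⟩
  obtain ⟨w, ⟨z1, hz1, hw1⟩, ⟨z2, hz2, hw2⟩, hw0⟩ := hboth.exists
  have e1 := (hV2 z1 hz1).2
  have e2 := (hV2 z2 hz2).2
  rw [hw1] at e1
  rw [hw2, mul_pow, hζn, one_mul] at e2
  have e3 : f z1 = f z2 := by
    have : f z1 - f z₀ = f z2 - f z₀ := by rw [e1, e2]
    linear_combination this
  have e4 := hinj (hV2 z1 hz1).1 (hV2 z2 hz2).1 e3
  rw [← e4, hw1] at hw2
  apply hζ1
  have : (ζ - 1) * w = 0 := by linear_combination -hw2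
  rcases mul_eq_zero.mp this with h1 | h1
  · linear_combination h1
  · exact absurd h1 hw0

/-- Holomorphic logarithm on a ball, with prescribed value at the centre. -/
theorem exists_log_ball {g : ℂ → ℂ} {c : ℂ} {r : ℝ} (hr : 0 < r)
    (hg : DifferentiableOn ℂ g (ball c r)) (h0 : ∀ z ∈ ball c r, g z ≠ 0)
    (l₀ : ℂ) (hl₀ : Complex.exp l₀ = g c) :
    ∃ ℓ : ℂ → ℂ, DifferentiableOn ℂ ℓ (ball c r) ∧ ℓ c = l₀ ∧
      ∀ z ∈ ball c r, Complex.exp (ℓ z) = g z := by
  have hd : DifferentiableOn ℂ (fun z => deriv g z / g z) (ball c r) :=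
    (hg.deriv isOpen_ball).div hg h0
  obtain ⟨Φ, hΦ⟩ := hd.isExactOn_ball
  have hcm : c ∈ ball c r := mem_ball_self hr
  have hℓ : ∀ z ∈ ball c r, HasDerivAt (fun z => Φ z - Φ c + l₀) (deriv g z / g z) z := by
    intro z hz
    exact ((hΦ z hz).sub_const _).add_const _
  refine ⟨fun z => Φ z - Φ c + l₀, ?_, by simp, ?_⟩
  · intro z hz
    exact (hℓ z hz).differentiableAt.differentiableWithinAt
  · intro z hz
    have hgd : ∀ z ∈ ball c r, HasDerivAt g (deriv g z) z := by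
      intro z hz
      exact (hg.differentiableAt (isOpen_ball.mem_nhds hz)).hasDerivAt
    have hh : ∀ z ∈ ball c r,
        HasDerivAt (fun z => g z * Complex.exp (-(Φ z - Φ c + l₀))) 0 z := by
      intro z hz
      have h1 := (hgd z hz).mul ((hℓ z hz).neg.cexp)
      have h2 : deriv g z * Complex.exp (-(Φ z - Φ c + l₀))
          + g z * (Complex.exp (-(Φ z - Φ c + l₀)) * -(deriv g z / g z)) = 0 := by
        have := h0 z hz
        field_simp
        ring
      rw [← h2]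
      exact h1
    have hconst := isOpen_ball.is_const_of_deriv_eq_zero (convex_ball c r).isPreconnected
      (fun z hz => (hh z hz).differentiableAt.differentiableWithinAt)
      (fun z hz => (hh z hz).deriv) hz hcm
    simp only [sub_self, zero_add] at hconst
    rw [← hl₀, ← Complex.exp_add, add_neg_cancel, Complex.exp_zero] at hconst
    have h3 : Complex.exp (-(Φ z - Φ c + l₀)) ≠ 0 := Complex.exp_ne_zero _
    rw [Complex.exp_neg] at hconst
    have h4 : Complex.exp (Φ z - Φ c + l₀) ≠ 0 := Complex.exp_ne_zero _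
    field_simp at hconst
    exact hconst.symm

/-- The difference quotient of an injective holomorphic function does not vanish. -/
theorem dslope_ne_zero {Z : ℂ → ℂ} {U : Set ℂ} (hU : IsOpen U) (hd : DifferentiableOn ℂ Z U)
    (hi : InjOn Z U) {η₀ η : ℂ} (h₀ : η₀ ∈ U) (h : η ∈ U) : dslope Z η₀ η ≠ 0 := by
  rcases eq_or_ne η η₀ with rfl | hne
  · rw [dslope_same]
    exact deriv_ne_zero_of_injOn' hU hd hi h
  · rw [dslope_of_ne _ hne, slope_def_field]
    have h1 : Z η - Z η₀ ≠ 0 := by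
      intro h2
      exact hne (hi h h₀ (sub_eq_zero.mp h2))
    exact div_ne_zero h1 (sub_ne_zero.mpr hne)

theorem distortion (M s : ℝ) (hM : 0 < M) (hs : 0 < s) : ∃ ρ > 0, ∀ Z : ℂ → ℂ,
    DifferentiableOn ℂ Z (ball 0 1) → InjOn Z (ball 0 1) →
    (∀ η ∈ ball (0:ℂ) 1, ‖Z η‖ ≤ M) → ∀ η₀ η₁ : ℂ, ‖η₀‖ ≤ 1/4 → ‖η₁‖ ≤ 1/4 →
    s ≤ ‖Z η₁ - Z η₀‖ → ball (Z η₀) ρ ⊆ Z '' ball 0 1 := by
  set M' : ℝ := max 1 (Real.log (4 * M / (3 * s))) with hM'
  refine ⟨s * Real.exp (-(10 * M')) / 8, by positivity, ?_⟩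
  intro Z hd hi hb η₀ η₁ h₀ h₁ hs1
  have m₀ : η₀ ∈ ball (0:ℂ) 1 := by simp; linarith
  have m₁ : η₁ ∈ ball (0:ℂ) 1 := by simp; linarith
  have hsub : ∀ {a : ℂ}, ‖a‖ ≤ 1/4 → ball a (3/4) ⊆ ball (0:ℂ) 1 := by
    intro a ha z hz
    simp only [mem_ball, dist_eq_norm, sub_zero] at hz ⊢
    calc ‖z‖ = ‖(z - a) + a‖ := by ring_nf
      _ ≤ ‖z - a‖ + ‖a‖ := norm_add_le _ _
      _ < 1 := by linarith
  have hdiff : ∀ η ∈ ball (0:ℂ) 1, ‖Z η - Z η₀‖ ≤ 2 * M := by
    intro η hη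
    calc ‖Z η - Z η₀‖ ≤ ‖Z η‖ + ‖Z η₀‖ := norm_sub_le _ _
      _ ≤ 2 * M := by linarith [hb η hη, hb η₀ m₀]
  set Q := dslope Z η₀ with hQ
  have hQd : DifferentiableOn ℂ Q (ball 0 1) :=
    (Complex.differentiableOn_dslope (isOpen_ball.mem_nhds m₀)).mpr hd
  have hQne : ∀ η ∈ ball (0:ℂ) 1, Q η ≠ 0 := fun η hη => dslope_ne_zero isOpen_ball hd hi m₀ hη
  have hQb : ∀ η ∈ ball (0:ℂ) 1, ‖Q η‖ ≤ 2 * M / (3/4) := by
    intro η hη
    by_cases hη2 : η ∈ ball η₀ (3/4)
    · apply Complex.norm_dslope_le_div_of_mapsTo_ball (hd.mono (hsub h₀)) _ hη2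
      intro z hz
      rw [mem_closedBall, dist_eq_norm]
      exact hdiff z (hsub h₀ hz)
    · have hη3 : 3/4 ≤ ‖η - η₀‖ := by
        simpa [mem_ball, dist_eq_norm] using hη2
      have hne : η ≠ η₀ := by
        rintro rfl
        simp at hη3
        linarith
      rw [hQ, dslope_of_ne _ hne, slope_def_field, norm_div]
      have := hdiff η hη
      gcongr
  have hne10 : η₁ ≠ η₀ := by
    rintro rfl
    simp at hs1
    linarith
  have hQ1 : 2 * s ≤ ‖Q η₁‖ := by
    rw [hQ, dslope_of_ne _ hne10, slope_def_field, norm_div]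
    have h2 : ‖η₁ - η₀‖ ≤ 1/2 := by
      calc ‖η₁ - η₀‖ ≤ ‖η₁‖ + ‖η₀‖ := norm_sub_le _ _
        _ ≤ 1/2 := by linarith
    have h3 : 0 < ‖η₁ - η₀‖ := norm_pos_iff.mpr (sub_ne_zero.mpr hne10)
    rw [le_div_iff₀ h3]
    nlinarith
  obtain ⟨l, hld, hl0, hl⟩ := exists_log_ball (c := η₁) (r := 3/4) (by norm_num)
    (hQd.mono (hsub h₁)) (fun z hz => hQne z (hsub h₁ hz)) (Complex.log (Q η₁))
    (Complex.exp_log (hQne η₁ m₁))
  have hre : ∀ z ∈ ball η₁ (3/4), ‖Q z‖ = Real.exp (l z).re := by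
    intro z hz
    rw [← hl z hz, Complex.norm_exp]
  have hmem : ∀ ζ : ℂ, ζ ∈ ball (0:ℂ) (3/4) → η₁ + ζ ∈ ball η₁ (3/4) := by
    intro ζ hζ
    simpa [mem_ball, dist_eq_norm] using hζ
  set f : ℂ → ℂ := fun ζ => l (η₁ + ζ) - l η₁ with hf
  have hfd : DifferentiableOn ℂ f (ball 0 (3/4)) := by
    apply DifferentiableOn.sub_const
    apply hld.comp (by fun_prop)
    intro ζ hζ
    exact hmem ζ hζ
  have m11 : η₁ ∈ ball η₁ (3/4) := mem_ball_self (by norm_num)
  have hM'0 : 0 < M' := lt_of_lt_of_le one_pos (le_max_left _ _)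
  have hfM : MapsTo f (ball 0 (3/4)) {z | z.re ≤ M'} := by
    intro ζ hζ
    have h1 := hre _ (hmem ζ hζ)
    have h2 := hre _ m11
    have h3 := hQb _ (hsub h₁ (hmem ζ hζ))
    have h4 : (f ζ).re = Real.log (‖Q (η₁ + ζ)‖ / ‖Q η₁‖) := by
      rw [h1, h2, ← Real.exp_sub, Real.log_exp, hf]
      simp
    simp only [mem_setOf_eq]
    rw [h4]
    refine le_trans ?_ (le_max_right _ _)
    have h5 : 0 < ‖Q (η₁ + ζ)‖ := norm_pos_iff.mpr (hQne _ (hsub h₁ (hmem ζ hζ)))
    have h6 : 0 < ‖Q η₁‖ := lt_of_lt_of_le (by positivity) hQ1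
    apply Real.log_le_log (by positivity)
    calc ‖Q (η₁ + ζ)‖ / ‖Q η₁‖ ≤ (2 * M / (3/4)) / (2 * s) := by gcongr
      _ = 4 * M / (3 * s) := by field_simp
  have hf0 : f 0 = 0 := by simp [hf]
  have hBC : ∀ ζ : ℂ, ‖ζ‖ ≤ 5/8 → ‖f ζ‖ ≤ 10 * M' := by
    intro ζ hζ
    have hζm : ζ ∈ ball (0:ℂ) (3/4) := by simp; linarith
    have h1 := Complex.borelCaratheodory_zero hM'0 hfd hfM (by norm_num) hζm hf0
    refine h1.trans ?_
    have h2 : 0 < 3/4 - ‖ζ‖ := by linarith
    rw [div_le_iff₀ h2]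
    nlinarith
  have hlow : ∀ η : ℂ, ‖η - η₁‖ ≤ 5/8 → 2 * s * Real.exp (-(10 * M')) ≤ ‖Q η‖ := by
    intro η hη
    have hζm : η - η₁ ∈ ball (0:ℂ) (3/4) := by simp; linarith
    have h1 := hre _ (hmem _ hζm)
    have h2 := hre _ m11
    have h3 := hBC _ hη
    have h4 : (f (η - η₁)).re = (l η).re - (l η₁).re := by simp [hf]
    have h5 : -(10 * M') ≤ (f (η - η₁)).re :=
      (neg_le_neg h3).trans (neg_le_of_abs_le (Complex.abs_re_le_norm _))
    have h6 : η₁ + (η - η₁) = η := by ring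
    rw [h6] at h1
    rw [h1]
    have h7 : (l η).re = (l η₁).re + (f (η - η₁)).re := by rw [h4]; ring
    rw [h7, Real.exp_add, ← h2]
    have h8 : Real.exp (-(10 * M')) ≤ Real.exp (f (η - η₁)).re := Real.exp_le_exp.mpr h5
    gcongr
  have hDC : DiffContOnCl ℂ Z (ball η₀ (1/8)) := by
    apply DifferentiableOn.diffContOnCl
    apply hd.mono
    intro z hz
    apply hsub h₀
    rw [closure_ball _ (by norm_num)] at hz
    simp only [mem_closedBall, mem_ball] at hz ⊢
    linarith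
  have hsph : ∀ z ∈ sphere η₀ (1/8), s * Real.exp (-(10 * M')) / 4 ≤ ‖Z z - Z η₀‖ := by
    intro z hz
    have hz2 : ‖z - η₀‖ = 1/8 := by simpa [mem_sphere, dist_eq_norm] using hz
    have hne : z ≠ η₀ := by
      rintro rfl
      simp at hz2
    have h1 : ‖z - η₁‖ ≤ 5/8 := by
      calc ‖z - η₁‖ = ‖(z - η₀) + (η₀ - η₁)‖ := by ring_nf
        _ ≤ ‖z - η₀‖ + ‖η₀ - η₁‖ := norm_add_le _ _
        _ ≤ ‖z - η₀‖ + (‖η₀‖ + ‖η₁‖) := by gcongr; exact norm_sub_le _ _
        _ ≤ 5/8 := by rw [hz2]; linarith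
    have h2 := hlow z h1
    rw [hQ, dslope_of_ne _ hne, slope_def_field, norm_div, hz2] at h2
    have h3 : ‖Z z - Z η₀‖ / (1/8) = 8 * ‖Z z - Z η₀‖ := by ring
    rw [h3] at h2
    linarith
  have hfreq : ∃ᶠ z in 𝓝 η₀, Z z ≠ Z η₀ := by
    have h1 : ∀ᶠ z in 𝓝[≠] η₀, Z z ≠ Z η₀ := by
      filter_upwards [mem_nhdsWithin_of_mem_nhds (isOpen_ball.mem_nhds m₀),
        self_mem_nhdsWithin] with z hz1 hz2
      intro h
      exact hz2 (hi hz1 m₀ h)
    exact (h1.frequently).filter_mono nhdsWithin_le_nhds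
  have hfin := hDC.ball_subset_image_closedBall (by norm_num) hsph hfreq
  have hr : s * Real.exp (-(10 * M')) / 8 = s * Real.exp (-(10 * M')) / 4 / 2 := by ring
  rw [hr]
  refine hfin.trans (image_mono ?_)
  intro z hz
  apply hsub h₀
  simp only [mem_closedBall, mem_ball] at hz ⊢
  linarith

/-- `Z` is a holomorphic injective parametrisation of `W` by the unit disc, `Z 0 = y`. -/
def Par (W : Set ℂ) (y : ℂ) (Z : ℂ → ℂ) : Prop :=
  DifferentiableOn ℂ Z (ball 0 1) ∧ InjOn Z (ball 0 1) ∧ Z 0 = y ∧ Z '' ball 0 1 = W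

/-- The image of a ball under an injective holomorphic map is open. -/
theorem isOpen_image_of_injOn {σ : ℂ → ℂ} (hd : DifferentiableOn ℂ σ (ball 0 1))
    (hi : InjOn σ (ball 0 1)) : IsOpen (σ '' ball 0 1) := by
  have ha : AnalyticOnNhd ℂ σ (ball 0 1) := hd.analyticOnNhd isOpen_ball
  rcases ha.is_constant_or_isOpen (convex_ball (0:ℂ) 1).isPreconnected with h | h
  · exfalso
    obtain ⟨w, hw⟩ := h
    have h1 : (0:ℂ) ∈ ball (0:ℂ) 1 := mem_ball_self one_pos
    have h2 : (1/2:ℂ) ∈ ball (0:ℂ) 1 := by simp; norm_num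
    have := hi h1 h2 ((hw _ h1).trans (hw _ h2).symm)
    norm_num at this
  · exact h _ subset_rfl isOpen_ball

theorem par_nopass (c : ℂ) {W : Set ℂ} {x y : ℂ} {Z : ℂ → ℂ} (h : Par W y Z) (hc : c ∉ W)
    (hx : x ^ 2 + c = y) :
    ∃ Z', Par (connectedComponentIn ((fun z => z ^ 2 + c) ⁻¹' W) x) x Z' ∧
      ∀ η ∈ ball (0:ℂ) 1, (Z' η) ^ 2 + c = Z η := by
  obtain ⟨hd, hi, h0, hW⟩ := h
  have m0 : (0:ℂ) ∈ ball (0:ℂ) 1 := mem_ball_self one_pos
  have hgne : ∀ η ∈ ball (0:ℂ) 1, Z η - c ≠ 0 := by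
    intro η hη h1
    apply hc
    rw [← sub_eq_zero.mp h1, ← hW]
    exact mem_image_of_mem _ hη
  have hx2 : x ^ 2 = Z 0 - c := by rw [h0, ← hx]; ring
  have hx0 : x ≠ 0 := by
    rintro rfl
    apply hgne 0 m0
    rw [← hx2]; ring
  obtain ⟨l, hld, hl0, hl⟩ := exists_log_ball (g := fun η => Z η - c) (c := 0) (r := 1)
    one_pos (hd.sub_const c) hgne (2 * Complex.log x) (by
      rw [two_mul, Complex.exp_add, Complex.exp_log hx0, ← hx2]; ring)
  set σ : ℂ → ℂ := fun η => Complex.exp (l η / 2) with hσ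
  have hσ2 : ∀ η ∈ ball (0:ℂ) 1, (σ η) ^ 2 = Z η - c := by
    intro η hη
    rw [← hl η hη, hσ]
    simp only
    rw [← Complex.exp_nat_mul]
    congr 1
    push_cast
    ring
  have hσd : DifferentiableOn ℂ σ (ball 0 1) := (hld.div_const 2).cexp
  have hσ0 : σ 0 = x := by
    rw [hσ]
    simp only
    rw [hl0, mul_div_cancel_left₀ _ (two_ne_zero), Complex.exp_log hx0]
  have hσne : ∀ η, σ η ≠ 0 := fun η => Complex.exp_ne_zero _
  have hinj2 : ∀ a ∈ ball (0:ℂ) 1, ∀ b ∈ ball (0:ℂ) 1, (σ a) ^ 2 = (σ b) ^ 2 → a = b := by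
    intro a ha b hb hab
    rw [hσ2 a ha, hσ2 b hb] at hab
    exact hi ha hb (sub_left_injective hab)
  have hσi : InjOn σ (ball 0 1) := by
    intro a ha b hb hab
    exact hinj2 a ha b hb (by rw [hab])
  have hopen : IsOpen (σ '' ball 0 1) := isOpen_image_of_injOn hσd hσi
  have hopen2 : IsOpen ((fun η => -σ η) '' ball 0 1) := by
    apply isOpen_image_of_injOn hσd.neg
    intro a ha b hb hab
    exact hσi ha hb (neg_injective hab)
  have hdisj : Disjoint (σ '' ball 0 1) ((fun η => -σ η) '' ball 0 1) := by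
    rw [Set.disjoint_left]
    rintro z ⟨a, ha, rfl⟩ ⟨b, hb, hab⟩
    simp only at hab
    have := hinj2 a ha b hb (by rw [← hab]; ring)
    subst this
    have h2 : σ a = 0 := by
      have : 2 * σ a = 0 := by linear_combination -hab
      simpa using this
    exact hσne a h2
  set P := (fun z : ℂ => z ^ 2 + c) ⁻¹' W with hP
  have hPsub : P ⊆ (σ '' ball 0 1) ∪ ((fun η => -σ η) '' ball 0 1) := by
    intro z hz
    have hz2 : z ^ 2 + c ∈ W := hz
    rw [← hW] at hz2
    obtain ⟨η, hη, hη2⟩ := hz2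
    have h3 : z ^ 2 = (σ η) ^ 2 := by rw [hσ2 η hη, hη2]; ring
    rcases sq_eq_sq_iff_eq_or_eq_neg.mp h3 with h4 | h4
    · left; exact ⟨η, hη, h4.symm⟩
    · right; exact ⟨η, hη, h4.symm⟩
  have hsubP : σ '' ball 0 1 ⊆ P := by
    rintro z ⟨η, hη, rfl⟩
    show (σ η) ^ 2 + c ∈ W
    rw [hσ2 η hη, sub_add_cancel, ← hW]
    exact mem_image_of_mem _ hη
  have hxim : x ∈ σ '' ball 0 1 := ⟨0, m0, hσ0⟩
  have hxP : x ∈ P := hsubP hxim
  refine ⟨σ, ⟨hσd, hσi, hσ0, ?_⟩, ?_⟩
  · apply Subset.antisymm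
    · exact ((convex_ball (0:ℂ) 1).isPreconnected.image σ
        hσd.continuousOn).subset_connectedComponentIn hxim hsubP
    · have h1 := IsPreconnected.subset_or_subset hopen hopen2 hdisj
        ((connectedComponentIn_subset P x).trans hPsub) isPreconnected_connectedComponentIn
      rcases h1 with h1 | h1
      · exact h1
      · exfalso
        have h2 := h1 (mem_connectedComponentIn hxP)
        exact (Set.disjoint_left.mp hdisj) hxim h2
  · intro η hη
    rw [hσ2 η hη]; ring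

/-- The Moebius map `w ↦ (w+e)/(1+conj e w)`. -/
noncomputable def mob (e w : ℂ) : ℂ := (w + e) / (1 + (starRingEnd ℂ) e * w)

theorem mob_den_ne {e w : ℂ} (he : ‖e‖ < 1) (hw : ‖w‖ < 1) :
    1 + (starRingEnd ℂ) e * w ≠ 0 := by
  intro h
  have h1 : (starRingEnd ℂ) e * w = -1 := by linear_combination h
  have h2 : ‖(starRingEnd ℂ) e * w‖ = 1 := by rw [h1]; simp
  rw [norm_mul, RCLike.norm_conj] at h2
  nlinarith [norm_nonneg e, norm_nonneg w]

theorem mob_norm_lt {e w : ℂ} (he : ‖e‖ < 1) (hw : ‖w‖ < 1) : ‖mob e w‖ < 1 := by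
  have hne := mob_den_ne he hw
  rw [mob, norm_div, div_lt_one (norm_pos_iff.mpr hne)]
  have h1 : ‖w + e‖ ^ 2 < ‖1 + (starRingEnd ℂ) e * w‖ ^ 2 := by
    have he2 : e.re ^ 2 + e.im ^ 2 < 1 := by
      have := Complex.sq_norm e
      rw [Complex.normSq_apply] at this
      nlinarith [norm_nonneg e]
    have hw2 : w.re ^ 2 + w.im ^ 2 < 1 := by
      have := Complex.sq_norm w
      rw [Complex.normSq_apply] at this
      nlinarith [norm_nonneg w]
    rw [Complex.sq_norm, Complex.sq_norm, Complex.normSq_apply, Complex.normSq_apply]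
    simp only [add_re, add_im, mul_re, mul_im, one_re, one_im, conj_re, conj_im]
    nlinarith [mul_pos (sub_pos.mpr he2) (sub_pos.mpr hw2)]
  exact lt_of_pow_lt_pow_left₀ 2 (norm_nonneg _) h1

theorem mob_mem {e w : ℂ} (he : e ∈ ball (0:ℂ) 1) (hw : w ∈ ball (0:ℂ) 1) :
    mob e w ∈ ball (0:ℂ) 1 := by
  simp only [mem_ball, dist_zero_right] at *
  exact mob_norm_lt he hw

theorem mob_neg_mob {e w : ℂ} (he : ‖e‖ < 1) (hw : ‖w‖ < 1) : mob (-e) (mob e w) = w := by
  have hne := mob_den_ne he hw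
  have hne2 : 1 - (starRingEnd ℂ) e * ((w + e) / (1 + (starRingEnd ℂ) e * w)) ≠ 0 := by
    have := mob_den_ne (e := -e) (w := mob e w) (by simpa using he) (mob_norm_lt he hw)
    intro h
    apply this
    rw [map_neg, mob]
    linear_combination h
  have he1 : 1 - (starRingEnd ℂ) e * e ≠ 0 := by
    have := mob_den_ne (e := -e) (w := e) (by simpa using he) he
    intro h
    apply this
    rw [map_neg]
    linear_combination h
  rw [mob, mob, map_neg]
  have h3 : 1 + -(starRingEnd ℂ) e * ((w + e) / (1 + (starRingEnd ℂ) e * w)) ≠ 0 := by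
    intro h
    apply hne2
    linear_combination h
  rw [div_eq_iff h3]
  have ht : (w + e) / (1 + (starRingEnd ℂ) e * w) * (1 + (starRingEnd ℂ) e * w) = w + e :=
    div_mul_cancel₀ _ hne
  generalize (w + e) / (1 + (starRingEnd ℂ) e * w) = t at ht ⊢
  linear_combination ht

theorem mob_zero (e : ℂ) : mob e 0 = e := by simp [mob]

theorem mob_differentiableOn {e : ℂ} (he : ‖e‖ < 1) :
    DifferentiableOn ℂ (mob e) (ball 0 1) := by
  have : mob e = fun w => (w + e) / (1 + (starRingEnd ℂ) e * w) := rfl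
  rw [this]
  apply DifferentiableOn.div (by fun_prop) (by fun_prop)
  intro w hw
  exact mob_den_ne he (by simpa using hw)

theorem mob_injOn {e : ℂ} (he : ‖e‖ < 1) : InjOn (mob e) (ball 0 1) := by
  intro a ha b hb hab
  rw [← mob_neg_mob he (w := a) (by simpa using ha), hab, mob_neg_mob he (by simpa using hb)]

theorem mob_image {e : ℂ} (he : ‖e‖ < 1) : mob e '' ball 0 1 = ball 0 1 := by
  apply Subset.antisymm
  · rintro _ ⟨w, hw, rfl⟩
    exact mob_mem (by simpa using he) hw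
  · intro w hw
    refine ⟨mob (-e) w, mob_mem (by simpa using he) hw, ?_⟩
    have := mob_neg_mob (e := -e) (w := w) (by simpa using he) (by simpa using hw)
    rwa [neg_neg] at this

theorem par_pass (c : ℂ) {W : Set ℂ} {x y : ℂ} {Z : ℂ → ℂ} (h : Par W y Z) (hc : c ∈ W)
    (hx : x ^ 2 + c = y) :
    ∃ Z' a, ‖a‖ ≤ 1 ∧ Par (connectedComponentIn ((fun z => z ^ 2 + c) ⁻¹' W) x) x Z' ∧
      ∀ η ∈ ball (0:ℂ) 1,
        (Z' η) ^ 2 + c = Z (η * (η + a) / (1 + (starRingEnd ℂ) a * η)) := by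
  obtain ⟨hd, hi, h0, hW⟩ := h
  have m0 : (0:ℂ) ∈ ball (0:ℂ) 1 := mem_ball_self one_pos
  obtain ⟨e, he, hec⟩ : c ∈ Z '' ball 0 1 := by rw [hW]; exact hc
  have he1 : ‖e‖ < 1 := by simpa using he
  set F : ℂ → ℂ := fun w => Z (mob e w) with hF
  have hmaps : MapsTo (mob e) (ball 0 1) (ball 0 1) := fun w hw => mob_mem he hw
  have hFd : DifferentiableOn ℂ F (ball 0 1) := hd.comp (mob_differentiableOn he1) hmaps
  have hFi : InjOn F (ball 0 1) := hi.comp (mob_injOn he1) hmaps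
  have hF0 : F 0 = c := by rw [hF]; simp only; rw [mob_zero, hec]
  set k := dslope F 0 with hk
  have hkd : DifferentiableOn ℂ k (ball 0 1) :=
    (Complex.differentiableOn_dslope (isOpen_ball.mem_nhds m0)).mpr hFd
  have hkne : ∀ w ∈ ball (0:ℂ) 1, k w ≠ 0 := fun w hw => dslope_ne_zero isOpen_ball hFd hFi m0 hw
  have hkF : ∀ w, w * k w = F w - c := by
    intro w
    have := sub_smul_dslope F 0 w
    rw [sub_zero, smul_eq_mul, hF0] at this
    exact this
  obtain ⟨l, hld, -, hl⟩ := exists_log_ball (g := k) (c := 0) (r := 1)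
    one_pos hkd hkne (Complex.log (k 0)) (Complex.exp_log (hkne 0 m0))
  have hsq : MapsTo (fun η : ℂ => η ^ 2) (ball 0 1) (ball 0 1) := by
    intro η hη
    simp only [mem_ball, dist_zero_right, norm_pow] at *
    exact pow_lt_one₀ (norm_nonneg _) hη (by norm_num)
  set σ : ℂ → ℂ := fun η => η * Complex.exp (l (η ^ 2) / 2) with hσ
  have hσ2 : ∀ η ∈ ball (0:ℂ) 1, (σ η) ^ 2 = F (η ^ 2) - c := by
    intro η hη
    rw [← hkF, ← hl _ (hsq hη), hσ]
    simp only
    rw [mul_pow, ← Complex.exp_nat_mul]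
    congr 2
    push_cast
    ring
  have hσd : DifferentiableOn ℂ σ (ball 0 1) := by
    apply DifferentiableOn.mul differentiableOn_id
    apply DifferentiableOn.cexp
    apply DifferentiableOn.div_const
    exact hld.comp (by fun_prop) hsq
  have hσodd : ∀ η, σ (-η) = -σ η := by
    intro η
    rw [hσ]
    simp only
    rw [neg_sq]
    ring
  have hσzero : ∀ η, σ η = 0 → η = 0 := by
    intro η hη
    rcases mul_eq_zero.mp hη with h1 | h1
    · exact h1
    · exact absurd h1 (Complex.exp_ne_zero _)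
  have hσi : InjOn σ (ball 0 1) := by
    intro a ha b hb hab
    have h1 : F (a ^ 2) = F (b ^ 2) := by
      have h2 := hσ2 a ha
      have h3 := hσ2 b hb
      rw [hab, h3] at h2
      exact (sub_left_injective h2).symm
    have h2 := hFi (hsq ha) (hsq hb) h1
    rcases sq_eq_sq_iff_eq_or_eq_neg.mp h2 with h3 | h3
    · exact h3
    · subst h3
      rw [hσodd] at hab
      have h4 : σ b = 0 := by
        have : 2 * σ b = 0 := by linear_combination -hab
        simpa using this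
      rw [hσzero b h4]; simp
  set P := (fun z : ℂ => z ^ 2 + c) ⁻¹' W with hP
  have hPeq : P = σ '' ball 0 1 := by
    apply Subset.antisymm
    · intro z hz
      have hz2 : z ^ 2 + c ∈ W := hz
      rw [← hW, ← mob_image he1] at hz2
      obtain ⟨_, ⟨w, hw, rfl⟩, hη2⟩ := hz2
      obtain ⟨η, hη⟩ := IsAlgClosed.exists_pow_nat_eq w (n := 2) (by norm_num)
      have hηm : η ∈ ball (0:ℂ) 1 := by
        simp only [mem_ball, dist_zero_right] at hw ⊢
        rw [← hη, norm_pow] at hw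
        by_contra hcon
        push Not at hcon
        nlinarith
      have h3 : z ^ 2 = (σ η) ^ 2 := by
        rw [hσ2 η hηm, hη, hF]
        simp only
        rw [hη2]; ring
      rcases sq_eq_sq_iff_eq_or_eq_neg.mp h3 with h4 | h4
      · exact ⟨η, hηm, h4.symm⟩
      · refine ⟨-η, by simpa using hηm, ?_⟩
        rw [hσodd, h4]
    · rintro z ⟨η, hη, rfl⟩
      show (σ η) ^ 2 + c ∈ W
      rw [hσ2 η hη, sub_add_cancel, ← hW]
      exact mem_image_of_mem _ (hmaps (hsq hη))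
  have hxP : x ∈ P := by
    show x ^ 2 + c ∈ W
    rw [hx, ← h0, ← hW]
    exact mem_image_of_mem _ m0
  have hcomp : connectedComponentIn P x = P := by
    apply Subset.antisymm (connectedComponentIn_subset P x)
    apply IsPreconnected.subset_connectedComponentIn _ hxP subset_rfl
    rw [hPeq]
    exact (convex_ball (0:ℂ) 1).isPreconnected.image σ hσd.continuousOn
  have hxP2 := hxP
  rw [hPeq] at hxP2
  obtain ⟨s, hs, hsx⟩ := hxP2
  have hs1 : ‖s‖ < 1 := by simpa using hs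
  have hse : e = -s ^ 2 := by
    have h1 := hσ2 s hs
    rw [hsx, hF] at h1
    simp only at h1
    have h2 : Z (mob e (s ^ 2)) = Z 0 := by
      rw [h0, ← hx, h1]; ring
    have h3 := hi (hmaps (hsq hs)) m0 h2
    have h4 := mob_den_ne he1 (w := s ^ 2) (by simpa using hsq hs)
    rw [mob, div_eq_zero_iff] at h3
    rcases h3 with h3 | h3
    · linear_combination h3
    · exact absurd h3 h4
  refine ⟨fun η => σ (mob s η), 2 * s / (1 + (starRingEnd ℂ) s * s), ?_, ⟨?_, ?_, ?_, ?_⟩, ?_⟩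
  · have h1 : (starRingEnd ℂ) s * s = ((‖s‖ ^ 2 : ℝ) : ℂ) := by
      rw [Complex.conj_mul']; push_cast; rfl
    have h2 : ‖(1 : ℂ) + (starRingEnd ℂ) s * s‖ = 1 + ‖s‖ ^ 2 := by
      rw [h1]
      rw [← Complex.ofReal_one, ← Complex.ofReal_add, Complex.norm_real, Real.norm_eq_abs,
        abs_of_pos (by positivity)]
    rw [norm_div, h2, div_le_one (by positivity), norm_mul]
    simp only [Complex.norm_ofNat]
    nlinarith [sq_nonneg (‖s‖ - 1)]
  · exact hσd.comp (mob_differentiableOn hs1) (fun w hw => mob_mem hs hw)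
  · exact hσi.comp (mob_injOn hs1) (fun w hw => mob_mem hs hw)
  · simp only
    rw [mob_zero, hsx]
  · rw [hcomp, hPeq]
    have : (fun η => σ (mob s η)) '' ball 0 1 = σ '' (mob s '' ball 0 1) := by
      rw [image_image]
    rw [this, mob_image hs1]
  · intro η hη
    have hη1 : ‖η‖ < 1 := by simpa using hη
    have hm : mob s η ∈ ball (0:ℂ) 1 := mob_mem hs hη
    simp only
    rw [hσ2 _ hm, sub_add_cancel, hF]
    simp only
    congr 1
    have d1 := mob_den_ne hs1 hη1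
    have d2 := mob_den_ne he1 (w := (mob s η) ^ 2) (by simpa using hsq hm)
    have d3 : 1 + (starRingEnd ℂ) s * s ≠ 0 := mob_den_ne hs1 hs1
    have d4 : 1 - (starRingEnd ℂ) s * s ≠ 0 := by
      have := mob_den_ne (e := -s) (w := s) (by simpa using hs1) hs1
      intro h
      apply this
      rw [map_neg]
      linear_combination h
    have hconja : (starRingEnd ℂ) (2 * s / (1 + (starRingEnd ℂ) s * s))
        = 2 * (starRingEnd ℂ) s / (1 + (starRingEnd ℂ) s * s) := by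
      rw [map_div₀, map_mul, map_add, map_mul, Complex.conj_conj, map_one, map_ofNat,
        mul_comm s]
    have d5 : 1 + (starRingEnd ℂ) (2 * s / (1 + (starRingEnd ℂ) s * s)) * η ≠ 0 := by
      rw [hconja]
      have ha : ‖2 * (starRingEnd ℂ) s / (1 + (starRingEnd ℂ) s * s)‖ ≤ 1 := by
        have h1 : (starRingEnd ℂ) s * s = ((‖s‖ ^ 2 : ℝ) : ℂ) := by
          rw [Complex.conj_mul']; push_cast; rfl
        have h2 : ‖(1 : ℂ) + (starRingEnd ℂ) s * s‖ = 1 + ‖s‖ ^ 2 := by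
          rw [h1]
          rw [← Complex.ofReal_one, ← Complex.ofReal_add, Complex.norm_real, Real.norm_eq_abs,
            abs_of_pos (by positivity)]
        rw [norm_div, h2, div_le_one (by positivity), norm_mul, RCLike.norm_conj]
        simp only [Complex.norm_ofNat]
        nlinarith [sq_nonneg (‖s‖ - 1)]
      intro h
      have h3 : ‖(2 * (starRingEnd ℂ) s / (1 + (starRingEnd ℂ) s * s)) * η‖ = 1 := by
        have : (2 * (starRingEnd ℂ) s / (1 + (starRingEnd ℂ) s * s)) * η = -1 := by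
          linear_combination h
        rw [this]; simp
      rw [norm_mul] at h3
      nlinarith [norm_nonneg η, norm_nonneg (2 * (starRingEnd ℂ) s / (1 + (starRingEnd ℂ) s * s))]
    have ht : mob s η * (1 + (starRingEnd ℂ) s * η) = η + s := div_mul_cancel₀ _ d1
    have hce : (starRingEnd ℂ) e = -((starRingEnd ℂ) s) ^ 2 := by
      rw [hse, map_neg, map_pow]
    rw [hconja] at d5 ⊢
    rw [hce] at d2
    rw [mob, hce, div_eq_div_iff d2 d5, hse]
    generalize mob s η = t at ht ⊢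
    generalize (starRingEnd ℂ) s = S at *
    have d6 : (1 + S * η) ^ 2 * (1 + S * s) ≠ 0 := mul_ne_zero (pow_ne_zero 2 d1) d3
    apply mul_right_cancel₀ d6
    have ht2 : t ^ 2 * (1 + S * η) ^ 2 = (η + s) ^ 2 := by rw [← ht]; ring
    have ha : 2 * s / (1 + S * s) * (1 + S * s) = 2 * s := div_mul_cancel₀ _ d3
    have hb : 2 * S / (1 + S * s) * (1 + S * s) = 2 * S := div_mul_cancel₀ _ d3
    generalize 2 * s / (1 + S * s) = a at ha ⊢
    generalize 2 * S / (1 + S * s) = b at hb ⊢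
    have e1 : (t ^ 2 + -s ^ 2) * (1 + b * η) * ((1 + S * η) ^ 2 * (1 + S * s))
        = ((η + s) ^ 2 - s ^ 2 * (1 + S * η) ^ 2) * ((1 + S * s) + 2 * S * η) := by
      linear_combination ((1 + b * η) * (1 + S * s)) * ht2
        + ((η + s) ^ 2 - s ^ 2 * (1 + S * η) ^ 2) * η * hb
    have e2 : η * (η + a) * (1 + -S ^ 2 * t ^ 2) * ((1 + S * η) ^ 2 * (1 + S * s))
        = η * (η * (1 + S * s) + 2 * s) * ((1 + S * η) ^ 2 - S ^ 2 * (η + s) ^ 2) := by
      linear_combination (-(S ^ 2) * η * (η + a) * (1 + S * s)) * ht2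
        + (η * ((1 + S * η) ^ 2 - S ^ 2 * (η + s) ^ 2)) * ha
    rw [e1, e2]
    ring

end Pool.Agent.H712R2.M
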