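import Pool.Agent.H712R2.ManeComp
import Pool.Agent.H712R2.Par

set_option autoImplicit false

open Complex Set Topology Filter Metric

namespace Pool.Agent.H712R2.Cremer

open Pool.Agent.H712R2.M

variable {c : ℂ}

/-- Blaschke factor -/
noncomputable def bet (a η : ℂ) : ℂ := η * (η + a) / (1 + (starRingEnd ℂ) a * η)

theorem den_ne {a η : ℂ} (ha : ‖a‖ ≤ 1) (hη : ‖η‖ < 1) : 1 + (starRingEnd ℂ) a * η ≠ 0 := by
  intro h
  have h1 : ‖(starRingEnd ℂ) a * η‖ = 1 := by
    have : (starRingEnd ℂ) a * η = -1 := by linear_combination h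
    rw [this]; simp
  rw [norm_mul, RCLike.norm_conj] at h1
  have := norm_nonneg η
  nlinarith [norm_nonneg a]

/-- `‖η + a‖ ≤ ‖1 + conj a η‖`. -/
theorem norm_add_le_den {a η : ℂ} (ha : ‖a‖ ≤ 1) (hη : ‖η‖ < 1) :
    ‖η + a‖ ≤ ‖1 + (starRingEnd ℂ) a * η‖ := by
  rw [← sq_le_sq₀ (norm_nonneg _) (norm_nonneg _)]
  have h1 : ‖η + a‖ ^ 2 = ‖η‖ ^ 2 + ‖a‖ ^ 2 + 2 * (η * (starRingEnd ℂ) a).re := by
    rw [Complex.sq_norm, Complex.normSq_add, Complex.sq_norm, Complex.sq_norm]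
  have h2 : ‖1 + (starRingEnd ℂ) a * η‖ ^ 2 = 1 + ‖a‖ ^ 2 * ‖η‖ ^ 2 + 2 * (η * (starRingEnd ℂ) a).re := by
    rw [Complex.sq_norm, Complex.normSq_add, Complex.normSq_mul, Complex.normSq_conj,
      Complex.sq_norm, Complex.sq_norm]
    simp only [map_one, map_mul, one_mul, Complex.conj_conj]
    have : (a * (starRingEnd ℂ) η).re = (η * (starRingEnd ℂ) a).re := by
      rw [← Complex.conj_re]; simp [mul_comm]
    rw [this]
  rw [h1, h2]
  have h3 : ‖a‖ ^ 2 ≤ 1 := by have := norm_nonneg a; nlinarith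
  have h4 : ‖η‖ ^ 2 ≤ 1 := by have := norm_nonneg η; nlinarith
  nlinarith [mul_nonneg (sub_nonneg.mpr h3) (sub_nonneg.mpr h4)]

theorem norm_bet_lt {a η : ℂ} (ha : ‖a‖ ≤ 1) (hη : ‖η‖ < 1) : ‖bet a η‖ < 1 := by
  have h1 := norm_add_le_den ha hη
  have h2 : 0 < ‖1 + (starRingEnd ℂ) a * η‖ := norm_pos_iff.mpr (den_ne ha hη)
  rw [bet, norm_div, norm_mul, div_lt_one h2]
  have := norm_nonneg (η + a)
  nlinarith [norm_nonneg η]

/-- The possible forms of the parametrised iterate. -/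
def IsB (b : ℂ → ℂ) : Prop := (∀ η, b η = η) ∨ ∃ a : ℂ, ‖a‖ ≤ 1 ∧ ∀ η, b η = bet a η

theorem IsB.norm_lt {b : ℂ → ℂ} (hb : IsB b) {η : ℂ} (hη : ‖η‖ < 1) : ‖b η‖ < 1 := by
  rcases hb with h | ⟨a, ha, h⟩
  · rw [h]; exact hη
  · rw [h]; exact norm_bet_lt ha hη

theorem IsB.zero {b : ℂ → ℂ} (hb : IsB b) : b 0 = 0 := by
  rcases hb with h | ⟨a, ha, h⟩
  · rw [h]
  · rw [h, bet]; simp

/-- a circle on which `b` is bounded below -/
theorem IsB.lower {b : ℂ → ℂ} (hb : IsB b) :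
    ∃ r : ℝ, 0 < r ∧ r ≤ 1/4 ∧ ∀ η : ℂ, ‖η‖ = r → 1/512 ≤ ‖b η‖ := by
  rcases hb with h | ⟨a, ha, h⟩
  · exact ⟨1/4, by norm_num, le_rfl, fun η hη => by rw [h, hη]; norm_num⟩
  · have key : ∀ r : ℝ, 0 < r → r ≤ 1/4 → 1/256 ≤ r * |‖a‖ - r| → ∀ η : ℂ, ‖η‖ = r →
        1/512 ≤ ‖b η‖ := by
      intro r hr hr4 hrr η hη
      have hη1 : ‖η‖ < 1 := by rw [hη]; linarith
      have h2 : 0 < ‖1 + (starRingEnd ℂ) a * η‖ := norm_pos_iff.mpr (den_ne ha hη1)
      have h3 : ‖1 + (starRingEnd ℂ) a * η‖ ≤ 2 := by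
        calc ‖1 + (starRingEnd ℂ) a * η‖ ≤ ‖(1:ℂ)‖ + ‖(starRingEnd ℂ) a * η‖ := norm_add_le _ _
          _ ≤ 1 + 1 := by
            rw [norm_mul, RCLike.norm_conj, norm_one]
            have := norm_nonneg a
            have := norm_nonneg η
            nlinarith
          _ = 2 := by norm_num
      have h4 : |‖a‖ - r| ≤ ‖η + a‖ := by
        have := abs_norm_sub_norm_le a (-η)
        rw [norm_neg, hη] at this
        rwa [show a - -η = η + a by ring] at this
      rw [h, bet, norm_div, norm_mul, hη, le_div_iff₀ h2]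
      have h5 : r * |‖a‖ - r| ≤ r * ‖η + a‖ := mul_le_mul_of_nonneg_left h4 hr.le
      linarith
    rcases le_or_gt (5/32) ‖a‖ with h1 | h1
    · refine ⟨1/16, by norm_num, by norm_num, key (1/16) (by norm_num) (by norm_num) ?_⟩
      rw [abs_of_pos (by linarith)]
      linarith
    · refine ⟨1/4, by norm_num, le_rfl, key (1/4) (by norm_num) le_rfl ?_⟩
      rw [abs_of_neg (by linarith)]
      linarith

/-- at most two solutions -/
theorem IsB.two {b : ℂ → ℂ} (hb : IsB b) {w η₁ η₂ η₃ : ℂ} (h1 : ‖η₁‖ < 1) (h2 : ‖η₂‖ < 1)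
    (h3 : ‖η₃‖ < 1) (e1 : b η₁ = w) (e2 : b η₂ = w) (e3 : b η₃ = w) :
    η₁ = η₂ ∨ η₁ = η₃ ∨ η₂ = η₃ := by
  rcases hb with h | ⟨a, ha, h⟩
  · left; rw [← h η₁, ← h η₂, e1, e2]
  · rw [h, bet, div_eq_iff (den_ne ha h1)] at e1
    rw [h, bet, div_eq_iff (den_ne ha h2)] at e2
    rw [h, bet, div_eq_iff (den_ne ha h3)] at e3
    by_contra hcon
    push Not at hcon
    obtain ⟨n1, n2, n3⟩ := hcon
    have f1 : (η₁ - η₂) * (η₁ + η₂ + a - w * (starRingEnd ℂ) a) = 0 := by
      linear_combination e1 - e2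
    have f2 : (η₁ - η₃) * (η₁ + η₃ + a - w * (starRingEnd ℂ) a) = 0 := by
      linear_combination e1 - e3
    have g1 := (mul_eq_zero.mp f1).resolve_left (sub_ne_zero.mpr n1)
    have g2 := (mul_eq_zero.mp f2).resolve_left (sub_ne_zero.mpr n2)
    exact n3 (by linear_combination g1 - g2)

theorem fq_eq_fun (c : ℂ) : fq c = fun z => z ^ 2 + c := rfl

/-- Parametrisation without passes. -/
theorem par_none {q : ℂ} {R : ℝ} (hR : 0 < R) (n : ℕ) : ∀ y : ℂ, (fq c)^[n] y = q →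
    (∀ j, 1 ≤ j → j ≤ n → c ∉ CC c (n - j) (ball q R) ((fq c)^[j] y)) →
    ∃ Z : ℂ → ℂ, Par (CC c n (ball q R) y) y Z ∧
      ∀ η ∈ ball (0:ℂ) 1, (fq c)^[n] (Z η) = q + R * η := by
  induction n with
  | zero =>
    intro y hy _
    have hyq : y = q := hy
    subst hyq
    refine ⟨fun η => y + R * η, ⟨by fun_prop, ?_, by simp, ?_⟩, fun η _ => by simp⟩
    · intro x _ x' _ hxx
      have hR' : (R:ℂ) ≠ 0 := by exact_mod_cast hR.ne'
      have : (R:ℂ) * (x - x') = 0 := by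
        simp only at hxx
        linear_combination hxx
      exact sub_eq_zero.mp ((mul_eq_zero.mp this).resolve_left hR')
    · have h1 : CC c 0 (ball y R) y = ball y R := by
        apply Subset.antisymm
        · have := CC_subset (c := c) (n := 0) (D := ball y R) (y := y)
          simpa using this
        · refine subset_CC (convex_ball y R).isPreconnected (mem_ball_self hR) ?_
          simp
      rw [h1]
      ext x
      constructor
      · rintro ⟨η, hη, rfl⟩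
        rw [mem_ball, dist_eq_norm, add_sub_cancel_left, norm_mul, Complex.norm_real,
          Real.norm_eq_abs, abs_of_pos hR]
        rw [mem_ball_zero_iff] at hη
        nlinarith
      · intro hx
        rw [mem_ball, dist_eq_norm] at hx
        have hR' : (R:ℂ) ≠ 0 := by exact_mod_cast hR.ne'
        refine ⟨(x - y) / R, ?_, ?_⟩
        · rw [mem_ball_zero_iff, norm_div, Complex.norm_real, Real.norm_eq_abs, abs_of_pos hR,
            div_lt_one hR]
          exact hx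
        · show y + R * ((x - y) / R) = x
          field_simp
          ring
  | succ n ih =>
    intro y hy hno
    have hy' : (fq c)^[n] (fq c y) = q := by rw [← Function.iterate_succ_apply]; exact hy
    have hyD : (fq c)^[n+1] y ∈ ball q R := by rw [hy]; exact mem_ball_self hR
    obtain ⟨Z, hZ, hZ2⟩ := ih (fq c y) hy' (fun j h1 h2 => by
      have := hno (j+1) (by omega) (by omega)
      rwa [show n + 1 - (j + 1) = n - j by omega, Function.iterate_succ_apply] at this)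
    have hcW : c ∉ CC c n (ball q R) (fq c y) := by
      have := hno 1 le_rfl (by omega)
      simpa using this
    obtain ⟨Z', hZ', hZ'2⟩ := par_nopass c hZ hcW (x := y) rfl
    rw [← fq_eq_fun, CC_tower hyD] at hZ'
    refine ⟨Z', hZ', fun η hη => ?_⟩
    rw [Function.iterate_succ_apply]
    have : fq c (Z' η) = Z η := hZ'2 η hη
    rw [this]
    exact hZ2 η hη

/-- Parametrisation with at most one pass. -/
theorem par_one {q : ℂ} {R : ℝ} (hR : 0 < R) (n : ℕ) : ∀ y : ℂ, (fq c)^[n] y = q →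
    (∀ i j, 1 ≤ i → i < j → j ≤ n → c ∈ CC c (n - i) (ball q R) ((fq c)^[i] y) →
      c ∉ CC c (n - j) (ball q R) ((fq c)^[j] y)) →
    ∃ (Z : ℂ → ℂ) (b : ℂ → ℂ), IsB b ∧ Par (CC c n (ball q R) y) y Z ∧
      ∀ η ∈ ball (0:ℂ) 1, (fq c)^[n] (Z η) = q + R * b η := by
  induction n with
  | zero =>
    intro y hy _
    obtain ⟨Z, h1, h2⟩ := par_none (c := c) hR 0 y hy (fun j h1 h2 => by omega)
    exact ⟨Z, fun η => η, Or.inl fun _ => rfl, h1, h2⟩
  | succ n ih =>
    intro y hy hno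
    have hy' : (fq c)^[n] (fq c y) = q := by rw [← Function.iterate_succ_apply]; exact hy
    have hyD : (fq c)^[n+1] y ∈ ball q R := by rw [hy]; exact mem_ball_self hR
    by_cases hcW : c ∈ CC c n (ball q R) (fq c y)
    · obtain ⟨Z, hZ, hZ2⟩ := par_none (c := c) hR n (fq c y) hy' (fun j h1 h2 => by
        have := hno 1 (j+1) le_rfl (by omega) (by omega) (by simpa using hcW)
        rwa [show n + 1 - (j + 1) = n - j by omega, Function.iterate_succ_apply] at this)
      obtain ⟨Z', a, ha, hZ', hZ'2⟩ := par_pass c hZ hcW (x := y) rfl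
      rw [← fq_eq_fun, CC_tower hyD] at hZ'
      refine ⟨Z', bet a, Or.inr ⟨a, ha, fun _ => rfl⟩, hZ', fun η hη => ?_⟩
      rw [Function.iterate_succ_apply]
      have : fq c (Z' η) = Z (bet a η) := hZ'2 η hη
      rw [this]
      refine hZ2 (bet a η) ?_
      rw [mem_ball_zero_iff] at hη ⊢
      exact norm_bet_lt ha hη
    · obtain ⟨Z, b, hb, hZ, hZ2⟩ := ih (fq c y) hy' (fun i j h1 h2 h3 h4 => by
        have := hno (i+1) (j+1) (by omega) (by omega) (by omega) (by
          rwa [show n + 1 - (i + 1) = n - i by omega, Function.iterate_succ_apply])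
        rwa [show n + 1 - (j + 1) = n - j by omega, Function.iterate_succ_apply] at this)
      obtain ⟨Z', hZ', hZ'2⟩ := par_nopass c hZ hcW (x := y) rfl
      rw [← fq_eq_fun, CC_tower hyD] at hZ'
      refine ⟨Z', b, hb, hZ', fun η hη => ?_⟩
      rw [Function.iterate_succ_apply]
      have : fq c (Z' η) = Z η := hZ'2 η hη
      rw [this]
      exact hZ2 η hη

/-- F5: the pass lemma. -/
theorem pass_lemma {δ₀ : ℝ} (hNR : NonRec c δ₀) {n : ℕ} {D : Set ℂ} {y : ℂ}
    (hy : (fq c)^[n] y ∈ D)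
    (hsmall : ∀ j, 1 ≤ j → j ≤ n → (CC c (n - j) D ((fq c)^[j] y) ∩ JJ c).Nonempty →
      ∀ a ∈ CC c (n - j) D ((fq c)^[j] y), ∀ b ∈ CC c (n - j) D ((fq c)^[j] y), ‖a - b‖ < δ₀) :
    ∀ i j, 1 ≤ i → i < j → j ≤ n → c ∈ CC c (n - i) D ((fq c)^[i] y) →
      c ∉ CC c (n - j) D ((fq c)^[j] y) := by
  intro i j h1 h2 h3 hci hcj
  set S := CC c (n - j) D ((fq c)^[j] y) with hS
  have hmem : (fq c)^[j - i] c ∈ S := by
    have e1 : n - i = (n - j) + (j - i) := by omega
    rw [e1] at hci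
    have hyi : (fq c)^[(n - j) + (j - i)] ((fq c)^[i] y) ∈ D := by
      rw [← Function.iterate_add_apply]
      rw [show n - j + (j - i) + i = n by omega]
      exact hy
    have h5 := fqi_CC hyi ⟨c, hci, rfl⟩
    rw [← Function.iterate_add_apply, show j - i + i = j by omega] at h5
    exact h5
  obtain ⟨hJ, a, ha, b, hb, hab⟩ := hNR S isPreconnected_CC hcj (j - i) (by omega) hmem
  exact absurd (hsmall j (by omega) h3 hJ a ha b hb) (not_lt.mpr hab)

end Pool.Agent.H712R2.Cremer
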