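import Mathlib
import Pool.Prelude.Def_F_c31e40fa
import Pool.Agent.H712R2.MultibrotConnected

set_option autoImplicit false

open Complex Set Topology Filter Bornology N62a1eb23

namespace Pool.Agent.H712R2

/-! ### Elementary geometry of the Multibrot sets -/

/-- Rotational symmetry of the critical orbit polynomials. -/
theorem P_rot {d : ℕ} (hd : 2 ≤ d) {ω : ℂ} (hω : ω ^ (d - 1) = 1) (c : ℂ) (k : ℕ) :
    P d k (ω * c) = ω * P d k c := by
  have hωd : ω ^ d = ω := by
    have : d = (d - 1) + 1 := by omega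
    rw [this, pow_succ, hω, one_mul]
  induction k with
  | zero => simp [P_zero]
  | succ k ih => rw [P_succ, P_succ, ih, mul_pow, hωd]; ring

/-- `s = d ^ (-1/(d-1))`, the critical radius of the main component. -/
noncomputable def sr (d : ℕ) : ℝ := Real.exp (-(Real.log d / (d - 1)))

theorem sr_pos (d : ℕ) : 0 < sr d := Real.exp_pos _

theorem sr_pow {d : ℕ} (hd : 2 ≤ d) : (sr d) ^ (d - 1) = 1 / d := by
  have hd1 : ((d - 1 : ℕ) : ℝ) = (d : ℝ) - 1 := by
    rw [Nat.cast_sub (by omega)]; simp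
  have hdr : (2:ℝ) ≤ d := by exact_mod_cast hd
  have h0 : (d : ℝ) - 1 ≠ 0 := by linarith
  unfold sr
  rw [← Real.exp_nat_mul, hd1]
  have : ((d : ℝ) - 1) * -(Real.log d / (d - 1)) = -Real.log d := by field_simp
  rw [this, Real.exp_neg, Real.exp_log (by linarith)]
  simp

theorem sr_pow' {d : ℕ} (hd : 2 ≤ d) : (sr d) ^ d = sr d / d := by
  have h : sr d ^ d = sr d ^ (d - 1) * sr d := by
    rw [← pow_succ]; congr 1; omega
  rw [h, sr_pow hd]
  ring

theorem sr_lt_one {d : ℕ} (hd : 2 ≤ d) : sr d < 1 := by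
  unfold sr
  rw [Real.exp_lt_one_iff]
  have hdr : (2:ℝ) ≤ d := by exact_mod_cast hd
  have : 0 < Real.log d / (d - 1) := div_pos (Real.log_pos (by linarith)) (by linarith)
  linarith

theorem sr_ge (d : ℕ) : 1 - Real.log d / (d - 1) ≤ sr d := by
  unfold sr
  have := Real.add_one_le_exp (-(Real.log d / (d - 1)))
  linarith

/-- the inner radius `ρ = s - s ^ d`. -/
noncomputable def rr (d : ℕ) : ℝ := sr d - sr d ^ d

theorem rr_eq {d : ℕ} (hd : 2 ≤ d) : rr d = sr d * (1 - 1 / d) := by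
  unfold rr; rw [sr_pow' hd]; ring

theorem rr_pos {d : ℕ} (hd : 2 ≤ d) : 0 < rr d := by
  rw [rr_eq hd]
  apply mul_pos (sr_pos d)
  have hdr : (2:ℝ) ≤ d := by exact_mod_cast hd
  have : 1 / (d:ℝ) ≤ 1 / 2 := one_div_le_one_div_of_le (by norm_num) hdr
  linarith

/-- The closed disc of radius `ρ` lies in the Multibrot set. -/
theorem disc_subset {d : ℕ} (hd : 2 ≤ d) {c : ℂ} (hc : ‖c‖ ≤ rr d) : c ∈ multibrotSet d := by
  rw [mem_multibrot_iff hd]
  have key : ∀ k, ‖P d k c‖ ≤ sr d := by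
    intro k
    induction k with
    | zero => rw [P_zero, norm_zero]; exact (sr_pos d).le
    | succ k ih =>
      rw [P_succ]
      calc ‖P d k c ^ d + c‖ ≤ ‖P d k c ^ d‖ + ‖c‖ := norm_add_le _ _
        _ ≤ sr d ^ d + rr d := by
            rw [norm_pow]
            exact add_le_add (pow_le_pow_left₀ (norm_nonneg _) ih d) hc
        _ = sr d := by unfold rr; ring
  intro k
  linarith [key k, sr_lt_one hd]

/-- Beyond `ρ` the positive real parameters escape. -/
theorem real_escape {d : ℕ} (hd : 2 ≤ d) {t : ℝ} (ht : rr d < t) : (t : ℂ) ∉ multibrotSet d := by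
  rw [mem_multibrot_iff hd]
  push Not
  have hd0 : d ≠ 0 := by omega
  have hdr : (2:ℝ) ≤ d := by exact_mod_cast hd
  have hs := sr_pos d
  -- tangent line bound
  have htan : ∀ x : ℝ, 0 ≤ x → x - rr d ≤ x ^ d := by
    intro x hx
    have h1 := one_add_mul_le_pow (a := x / sr d - 1) (by
      have : 0 ≤ x / sr d := div_nonneg hx hs.le
      linarith) d
    have h2 : (1 + (x / sr d - 1)) = x / sr d := by ring
    rw [h2, div_pow, sr_pow' hd] at h1
    have h3 : 0 < sr d / d := div_pos hs (by linarith)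
    have h4 : (1 + (d:ℝ) * (x / sr d - 1)) * (sr d / d) ≤ x ^ d := by
      rwa [le_div_iff₀ h3] at h1
    have h5 : (1 + (d:ℝ) * (x / sr d - 1)) * (sr d / d) = x - rr d := by
      rw [rr_eq hd]; field_simp; ring
    linarith
  -- the orbit is real
  have hreal : ∀ k, ∃ x : ℝ, 0 ≤ x ∧ P d k (t:ℂ) = x ∧ k * (t - rr d) ≤ x := by
    intro k
    induction k with
    | zero => exact ⟨0, le_rfl, by simp [P_zero], by simp⟩
    | succ k ih =>
      obtain ⟨x, hx0, hx, hxk⟩ := ih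
      refine ⟨x ^ d + t, ?_, ?_, ?_⟩
      · have : 0 < t := lt_trans (rr_pos hd) ht
        positivity
      · rw [P_succ, hx]; push_cast; ring
      · have := htan x hx0
        push_cast
        linarith
  obtain ⟨k, hk⟩ := exists_nat_gt (2 / (t - rr d))
  have hpos : 0 < t - rr d := by linarith
  refine ⟨k, ?_⟩
  obtain ⟨x, hx0, hx, hxk⟩ := hreal k
  rw [hx, Complex.norm_real, Real.norm_eq_abs, abs_of_nonneg hx0]
  rw [div_lt_iff₀ hpos] at hk
  linarith

/-- Beyond `ρ` the cusp directions escape. -/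
theorem cusp_escape {d : ℕ} (hd : 2 ≤ d) {t : ℝ} (ht : rr d < t) {ω : ℂ}
    (hω : ω ^ (d - 1) = 1) : ω * (t : ℂ) ∉ multibrotSet d := by
  have h := real_escape hd ht
  rw [mem_multibrot_iff hd] at h ⊢
  intro h'
  apply h
  intro k
  have h1 := h' k
  have hω1 : ‖ω‖ = 1 := by
    have : ‖ω‖ ^ (d - 1) = 1 := by rw [← norm_pow, hω, norm_one]
    exact (pow_eq_one_iff_of_nonneg (norm_nonneg _) (by omega)).mp this
  rw [P_rot hd hω, norm_mul, hω1, one_mul] at h1
  exact h1

/-- Outer radius. -/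
theorem norm_le_outer {d : ℕ} (hd : 2 ≤ d) {c : ℂ} (hc : c ∈ multibrotSet d) :
    ‖c‖ ≤ 1 + 1 / ((d:ℝ) - 1) := by
  by_contra hcon
  push Not at hcon
  have hdr : (2:ℝ) ≤ d := by exact_mod_cast hd
  have hd1 : ((d - 1 : ℕ) : ℝ) = (d : ℝ) - 1 := by
    rw [Nat.cast_sub (by omega)]; simp
  have h0 : 0 < (d:ℝ) - 1 := by linarith
  rw [mem_multibrot_iff hd] at hc
  set R : ℝ := 1 + 1 / ((d:ℝ) - 1) with hR
  have hRpos : 0 < R := by positivity
  -- `‖c‖ ^ (d-1) > 2`
  have hR2 : 2 ≤ R ^ (d - 1) := by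
    have h1 := one_add_mul_le_pow (a := 1 / ((d:ℝ) - 1)) (by
      have : 0 < 1 / ((d:ℝ) - 1) := by positivity
      linarith) (d - 1)
    rw [hd1] at h1
    have h2 : ((d:ℝ) - 1) * (1 / ((d:ℝ) - 1)) = 1 := by field_simp
    rw [h2] at h1
    linarith
  have hcR : R ^ (d - 1) < ‖c‖ ^ (d - 1) :=
    pow_lt_pow_left₀ hcon hRpos.le (by omega)
  set η : ℝ := ‖c‖ ^ (d - 1) - 1 with hη
  have hη1 : 1 < η := by linarith
  have hcpos : 0 < ‖c‖ := by linarith
  have key : ∀ k, ‖c‖ * η ^ k ≤ ‖P d (k + 1) c‖ := by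
    intro k
    induction k with
    | zero => rw [P_one hd]; simp
    | succ k ih =>
      have h1 : ‖c‖ ≤ ‖P d (k + 1) c‖ := by
        refine le_trans ?_ ih
        have : 1 ≤ η ^ k := one_le_pow₀ hη1.le
        nlinarith
      have h2 : ‖P d (k + 1) c‖ * (‖P d (k + 1) c‖ ^ (d - 1) - 1) ≤ ‖P d (k + 1 + 1) c‖ := by
        rw [P_succ d (k + 1)]
        have h4 : ‖(P d (k + 1) c) ^ d‖ - ‖c‖ ≤ ‖(P d (k + 1) c) ^ d + c‖ := by
          have := norm_sub_le ((P d (k + 1) c) ^ d + c) c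
          rw [add_sub_cancel_right] at this
          linarith
        have h5 : ‖(P d (k + 1) c) ^ d‖ = ‖P d (k + 1) c‖ * ‖P d (k + 1) c‖ ^ (d - 1) := by
          rw [norm_pow, ← pow_succ']
          congr 1; omega
        rw [h5] at h4
        linarith
      have h3 : η ≤ ‖P d (k + 1) c‖ ^ (d - 1) - 1 := by
        have := pow_le_pow_left₀ (norm_nonneg c) h1 (d - 1)
        linarith
      calc ‖c‖ * η ^ (k + 1) = (‖c‖ * η ^ k) * η := by ring
        _ ≤ ‖P d (k + 1) c‖ * (‖P d (k + 1) c‖ ^ (d - 1) - 1) := by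
            apply mul_le_mul ih h3 (by linarith) (norm_nonneg _)
        _ ≤ _ := h2
  obtain ⟨k, hk⟩ := pow_unbounded_of_one_lt (2 / ‖c‖) hη1
  have h6 := key k
  have h7 := hc (k + 1)
  rw [div_lt_iff₀ hcpos] at hk
  linarith

end Pool.Agent.H712R2
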