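import Mathlib
import Pool.Prelude.Def_F_c31e40fa
import Pool.Agent.H712R2.MultiCoarse

set_option autoImplicit false

open Complex Set Topology Filter Bornology N62a1eb23

namespace Pool.Agent.H712R2

/-- sector angles -/
noncomputable def th (d : ℕ) (j : ℤ) : ℝ := 2 * Real.pi * j / ((d:ℝ) - 1)

/-- closed logarithmic box over a sector between consecutive cusp directions -/
noncomputable def KK (d : ℕ) (j : ℤ) : Set ℂ :=
  Icc (Real.log (rr d)) (Real.log 2) ×ℂ Icc (th d j) (th d (j + 1))

theorem th_lt {d : ℕ} (hd : 2 ≤ d) (j : ℤ) : th d j < th d (j + 1) := by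
  have hdr : (2:ℝ) ≤ d := by exact_mod_cast hd
  unfold th
  apply div_lt_div_of_pos_right _ (by linarith)
  push_cast
  have := Real.pi_pos
  nlinarith

theorem th_sub {d : ℕ} (hd : 2 ≤ d) (j : ℤ) : th d (j + 1) - th d j = 2 * Real.pi / ((d:ℝ) - 1) := by
  have hdr : (2:ℝ) ≤ d := by exact_mod_cast hd
  have : (d:ℝ) - 1 ≠ 0 := by linarith
  unfold th
  push_cast
  field_simp
  ring

theorem exp_th_pow {d : ℕ} (hd : 2 ≤ d) (j : ℤ) :
    (Complex.exp ((th d j : ℝ) * I)) ^ (d - 1) = 1 := by
  have hdr : (2:ℝ) ≤ d := by exact_mod_cast hd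
  have h0 : (d:ℝ) - 1 ≠ 0 := by linarith
  have hd1 : ((d - 1 : ℕ) : ℝ) = (d : ℝ) - 1 := by
    rw [Nat.cast_sub (by omega)]; simp
  rw [← Complex.exp_nat_mul, Complex.exp_eq_one_iff]
  refine ⟨j, ?_⟩
  have : (((d - 1 : ℕ) : ℂ)) * (((th d j : ℝ) : ℂ) * I) = (((((d - 1 : ℕ) : ℝ)) * th d j : ℝ) : ℂ) * I := by
    push_cast; ring
  rw [this, hd1]
  have h2 : ((d:ℝ) - 1) * th d j = 2 * Real.pi * j := by
    unfold th; field_simp
  rw [h2]; push_cast; ring

theorem norm_exp_eq (z : ℂ) : ‖Complex.exp z‖ = Real.exp z.re := Complex.norm_exp z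

theorem norm_le_two {d : ℕ} (hd : 2 ≤ d) {c : ℂ} (hc : c ∈ multibrotSet d) : ‖c‖ ≤ 2 := by
  have h := norm_le_outer hd hc
  have hdr : (2:ℝ) ≤ d := by exact_mod_cast hd
  have : 1 / ((d:ℝ) - 1) ≤ 1 := by
    rw [div_le_one (by linarith)]; linarith
  linarith

/-- The part of the Multibrot set in a closed sector outside the inner disc is preconnected. -/
theorem conn_piece {d : ℕ} (hd : 2 ≤ d) (j : ℤ) :
    IsPreconnected (multibrotSet d ∩ Complex.exp '' (KK d j)) := by
  set M := multibrotSet d with hM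
  set V := M ∩ Complex.exp '' (KK d j) with hV
  have hMc : IsCompact M := isCompact_multibrot hd
  have hKc : IsCompact (KK d j) := by
    apply Metric.isCompact_of_isClosed_isBounded
    · exact isClosed_Icc.reProdIm isClosed_Icc
    · exact (Metric.isBounded_Icc _ _).reProdIm (Metric.isBounded_Icc _ _)
  have hVc : IsCompact V := hMc.inter_right (hKc.image Complex.continuous_exp).isClosed
  have hrr := rr_pos hd
  have hrr2 : Real.log (rr d) ≤ Real.log 2 := by
    apply Real.log_le_log hrr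
    have h1 : rr d ≤ sr d := by
      unfold rr
      have := pow_nonneg (sr_pos d).le d
      linarith
    linarith [sr_lt_one hd]
  -- the arc
  set Arc : Set ℂ := Complex.exp '' ({Real.log (rr d)} ×ℂ Icc (th d j) (th d (j + 1))) with hArc
  have hArcM : Arc ⊆ M := by
    rintro _ ⟨z, hz, rfl⟩
    apply disc_subset hd
    rw [norm_exp_eq]
    have : z.re = Real.log (rr d) := hz.1
    rw [this, Real.exp_log hrr]
  have hArcV : Arc ⊆ V := by
    rintro c hc
    refine ⟨hArcM hc, ?_⟩
    obtain ⟨z, hz, rfl⟩ := hc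
    refine ⟨z, ⟨?_, hz.2⟩, rfl⟩
    have : z.re = Real.log (rr d) := hz.1
    simp only [mem_preimage, mem_Icc]
    rw [this]
    exact ⟨le_rfl, hrr2⟩
  have hArcconn : IsPreconnected Arc := by
    apply IsPreconnected.image _ _ Complex.continuous_exp.continuousOn
    apply Convex.isPreconnected
    exact ((convex_singleton (Real.log (rr d))).linear_preimage Complex.reLm).inter
      ((convex_Icc (th d j) (th d (j + 1))).linear_preimage Complex.imLm)
  have hArcne : Arc.Nonempty := by
    refine ⟨Complex.exp (⟨Real.log (rr d), th d j⟩ : ℂ), _, ⟨?_, ?_⟩, rfl⟩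
    · simp
    · simp only [mem_preimage, mem_Icc]
      exact ⟨le_rfl, (th_lt hd j).le⟩
  -- the open set
  set O : Set ℂ := Complex.exp '' (Ioi (Real.log (rr d)) ×ℂ Ioo (th d j) (th d (j + 1))) with hO
  have hOo : IsOpen O := isOpenMap_exp _ (isOpen_Ioi.reProdIm isOpen_Ioo)
  have hOV : M ∩ O ⊆ V := by
    rintro c ⟨hcM, z, hz, rfl⟩
    refine ⟨hcM, z, ⟨⟨le_of_lt hz.1, ?_⟩, ⟨hz.2.1.le, hz.2.2.le⟩⟩, rfl⟩
    have h2 := norm_le_two hd hcM
    rw [norm_exp_eq] at h2
    rwa [Real.le_log_iff_exp_le (by norm_num)]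
  -- the key
  have key : ∀ t t' : Set ℂ, IsClosed t → IsClosed t' → V ⊆ t ∪ t' → V ∩ (t ∩ t') = ∅ →
      Arc ⊆ t → (V ∩ t').Nonempty → False := by
    intro t t' ht ht' hcov hemp hArct hne
    set B := V ∩ t' with hB
    have hBc : IsClosed B := (hVc.inter_right ht').isClosed
    set F2 : Set ℂ := M ∩ (O ∩ tᶜ)ᶜ with hF2
    have hF2c : IsClosed F2 :=
      hMc.isClosed.inter (hOo.inter ht.isOpen_compl).isClosed_compl
    have hMp := (isConnected_multibrot hd).isPreconnected
    rw [isPreconnected_closed_iff] at hMp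
    obtain ⟨c, hcM, hcB, hcF⟩ := hMp B F2 hBc hF2c (by
        intro c hc
        by_cases hcO : c ∈ O ∩ tᶜ
        · left
          have hcV : c ∈ V := hOV ⟨hc, hcO.1⟩
          refine ⟨hcV, ?_⟩
          rcases hcov hcV with h | h
          · exact absurd h hcO.2
          · exact h
        · right; exact ⟨hc, hcO⟩)
      (by
        obtain ⟨c, hc⟩ := hne
        exact ⟨c, hc.1.1, hc⟩)
      (by
        obtain ⟨c, hc⟩ := hArcne
        exact ⟨c, hArcM hc, hArcM hc, fun h => h.2 (hArct hc)⟩)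
    -- contradiction
    have hct : c ∉ t := by
      intro h
      have : c ∈ V ∩ (t ∩ t') := ⟨hcB.1, h, hcB.2⟩
      rw [hemp] at this
      exact this
    apply hcF.2
    refine ⟨?_, hct⟩
    obtain ⟨z, hz, rfl⟩ := hcB.1.2
    have hre : Real.log (rr d) < z.re := by
      rcases (hz.1.1 : Real.log (rr d) ≤ z.re).lt_or_eq with h | h
      · exact h
      · exfalso
        apply hct
        apply hArct
        exact ⟨z, ⟨by simp [h], hz.2⟩, rfl⟩
    have hcusp : ∀ i : ℤ, z.im ≠ th d i := by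
      intro i hi
      have h1 : Complex.exp z = Complex.exp ((th d i : ℝ) * I) * ((Real.exp z.re : ℝ) : ℂ) := by
        rw [Complex.ofReal_exp, ← Complex.exp_add]
        congr 1
        apply Complex.ext <;> simp [hi]
      apply cusp_escape hd (t := Real.exp z.re) _ (exp_th_pow hd i)
      · rw [← h1]; exact hcM
      · rwa [← Real.log_lt_iff_lt_exp hrr]
    refine ⟨z, ⟨hre, ?_, ?_⟩, rfl⟩
    · exact lt_of_le_of_ne hz.2.1 (fun h => hcusp j h.symm)
    · exact lt_of_le_of_ne hz.2.2 (fun h => hcusp (j + 1) h)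
  rw [isPreconnected_closed_iff]
  intro t t' ht ht' hcov hne hne'
  by_contra hcon
  rw [not_nonempty_iff_eq_empty] at hcon
  -- the arc is in one of the two sets
  have harc : Arc ⊆ t ∨ Arc ⊆ t' := by
    rw [isPreconnected_closed_iff] at hArcconn
    by_contra h
    push Not at h
    obtain ⟨h1, h2⟩ := h
    rw [Set.not_subset] at h1 h2
    obtain ⟨a, haA, hat⟩ := h1
    obtain ⟨b, hbA, hbt⟩ := h2
    have ha' : a ∈ t' := (hcov (hArcV haA)).resolve_left hat
    have hb' : b ∈ t := (hcov (hArcV hbA)).resolve_right hbt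
    obtain ⟨e, heA, he1, he2⟩ := hArcconn t t' ht ht' (hArcV.trans hcov) ⟨b, hbA, hb'⟩
      ⟨a, haA, ha'⟩
    have : e ∈ V ∩ (t ∩ t') := ⟨hArcV heA, he1, he2⟩
    rw [hcon] at this
    exact this
  rcases harc with h | h
  · exact key t t' ht ht' hcov hcon h hne'
  · exact key t' t ht' ht (by rw [union_comm]; exact hcov) (by rw [inter_comm t' t]; exact hcon) h hne

/-- size of a piece -/
noncomputable def kap (d : ℕ) : ℝ := (Real.log d + 15) / ((d:ℝ) - 1)

theorem kap_bound {d : ℕ} (hd : 2 ≤ d) :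
    (1 + 1 / ((d:ℝ) - 1)) - rr d + 2 * (2 * Real.pi / ((d:ℝ) - 1)) ≤ kap d := by
  have hdr : (2:ℝ) ≤ d := by exact_mod_cast hd
  have h0 : 0 < (d:ℝ) - 1 := by linarith
  have hlog : 0 < Real.log d := Real.log_pos (by linarith)
  have h1 : rr d = sr d * (1 - 1 / d) := rr_eq hd
  have h2 := sr_ge d
  have h3 : 1 / (d:ℝ) ≤ 1 / ((d:ℝ) - 1) := one_div_le_one_div_of_le h0 (by linarith)
  have h4 : 0 < 1 / (d:ℝ) := by positivity
  have h5 : 0 ≤ 1 - 1 / (d:ℝ) := by
    have : 1 / (d:ℝ) ≤ 1 / 2 := one_div_le_one_div_of_le (by norm_num) hdr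
    linarith
  have h6 : (1 - Real.log d / (d - 1)) * (1 - 1 / d) ≤ rr d := by
    rw [h1]; exact mul_le_mul_of_nonneg_right h2 h5
  have h7 : 1 - Real.log d / (d - 1) - 1 / d ≤ (1 - Real.log d / (d - 1)) * (1 - 1 / d) := by
    have : 0 ≤ (Real.log d / ((d:ℝ) - 1)) * (1 / d) := by positivity
    nlinarith
  have hpi : Real.pi < 3.15 := Real.pi_lt_d2
  have h8 : 2 * (2 * Real.pi / ((d:ℝ) - 1)) ≤ 12.6 / ((d:ℝ) - 1) := by
    rw [← mul_div_assoc]
    apply div_le_div_of_nonneg_right _ h0.le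
    linarith
  unfold kap
  have h9 : (Real.log d + 15) / ((d:ℝ) - 1) = Real.log d / (d - 1) + 1 / ((d:ℝ) - 1) +
      1 / ((d:ℝ) - 1) + 12.6 / ((d:ℝ) - 1) + 0.4 / ((d:ℝ) - 1) := by
    field_simp; ring
  have h10 : 0 < 0.4 / ((d:ℝ) - 1) := by positivity
  rw [h9]
  linarith

theorem dist_exp_le {z z' : ℂ} : dist (Complex.exp z) (Complex.exp z') ≤
    |Real.exp z.re - Real.exp z'.re| + Real.exp z'.re * |z.im - z'.im| := by
  have h1 : Complex.exp z - Complex.exp z' =
      ((Real.exp z.re - Real.exp z'.re : ℝ) : ℂ) * Complex.exp (z.im * I) +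
      ((Real.exp z'.re : ℝ) : ℂ) * (Complex.exp (z'.im * I) * (Complex.exp (I * ((z.im - z'.im : ℝ) : ℂ)) - 1)) := by
    have e1 : Complex.exp z = ((Real.exp z.re : ℝ) : ℂ) * Complex.exp (z.im * I) := by
      rw [Complex.ofReal_exp, ← Complex.exp_add, Complex.re_add_im]
    have e2 : Complex.exp z' = ((Real.exp z'.re : ℝ) : ℂ) * Complex.exp (z'.im * I) := by
      rw [Complex.ofReal_exp, ← Complex.exp_add, Complex.re_add_im]
    have e3 : Complex.exp (z'.im * I) * Complex.exp (I * ((z.im - z'.im : ℝ) : ℂ)) = Complex.exp (z.im * I) := by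
      rw [← Complex.exp_add]
      congr 1
      push_cast; ring
    rw [mul_sub, e3, e1, e2]
    push_cast
    ring
  rw [dist_eq_norm, h1]
  refine (norm_add_le _ _).trans ?_
  have h2 : ‖((Real.exp z.re - Real.exp z'.re : ℝ) : ℂ) * Complex.exp (z.im * I)‖ =
      |Real.exp z.re - Real.exp z'.re| := by
    rw [norm_mul, Complex.norm_real, Real.norm_eq_abs, Complex.norm_exp_ofReal_mul_I, mul_one]
  have h3 : ‖((Real.exp z'.re : ℝ) : ℂ) * (Complex.exp (z'.im * I) *
      (Complex.exp (I * ((z.im - z'.im : ℝ) : ℂ)) - 1))‖ ≤ Real.exp z'.re * |z.im - z'.im| := by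
    rw [norm_mul, norm_mul, Complex.norm_real, Real.norm_eq_abs, Complex.norm_exp_ofReal_mul_I,
      one_mul, abs_of_pos (Real.exp_pos _)]
    apply mul_le_mul_of_nonneg_left _ (Real.exp_pos _).le
    have := Real.norm_exp_I_mul_ofReal_sub_one_le (x := z.im - z'.im)
    rwa [Real.norm_eq_abs] at this
  rw [h2]
  linarith

/-- every point of the Multibrot set lies in a small connected piece that reaches the inner disc -/
theorem exists_piece {d : ℕ} (hd : 2 ≤ d) {x : ℂ} (hx : x ∈ multibrotSet d) :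
    ∃ V : Set ℂ, ∃ x' : ℂ, IsPreconnected V ∧ V ⊆ multibrotSet d ∧ x ∈ V ∧ x' ∈ V ∧
      ‖x'‖ ≤ rr d ∧ ∀ a ∈ V, ∀ b ∈ V, dist a b ≤ kap d := by
  have hdr : (2:ℝ) ≤ d := by exact_mod_cast hd
  have h0 : 0 < (d:ℝ) - 1 := by linarith
  have hkap : 0 ≤ kap d := by
    unfold kap
    have hlog : 0 < Real.log d := Real.log_pos (by linarith)
    positivity
  by_cases hxr : ‖x‖ ≤ rr d
  · refine ⟨{x}, x, isPreconnected_singleton, by simpa using hx, rfl, rfl, hxr, ?_⟩
    rintro a rfl b rfl
    simpa using hkap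
  · push Not at hxr
    have hrr := rr_pos hd
    have hxpos : 0 < ‖x‖ := lt_trans hrr hxr
    have hx0 : x ≠ 0 := norm_pos_iff.mp hxpos
    set z := Complex.log x with hz
    have hexpz : Complex.exp z = x := Complex.exp_log hx0
    have hzre : z.re = Real.log ‖x‖ := Complex.log_re x
    set j : ℤ := ⌊z.im * ((d:ℝ) - 1) / (2 * Real.pi)⌋ with hj
    have hpi := Real.pi_pos
    have hj1 : th d j ≤ z.im := by
      have := Int.floor_le (z.im * ((d:ℝ) - 1) / (2 * Real.pi))
      rw [← hj, le_div_iff₀ (by positivity)] at this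
      unfold th
      rw [div_le_iff₀ h0]
      linarith
    have hj2 : z.im ≤ th d (j + 1) := by
      have := (Int.lt_floor_add_one (z.im * ((d:ℝ) - 1) / (2 * Real.pi))).le
      rw [← hj, div_le_iff₀ (by positivity)] at this
      unfold th
      rw [le_div_iff₀ h0]
      push_cast
      linarith
    have hrr2 : Real.log (rr d) ≤ Real.log 2 := by
      apply Real.log_le_log hrr
      have h1 : rr d ≤ sr d := by
        unfold rr
        have := pow_nonneg (sr_pos d).le d
        linarith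
      linarith [sr_lt_one hd]
    refine ⟨multibrotSet d ∩ Complex.exp '' (KK d j), Complex.exp ⟨Real.log (rr d), z.im⟩,
      conn_piece hd j, inter_subset_left, ⟨hx, z, ⟨⟨?_, ?_⟩, ⟨hj1, hj2⟩⟩, hexpz⟩, ⟨?_, ?_⟩, ?_, ?_⟩
    · rw [hzre]; exact Real.log_le_log hrr hxr.le
    · rw [hzre]; exact Real.log_le_log hxpos (norm_le_two hd hx)
    · apply disc_subset hd
      rw [norm_exp_eq]
      simp [Real.exp_log hrr]
    · exact ⟨(⟨Real.log (rr d), z.im⟩ : ℂ), ⟨⟨le_rfl, hrr2⟩, ⟨hj1, hj2⟩⟩, rfl⟩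
    · rw [norm_exp_eq]
      simp [Real.exp_log hrr]
    · rintro _ ⟨haM, a, ha, rfl⟩ _ ⟨hbM, b, hb, rfl⟩
      refine dist_exp_le.trans ?_
      have hRa := norm_le_outer hd haM
      have hRb := norm_le_outer hd hbM
      rw [norm_exp_eq] at hRa hRb
      have hra : rr d ≤ Real.exp a.re := by
        rw [← Real.exp_log hrr]; exact Real.exp_le_exp.mpr ha.1.1
      have hrb : rr d ≤ Real.exp b.re := by
        rw [← Real.exp_log hrr]; exact Real.exp_le_exp.mpr hb.1.1
      have h1 : |Real.exp a.re - Real.exp b.re| ≤ (1 + 1 / ((d:ℝ) - 1)) - rr d := by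
        rw [abs_le]; constructor <;> linarith
      have h2 : |a.im - b.im| ≤ 2 * Real.pi / ((d:ℝ) - 1) := by
        rw [← th_sub hd j, abs_le]
        have ha1 : th d j ≤ a.im := ha.2.1
        have ha2 : a.im ≤ th d (j + 1) := ha.2.2
        have hb1 : th d j ≤ b.im := hb.2.1
        have hb2 : b.im ≤ th d (j + 1) := hb.2.2
        constructor <;> linarith
      have h3 : Real.exp b.re ≤ 2 := by
        have := norm_le_two hd hbM
        rwa [norm_exp_eq] at this
      have h4 : Real.exp b.re * |a.im - b.im| ≤ 2 * (2 * Real.pi / ((d:ℝ) - 1)) :=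
        mul_le_mul h3 h2 (abs_nonneg _) (by norm_num)
      linarith [kap_bound hd]

/-- Coarse local connectivity of the Multibrot sets. -/
theorem coarse_lc {d : ℕ} (hd : 2 ≤ d) {x y : ℂ} (hx : x ∈ multibrotSet d)
    (hy : y ∈ multibrotSet d) :
    ∃ S : Set ℂ, S ⊆ multibrotSet d ∧ IsCompact S ∧ IsConnected S ∧ x ∈ S ∧ y ∈ S ∧
      Metric.diam S ≤ dist x y + 3 * ((Real.log d + 15) / ((d:ℝ) - 1)) := by
  obtain ⟨V, x', hVp, hVM, hxV, hx'V, hx'r, hVd⟩ := exists_piece hd hx
  obtain ⟨W, y', hWp, hWM, hyW, hy'W, hy'r, hWd⟩ := exists_piece hd hy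
  have hdr : (2:ℝ) ≤ d := by exact_mod_cast hd
  have hkap : 0 ≤ kap d := by
    unfold kap
    have hlog : 0 < Real.log d := Real.log_pos (by linarith)
    have h0 : 0 < (d:ℝ) - 1 := by linarith
    positivity
  set L : Set ℂ := segment ℝ x' y' with hL
  have hLM : L ⊆ multibrotSet d := by
    intro c hc
    apply disc_subset hd
    have h1 : L ⊆ Metric.closedBall (0:ℂ) (rr d) :=
      (convex_closedBall (0:ℂ) (rr d)).segment_subset (by simpa using hx'r) (by simpa using hy'r)
    simpa using h1 hc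
  have hLp : IsPreconnected L := (convex_segment x' y').isPreconnected
  set S0 : Set ℂ := (V ∪ L) ∪ W with hS0
  have hS0M : S0 ⊆ multibrotSet d := union_subset (union_subset hVM hLM) hWM
  have hS0p : IsPreconnected S0 := by
    apply IsPreconnected.union y'
    · exact Or.inr (right_mem_segment ℝ x' y')
    · exact hy'W
    · exact IsPreconnected.union x' hx'V (left_mem_segment ℝ x' y') hVp hLp
    · exact hWp
  have hdxy : dist x' y' ≤ dist x y + 2 * kap d := by
    have h1 := dist_triangle4 x' x y y'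
    have h2 := hVd x' hx'V x hxV
    have h3 := hWd y hyW y' hy'W
    linarith
  have hdiam : ∀ a ∈ S0, ∀ b ∈ S0, dist a b ≤ dist x y + 3 * kap d := by
    have hLx : ∀ a ∈ L, dist a x' ≤ dist x y + 2 * kap d ∧ dist a y' ≤ dist x y + 2 * kap d := by
      intro a ha
      have h1 := dist_add_dist_of_mem_segment ha
      have h2 := dist_nonneg (x := x') (y := a)
      have h3 := dist_nonneg (x := a) (y := y')
      rw [dist_comm a x']
      constructor <;> linarith
    have hLL : ∀ a ∈ L, ∀ b ∈ L, dist a b ≤ dist x y + 2 * kap d := by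
      intro a ha b hb
      have h1 : Metric.diam L ≤ dist x' y' := by
        rw [hL, segment_eq_image_lineMap]
        apply Metric.diam_le_of_forall_dist_le dist_nonneg
        rintro _ ⟨s, hs, rfl⟩ _ ⟨t, ht, rfl⟩
        rw [dist_lineMap_lineMap]
        have : dist s t ≤ 1 := by
          rw [Real.dist_eq, abs_le]
          constructor <;> linarith [hs.1, hs.2, ht.1, ht.2]
        nlinarith [dist_nonneg (x := x') (y := y')]
      have h2 : Bornology.IsBounded L := by
        apply (Metric.isBounded_closedBall (x := (0:ℂ)) (r := rr d)).subset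
        exact (convex_closedBall (0:ℂ) (rr d)).segment_subset (by simpa using hx'r) (by simpa using hy'r)
      exact (Metric.dist_le_diam_of_mem h2 ha hb).trans (h1.trans hdxy)
    have hVL : ∀ a ∈ V, ∀ b ∈ L, dist a b ≤ dist x y + 3 * kap d := by
      intro a ha b hb
      have h1 := dist_triangle a x' b
      have h2 := hVd a ha x' hx'V
      have h3 := (hLx b hb).1
      rw [dist_comm b x'] at h3
      linarith
    have hWL : ∀ a ∈ W, ∀ b ∈ L, dist a b ≤ dist x y + 3 * kap d := by
      intro a ha b hb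
      have h1 := dist_triangle a y' b
      have h2 := hWd a ha y' hy'W
      have h3 := (hLx b hb).2
      rw [dist_comm b y'] at h3
      linarith
    have hVW : ∀ a ∈ V, ∀ b ∈ W, dist a b ≤ dist x y + 3 * kap d := by
      intro a ha b hb
      have h1 := dist_triangle4 a x y b
      have h2 := hVd a ha x hxV
      have h3 := hWd y hyW b hb
      linarith
    have hxy0 := dist_nonneg (x := x) (y := y)
    intro a ha b hb
    rcases ha with (ha | ha) | ha <;> rcases hb with (hb | hb) | hb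
    · linarith [hVd a ha b hb]
    · exact hVL a ha b hb
    · exact hVW a ha b hb
    · rw [dist_comm]; exact hVL b hb a ha
    · linarith [hLL a ha b hb]
    · rw [dist_comm]; exact hWL b hb a ha
    · rw [dist_comm]; exact hVW b hb a ha
    · exact hWL a ha b hb
    · linarith [hWd a ha b hb]
  have hclM : closure S0 ⊆ multibrotSet d :=
    (isCompact_multibrot hd).isClosed.closure_subset_iff.mpr hS0M
  refine ⟨closure S0, hclM, ?_, ⟨⟨x, subset_closure (Or.inl (Or.inl hxV))⟩, hS0p.closure⟩,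
    subset_closure (Or.inl (Or.inl hxV)), subset_closure (Or.inr hyW), ?_⟩
  · exact (isCompact_multibrot hd).of_isClosed_subset isClosed_closure hclM
  · rw [Metric.diam_closure]
    exact Metric.diam_le_of_forall_dist_le (by positivity) hdiam

end Pool.Agent.H712R2
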