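import Pool.Agent.H712R2.Snail

set_option autoImplicit false

open Complex Set Topology Filter Metric

namespace Pool.Agent.H712R2.Cremer

variable {c : ℂ} {φ : ℂ → ℂ} {p : ℂ}

theorem tendsto_escape {z : ℂ} (hz : z ∉ KJ c) :
    Tendsto (fun n => ‖(fq c)^[n] z‖) atTop atTop := by
  have h1 : ∃ n, RR c < ‖(fq c)^[n] z‖ := by
    rw [KJ_eq] at hz
    simp only [mem_iInter, mem_preimage, mem_closedBall_zero_iff, not_forall, not_le] at hz
    exact hz
  obtain ⟨n, hn⟩ := h1
  set s := ‖(fq c)^[n] z‖ - RR c with hs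
  have hspos : 0 < s := by rw [hs]; linarith
  have h2 : ∀ k, RR c + 2 ^ k * s ≤ ‖(fq c)^[k + n] z‖ := by
    intro k
    rw [Function.iterate_add_apply]
    exact escape_iter hspos.le (by rw [hs]; linarith) k
  have h3 : Tendsto (fun k : ℕ => RR c + 2 ^ k * s) atTop atTop := by
    apply tendsto_atTop_add_const_left
    exact (tendsto_pow_atTop_atTop_of_one_lt (by norm_num)).atTop_mul_const hspos
  have h4 := tendsto_atTop_mono h2 h3
  exact (tendsto_add_atTop_iff_nat n).mp h4

theorem mem_KJ_of_sub {z : ℂ} {q : ℕ} (hq : 1 ≤ q) {M : ℝ}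
    (h : ∀ i : ℕ, ‖((fq c)^[q])^[i] z‖ ≤ M) : z ∈ KJ c := by
  by_contra hz
  have h1 := tendsto_escape hz
  have h2 : Tendsto (fun i : ℕ => q * i) atTop atTop :=
    tendsto_id.const_mul_atTop' (by omega)
  have h3 := (h1.comp h2).eventually_gt_atTop M
  obtain ⟨i, hi⟩ := h3.exists
  have h4 := h i
  rw [← Function.iterate_mul] at h4
  simp only [Function.comp_apply] at hi
  linarith

theorem hasDerivAt_fq (c z : ℂ) : HasDerivAt (fq c) (2 * z) z := by
  unfold fq
  have := (hasDerivAt_pow 2 z).add_const c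
  simpa using this

theorem deriv_iter_fixed (hp : fq c p = p) (q : ℕ) : HasDerivAt ((fq c)^[q]) ((2 * p) ^ q) p :=
  HasDerivAt.iterate p (hasDerivAt_fq c p) hp q

theorem differentiable_fq (c : ℂ) : Differentiable ℂ (fq c) :=
  fun z => (hasDerivAt_fq c z).differentiableAt

/-- **Snail lemma**: no periodic ray lands at an irrationally indifferent fixed point. -/
theorem noPer (hφ : IsBottcher c φ) (hp : fq c p = p) (hpn : ‖2 * p‖ = 1)
    (hirr : ∀ q : ℕ, 1 ≤ q → (2 * p) ^ q ≠ 1) : NoPer φ p := by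
  intro t ht q hq m hm
  obtain ⟨δ, hδ, h⟩ := snail1 hφ hp hpn ht hm (hirr q hq)
  obtain ⟨z, hzp, hz⟩ := exists_trapped (g := (fq c)^[q]) ((differentiable_fq c).iterate q)
    (Function.iterate_fixed hp q) (by
      rw [(deriv_iter_fixed hp q).deriv, norm_pow, hpn, one_pow]) (ρ := δ / 2) (by positivity)
  have hzK : z ∈ KJ c := by
    refine mem_KJ_of_sub hq (M := ‖p‖ + δ / 2) fun i => ?_
    have := hz i
    rw [mem_closedBall, dist_eq_norm] at this
    have h2 := norm_sub_norm_le (((fq c)^[q])^[i] z) p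
    linarith
  obtain ⟨i, hi⟩ := h z hzK hzp
  exact hi (closedBall_subset_ball (by linarith) (hz i))

end Pool.Agent.H712R2.Cremer
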