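import Pool.Agent.H712R2.LogLift

set_option autoImplicit false

open Complex Set Topology unitInterval Filter

namespace Pool.Agent.H712R2

theorem exp_lift_unique {X : Type*} [TopologicalSpace X] {S : Set X} (hS : IsPreconnected S)
    {u v : X → ℂ} (hu : ContinuousOn u S) (hv : ContinuousOn v S)
    (h : ∀ x ∈ S, Complex.exp (u x) = Complex.exp (v x)) {x₀ : X} (hx₀ : x₀ ∈ S)
    (h0 : u x₀ = v x₀) : ∀ x ∈ S, u x = v x := by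
  have cov := Complex.isCoveringMap_exp
  have := cov.eqOn_of_comp_eqOn hS hu hv ?_ hx₀ h0
  · exact this
  · intro x hx
    apply Subtype.ext
    exact h x hx

/-- `L` is the end value of the continuous logarithm, starting at `0`, of the path `g` on `[0,1]`. -/
def IsPL (g : ℝ → ℂ) (L : ℂ) : Prop :=
  ∃ h : ℝ → ℂ, ContinuousOn h (Icc 0 1) ∧ h 0 = 0 ∧
    (∀ ρ ∈ Icc (0:ℝ) 1, Complex.exp (h ρ) = g ρ) ∧ h 1 = L

namespace IsPL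

theorem exp_eq {g : ℝ → ℂ} {L : ℂ} (h : IsPL g L) : Complex.exp L = g 1 := by
  obtain ⟨h, h1, h2, h3, h4⟩ := h
  rw [← h4]; exact h3 1 (by simp)

theorem unique {g : ℝ → ℂ} {L L' : ℂ} (h : IsPL g L) (h' : IsPL g L') : L = L' := by
  obtain ⟨h, h1, h2, h3, h4⟩ := h
  obtain ⟨h', h1', h2', h3', h4'⟩ := h'
  have := exp_lift_unique (S := Icc (0:ℝ) 1) isPreconnected_Icc h1 h1'
    (fun x hx => by rw [h3 x hx, h3' x hx]) (x₀ := 0) (by simp) (by rw [h2, h2']) 1 (by simp)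
  rw [← h4, ← h4', this]

theorem congr {g g' : ℝ → ℂ} {L : ℂ} (h : IsPL g L) (hg : ∀ ρ ∈ Icc (0:ℝ) 1, g ρ = g' ρ) :
    IsPL g' L := by
  obtain ⟨h, h1, h2, h3, h4⟩ := h
  exact ⟨h, h1, h2, fun ρ hρ => by rw [h3 ρ hρ, hg ρ hρ], h4⟩

theorem mul {g g' : ℝ → ℂ} {L L' : ℂ} (h : IsPL g L) (h' : IsPL g' L') :
    IsPL (fun ρ => g ρ * g' ρ) (L + L') := by
  obtain ⟨h, h1, h2, h3, h4⟩ := h
  obtain ⟨h', h1', h2', h3', h4'⟩ := h'
  refine ⟨fun ρ => h ρ + h' ρ, h1.add h1', by simp [h2, h2'], fun ρ hρ => ?_, by simp [h4, h4']⟩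
  rw [Complex.exp_add, h3 ρ hρ, h3' ρ hρ]

theorem reparam {g : ℝ → ℂ} {L : ℂ} (h : IsPL g L) {s : ℝ → ℝ} (hs : ContinuousOn s (Icc 0 1))
    (hs0 : s 0 = 0) (hs1 : s 1 = 1) (hm : MapsTo s (Icc 0 1) (Icc 0 1)) :
    IsPL (fun ρ => g (s ρ)) L := by
  obtain ⟨h, h1, h2, h3, h4⟩ := h
  refine ⟨fun ρ => h (s ρ), h1.comp hs hm, by simp [hs0, h2], fun ρ hρ => h3 _ (hm hρ),
    by simp [hs1, h4]⟩

theorem of_slit {g : ℝ → ℂ} (hg : ContinuousOn g (Icc 0 1)) (h0 : g 0 = 1)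
    (h : ∀ ρ ∈ Icc (0:ℝ) 1, g ρ ∈ slitPlane) : IsPL g (Complex.log (g 1)) := by
  refine ⟨fun ρ => Complex.log (g ρ), hg.clog h, by simp [h0], fun ρ hρ => ?_, rfl⟩
  exact Complex.exp_log (slitPlane_ne_zero (h ρ hρ))

/-- existence, continuously in a parameter -/
theorem exists_param {Z : Type*} [TopologicalSpace Z] {S : Set Z} {G : Z → ℝ → ℂ}
    (hG : ContinuousOn (fun q : Z × ℝ => G q.1 q.2) (S ×ˢ Icc (0:ℝ) 1))
    (hG0 : ∀ z ∈ S, G z 0 = 1) (hne : ∀ z ∈ S, ∀ ρ ∈ Icc (0:ℝ) 1, G z ρ ≠ 0) :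
    ∃ l : Z → ℂ, ContinuousOn l S ∧ ∀ z ∈ S, IsPL (G z) (l z) := by
  classical
  let A : Set (Z × ℂ) := {q | q.1 ∈ S ∧ ∃ ρ ∈ Icc (0:ℝ) 1, q.2 = (ρ : ℂ)}
  let T : Z × ℂ → ℂ := fun q => G q.1 q.2.re
  have hA : ∀ e x, (e, x) ∈ A → ∀ s : ℝ, s ∈ Icc (0:ℝ) 1 → (e, (s:ℂ) * x) ∈ A := by
    rintro e x ⟨h1, ρ, hρ, rfl⟩ s hs
    refine ⟨h1, s * ρ, ⟨by have := hs.1; have := hρ.1; positivity, ?_⟩, by simp⟩
    calc s * ρ ≤ 1 * 1 := mul_le_mul hs.2 hρ.2 hρ.1 (by norm_num)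
      _ = 1 := by norm_num
  have hT : ContinuousOn T A := by
    have : ContinuousOn (fun q : Z × ℂ => (q.1, q.2.re)) A := by fun_prop
    refine hG.comp this ?_
    rintro ⟨e, x⟩ ⟨h1, ρ, hρ, h2⟩
    simp only at h2
    subst h2
    exact ⟨h1, by simpa using hρ⟩
  obtain ⟨h, h1, h2, h3⟩ := exists_log_star hA hT
    (by
      rintro e x ⟨h1, -⟩
      simpa [T] using hG0 e h1)
    (by
      rintro ⟨e, x⟩ ⟨h1, ρ, hρ, h2⟩
      simp only at h2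
      subst h2
      simpa [T] using hne e h1 ρ hρ)
  have key : ∀ z ∈ S, ∀ ρ ∈ Icc (0:ℝ) 1, ((z, (ρ:ℂ)) : Z × ℂ) ∈ A :=
    fun z hz ρ hρ => ⟨hz, ρ, hρ, rfl⟩
  refine ⟨fun z => h (z, 1), ?_, ?_⟩
  · refine h1.comp (by fun_prop) ?_
    intro z hz
    simpa using key z hz 1 (by simp)
  · intro z hz
    refine ⟨fun ρ => h (z, (ρ:ℂ)), ?_, ?_, ?_, by simp⟩
    · exact h1.comp (by fun_prop) (fun ρ hρ => key z hz ρ hρ)
    · have := h3 z 1 (by simpa using key z hz 1 (by simp))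
      simpa using this
    · intro ρ hρ
      rw [h2 _ (key z hz ρ hρ)]
      simp [T]

theorem exists_single {g : ℝ → ℂ} (hg : ContinuousOn g (Icc 0 1)) (h0 : g 0 = 1)
    (hne : ∀ ρ ∈ Icc (0:ℝ) 1, g ρ ≠ 0) : ∃ L, IsPL g L := by
  obtain ⟨l, -, hl⟩ := exists_param (Z := Unit) (S := Set.univ) (G := fun _ => g)
    (hg.comp (by fun_prop) (fun q hq => hq.2)) (fun _ _ => h0) (fun _ _ => hne)
  exact ⟨l (), hl () (Set.mem_univ _)⟩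

end IsPL

end Pool.Agent.H712R2
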