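import Mathlib

set_option autoImplicit false

open Complex Set Topology Filter

namespace Pool.Agent.H712R2.Cremer

/-- The quadratic polynomial `f_c(z) = z² + c`. -/
def fq (c : ℂ) : ℂ → ℂ := fun z => z ^ 2 + c

/-- The filled-in Julia set of `f_c`: the points with bounded orbit. -/
def KJ (c : ℂ) : Set ℂ := {z | BddAbove (Set.range fun n : ℕ => ‖(fq c)^[n] z‖)}

/-- The Julia set of `f_c`: the boundary of the filled-in Julia set. -/
def JJ (c : ℂ) : Set ℂ := frontier (KJ c)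

/-- `φ` is the Böttcher parametrisation of the basin of infinity of `f_c`: a biholomorphic map from
`{|w| > 1}` onto the complement of `K_c` which conjugates `w ↦ w²` to `f_c` and is tangent to the
identity at infinity. -/
structure IsBottcher (c : ℂ) (φ : ℂ → ℂ) : Prop where
  diff : DifferentiableOn ℂ φ {w | 1 < ‖w‖}
  inj : Set.InjOn φ {w | 1 < ‖w‖}
  image : φ '' {w | 1 < ‖w‖} = (KJ c)ᶜ
  conj : ∀ w, 1 < ‖w‖ → φ (w ^ 2) = fq c (φ w)
  norm : Tendsto (fun w => φ w / w) (Bornology.cobounded ℂ) (𝓝 1)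

/-- The point `e^{2πit}` of the unit circle. -/
noncomputable def ee (t : ℝ) : ℂ := Complex.exp (2 * Real.pi * t * Complex.I)

/-- The external ray of angle `t`, parametrised by `φ`, lands at `p`. -/
def Lands (φ : ℂ → ℂ) (p : ℂ) (t : ℝ) : Prop :=
  Tendsto (fun r : ℝ => φ ((r : ℂ) * ee t)) (𝓝[>] 1) (𝓝 p)

theorem ee_add (s t : ℝ) : ee (s + t) = ee s * ee t := by
  rw [ee, ee, ee, ← Complex.exp_add]; congr 1; push_cast; ring

theorem ee_zero : ee 0 = 1 := by simp [ee]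

theorem norm_ee (t : ℝ) : ‖ee t‖ = 1 := by
  have := Complex.norm_exp_ofReal_mul_I (2 * Real.pi * t)
  rw [ee]; push_cast at this; exact this

theorem ee_ne (t : ℝ) : ee t ≠ 0 := Complex.exp_ne_zero _

theorem ee_int (n : ℤ) : ee n = 1 := by
  rw [ee, Complex.exp_eq_one_iff]
  exact ⟨n, by push_cast; ring⟩

theorem ee_add_int (t : ℝ) (n : ℤ) : ee (t + n) = ee t := by rw [ee_add, ee_int, mul_one]

theorem ee_neg (t : ℝ) : ee (-t) = (ee t)⁻¹ := by
  rw [ee, ee, ← Complex.exp_neg]; congr 1; push_cast; ring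

theorem ee_neg_mul (t : ℝ) : ee (-t) * ee t = 1 := by
  rw [ee_neg, inv_mul_cancel₀ (ee_ne t)]

theorem ee_two (t : ℝ) : ee (2 * t) = ee t ^ 2 := by
  rw [two_mul, ee_add, sq]

theorem ee_half : ee (1/2) = -1 := by
  rw [ee]
  rw [show (2 * (Real.pi:ℂ) * ((1/2 : ℝ) : ℂ) * Complex.I) = Real.pi * Complex.I by push_cast; ring]
  exact Complex.exp_pi_mul_I

theorem ee_add_half (t : ℝ) : ee (t + 1/2) = - ee t := by
  rw [ee_add, ee_half]; ring

theorem ee_eq_iff {s t : ℝ} : ee s = ee t ↔ ∃ n : ℤ, s = t + n := by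
  constructor
  · intro h
    rw [ee, ee, Complex.exp_eq_exp_iff_exists_int] at h
    obtain ⟨n, hn⟩ := h
    refine ⟨n, ?_⟩
    have h2 : (2 * Real.pi * Complex.I) * ((s:ℂ) - t - n) = 0 := by linear_combination hn
    have h3 : (2 * (Real.pi:ℂ) * Complex.I) ≠ 0 := Complex.two_pi_I_ne_zero
    have h4 := (mul_eq_zero.mp h2).resolve_left h3
    have h5 : (((s - t - n : ℝ)) : ℂ) = 0 := by push_cast; exact h4
    have h6 : s - t - n = 0 := by exact_mod_cast h5
    linarith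
  · rintro ⟨n, rfl⟩
    exact ee_add_int t n

theorem continuous_fq (c : ℂ) : Continuous (fq c) := by unfold fq; fun_prop

theorem continuous_fq_iter (c : ℂ) (n : ℕ) : Continuous (fq c)^[n] := (continuous_fq c).iterate n

theorem fq_neg (c z : ℂ) : fq c (-z) = fq c z := by simp [fq]

theorem mem_KJ_iff {c z : ℂ} : z ∈ KJ c ↔ ∃ M : ℝ, ∀ n : ℕ, ‖(fq c)^[n] z‖ ≤ M := by
  simp only [KJ, Set.mem_ofPred_eq, BddAbove, Set.Nonempty, upperBounds, Set.mem_range]
  constructor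
  · rintro ⟨M, hM⟩
    exact ⟨M, fun n => hM ⟨n, rfl⟩⟩
  · rintro ⟨M, hM⟩
    exact ⟨M, by rintro a ⟨n, rfl⟩; exact hM n⟩

theorem fq_mem_KJ {c z : ℂ} : fq c z ∈ KJ c ↔ z ∈ KJ c := by
  rw [mem_KJ_iff, mem_KJ_iff]
  constructor
  · rintro ⟨M, hM⟩
    refine ⟨max M ‖z‖, fun n => ?_⟩
    rcases n with _ | n
    · simp
    · rw [Function.iterate_succ_apply]
      exact (hM n).trans (le_max_left _ _)
  · rintro ⟨M, hM⟩
    refine ⟨M, fun n => ?_⟩
    rw [← Function.iterate_succ_apply]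
    exact hM _

theorem fq_iter_mem_KJ {c z : ℂ} (n : ℕ) : (fq c)^[n] z ∈ KJ c ↔ z ∈ KJ c := by
  induction n with
  | zero => simp
  | succ n ih => rw [Function.iterate_succ_apply', fq_mem_KJ, ih]

theorem neg_mem_KJ {c z : ℂ} : -z ∈ KJ c ↔ z ∈ KJ c := by
  rw [← fq_mem_KJ, fq_neg, fq_mem_KJ]

/-- escape radius -/
noncomputable def RR (c : ℂ) : ℝ := ‖c‖ + 2

theorem escape_step {c z : ℂ} {s : ℝ} (hs : 0 ≤ s) (hz : RR c + s ≤ ‖z‖) :
    RR c + 2 * s ≤ ‖fq c z‖ := by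
  unfold RR at *
  have h1 : ‖z‖ ^ 2 - ‖c‖ ≤ ‖fq c z‖ := by
    have : ‖z ^ 2‖ ≤ ‖fq c z‖ + ‖c‖ := by
      calc ‖z ^ 2‖ = ‖fq c z - c‖ := by simp [fq]
        _ ≤ _ := norm_sub_le _ _
    rw [norm_pow] at this
    linarith
  have h2 := norm_nonneg c
  nlinarith

theorem escape_iter {c z : ℂ} {s : ℝ} (hs : 0 ≤ s) (hz : RR c + s ≤ ‖z‖) (n : ℕ) :
    RR c + 2 ^ n * s ≤ ‖(fq c)^[n] z‖ := by
  induction n with
  | zero => simpa using hz
  | succ n ih =>
    rw [Function.iterate_succ_apply']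
    have := escape_step (s := 2 ^ n * s) (by positivity) ih
    calc RR c + 2 ^ (n+1) * s = RR c + 2 * (2 ^ n * s) := by ring
      _ ≤ _ := this

theorem norm_le_of_mem_KJ {c z : ℂ} (hz : z ∈ KJ c) : ‖z‖ ≤ RR c := by
  by_contra h
  push Not at h
  obtain ⟨M, hM⟩ := mem_KJ_iff.mp hz
  have hs : 0 < ‖z‖ - RR c := by linarith
  have h1 := fun n => escape_iter (c := c) (z := z) (s := ‖z‖ - RR c) hs.le (by linarith) n
  have h2 : Tendsto (fun n : ℕ => (2:ℝ) ^ n) atTop atTop := tendsto_pow_atTop_atTop_of_one_lt (by norm_num)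
  obtain ⟨n, hn⟩ := (h2.eventually_gt_atTop ((M - RR c) / (‖z‖ - RR c))).exists
  have h3 := (h1 n).trans (hM n)
  rw [div_lt_iff₀ hs] at hn
  linarith

theorem KJ_eq (c : ℂ) : KJ c = ⋂ n : ℕ, (fq c)^[n] ⁻¹' Metric.closedBall 0 (RR c) := by
  ext z
  simp only [Set.mem_iInter, Set.mem_preimage, mem_closedBall_zero_iff]
  constructor
  · intro hz n
    exact norm_le_of_mem_KJ ((fq_iter_mem_KJ n).mpr hz)
  · intro h
    exact mem_KJ_iff.mpr ⟨_, h⟩

theorem isClosed_KJ (c : ℂ) : IsClosed (KJ c) := by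
  rw [KJ_eq]
  exact isClosed_iInter fun n => Metric.isClosed_closedBall.preimage (continuous_fq_iter c n)

theorem isCompact_KJ (c : ℂ) : IsCompact (KJ c) := by
  refine (isCompact_closedBall (0:ℂ) (RR c)).of_isClosed_subset (isClosed_KJ c) ?_
  intro z hz
  simpa using norm_le_of_mem_KJ hz

theorem JJ_subset (c : ℂ) : JJ c ⊆ KJ c := (isClosed_KJ c).frontier_subset

theorem isOpenMap_fq (c : ℂ) : IsOpenMap (fq c) := by
  have h1 : IsOpenMap (fun z : ℂ => z ^ 2) := (isOpenQuotientMap_pow 2).isOpenMap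
  have h2 : IsOpenMap (fun z : ℂ => z + c) := (Homeomorph.addRight c).isOpenMap
  exact h2.comp h1

theorem fq_mem_JJ {c z : ℂ} : fq c z ∈ JJ c ↔ z ∈ JJ c := by
  have h := (isOpenMap_fq c).preimage_frontier_eq_frontier_preimage (continuous_fq c) (KJ c)
  have h2 : fq c ⁻¹' KJ c = KJ c := by
    ext z; exact fq_mem_KJ
  rw [h2] at h
  change z ∈ fq c ⁻¹' frontier (KJ c) ↔ _
  rw [h]; rfl

theorem fq_iter_mem_JJ {c z : ℂ} (n : ℕ) : (fq c)^[n] z ∈ JJ c ↔ z ∈ JJ c := by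
  induction n with
  | zero => simp
  | succ n ih => rw [Function.iterate_succ_apply', fq_mem_JJ, ih]

theorem isClosed_JJ (c : ℂ) : IsClosed (JJ c) := isClosed_frontier

theorem isCompact_JJ (c : ℂ) : IsCompact (JJ c) :=
  (isCompact_KJ c).of_isClosed_subset (isClosed_JJ c) (JJ_subset c)

theorem fixed_mem_KJ {c p : ℂ} (h : fq c p = p) : p ∈ KJ c := by
  rw [mem_KJ_iff]
  exact ⟨‖p‖, fun n => by rw [Function.iterate_fixed h]⟩

/-- The product formula for difference quotients of iterates. -/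
theorem iter_sub (c a z : ℂ) (n : ℕ) :
    (fq c)^[n] a - (fq c)^[n] z =
      (a - z) * ∏ i ∈ Finset.range n, ((fq c)^[i] a + (fq c)^[i] z) := by
  induction n with
  | zero => simp
  | succ n ih =>
    rw [Finset.prod_range_succ, ← mul_assoc, ← ih, Function.iterate_succ_apply',
      Function.iterate_succ_apply']
    simp only [fq]
    ring

end Pool.Agent.H712R2.Cremer
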