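import Pool.Agent.H712R2.PathLog
import Pool.Agent.H712R2.QuadDefs

set_option autoImplicit false

open Complex Set Topology Filter

namespace Pool.Agent.H712R2.Cremer

theorem zero_mem_KJ {c : ℂ} {φ : ℂ → ℂ} (hφ : IsBottcher c φ) : (0:ℂ) ∈ KJ c := by
  by_contra h
  have h1 : (0:ℂ) ∈ φ '' {w | 1 < ‖w‖} := by rw [hφ.image]; exact h
  obtain ⟨w, hw, hw0⟩ := h1
  have hw' : 1 < ‖w‖ := hw
  have h2 : 1 < ‖-w‖ := by rwa [norm_neg]
  -- φ(-w)^2 = φ(w)^2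
  have e1 := hφ.conj w hw'
  have e2 := hφ.conj (-w) h2
  rw [neg_sq, e1] at e2
  simp only [fq, hw0] at e2
  have e3 : φ (-w) = 0 := by
    have : (φ (-w)) ^ 2 = 0 := by linear_combination -e2
    simpa using this
  have := hφ.inj h2 hw (by rw [e3, hw0])
  have h3 : w = 0 := by linear_combination (-1/2) * this
  rw [h3] at hw'
  simp at hw'
  linarith

theorem phi_neg {c : ℂ} {φ : ℂ → ℂ} (hφ : IsBottcher c φ) {w : ℂ} (hw : 1 < ‖w‖) :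
    φ (-w) = - φ w := by
  have h2 : 1 < ‖-w‖ := by rwa [norm_neg]
  have e1 := hφ.conj w hw
  have e2 := hφ.conj (-w) h2
  rw [neg_sq, e1] at e2
  simp only [fq] at e2
  have e3 : (φ (-w) - φ w) * (φ (-w) + φ w) = 0 := by linear_combination -e2
  rcases mul_eq_zero.mp e3 with h | h
  · have h4 : φ (-w) = φ w := by linear_combination h
    have h5 := hφ.inj h2 hw h4
    have h3 : w = 0 := by linear_combination (-1/2) * h5
    rw [h3] at hw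
    simp at hw
    linarith
  · linear_combination h

/-- the normalised path along the ray -/
noncomputable def tau (φ : ℂ → ℂ) (p : ℂ) (t : ℝ) (ρ : ℝ) : ℂ :=
  if ρ = 0 then 1 else if ρ < 1 then (ρ : ℂ) * ee (-t) * φ ((ρ⁻¹ : ℝ) * ee t) else p * ee (-t)

/-- the normalised difference along the ray -/
noncomputable def TT (φ : ℂ → ℂ) (p : ℂ) (t : ℝ) (z : ℂ) (ρ : ℝ) : ℂ :=
  tau φ p t ρ - z * ρ * ee (-t)

theorem tau_zero (φ : ℂ → ℂ) (p : ℂ) (t : ℝ) : tau φ p t 0 = 1 := by simp [tau]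
theorem tau_one (φ : ℂ → ℂ) (p : ℂ) (t : ℝ) : tau φ p t 1 = p * ee (-t) := by simp [tau]
theorem tau_mid (φ : ℂ → ℂ) (p : ℂ) (t : ℝ) {ρ : ℝ} (h0 : 0 < ρ) (h1 : ρ < 1) :
    tau φ p t ρ = (ρ : ℂ) * ee (-t) * φ ((ρ⁻¹ : ℝ) * ee t) := by
  simp [tau, h0.ne', h1]

theorem TT_zero (φ : ℂ → ℂ) (p : ℂ) (t : ℝ) (z : ℂ) : TT φ p t z 0 = 1 := by
  simp [TT, tau_zero]
theorem TT_one (φ : ℂ → ℂ) (p : ℂ) (t : ℝ) (z : ℂ) : TT φ p t z 1 = (p - z) * ee (-t) := by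
  simp [TT, tau_one]; ring
theorem TT_mid (φ : ℂ → ℂ) (p : ℂ) (t : ℝ) (z : ℂ) {ρ : ℝ} (h0 : 0 < ρ) (h1 : ρ < 1) :
    TT φ p t z ρ = (ρ : ℂ) * ee (-t) * (φ ((ρ⁻¹ : ℝ) * ee t) - z) := by
  rw [TT, tau_mid φ p t h0 h1]; ring

theorem norm_ray {t ρ : ℝ} (h0 : 0 < ρ) : ‖((ρ⁻¹ : ℝ) : ℂ) * ee t‖ = ρ⁻¹ := by
  rw [norm_mul, norm_ee, mul_one, Complex.norm_real, Real.norm_eq_abs, abs_of_pos (by positivity)]

theorem one_lt_norm_ray {t ρ : ℝ} (h0 : 0 < ρ) (h1 : ρ < 1) :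
    1 < ‖((ρ⁻¹ : ℝ) : ℂ) * ee t‖ := by
  rw [norm_ray h0]; exact (one_lt_inv₀ h0).mpr h1

theorem continuousOn_phi {c : ℂ} {φ : ℂ → ℂ} (hφ : IsBottcher c φ) :
    ContinuousOn φ {w | 1 < ‖w‖} := hφ.diff.continuousOn

theorem isOpen_ext : IsOpen {w : ℂ | 1 < ‖w‖} := isOpen_lt continuous_const continuous_norm

/-- `tau` is continuous on `[0,1)`. -/
theorem continuousOn_tau' {c : ℂ} {φ : ℂ → ℂ} (hφ : IsBottcher c φ) (p : ℂ) (t : ℝ) :
    ContinuousOn (tau φ p t) (Ico 0 1) := by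
  intro ρ hρ
  rcases eq_or_lt_of_le hρ.1 with h0 | h0
  · -- at 0
    subst h0
    -- tau ρ = φ(w)/w with w = ρ⁻¹ e(t)
    rw [ContinuousWithinAt, tau_zero]
    have hmem : ∀ᶠ ρ : ℝ in 𝓝[Ico 0 1] 0, ρ = 0 ∨ (0 < ρ ∧ ρ < 1) := by
      filter_upwards [self_mem_nhdsWithin] with ρ hρ
      rcases eq_or_lt_of_le hρ.1 with h | h
      · exact Or.inl h.symm
      · exact Or.inr ⟨h, hρ.2⟩
    -- limit from the right
    have h1 : Tendsto (fun ρ : ℝ => ((ρ⁻¹ : ℝ) : ℂ) * ee t) (𝓝[>] 0) (Bornology.cobounded ℂ) := by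
      rw [← tendsto_norm_atTop_iff_cobounded]
      have : Tendsto (fun ρ : ℝ => ρ⁻¹) (𝓝[>] 0) atTop := tendsto_inv_nhdsGT_zero
      refine this.congr' ?_
      filter_upwards [self_mem_nhdsWithin] with ρ hρ
      exact (norm_ray hρ).symm
    have h2 := hφ.norm.comp h1
    have h3 : Tendsto (tau φ p t) (𝓝[>] 0) (𝓝 1) := by
      refine h2.congr' ?_
      have : ∀ᶠ ρ : ℝ in 𝓝[>] 0, ρ < 1 := nhdsWithin_le_nhds (Iio_mem_nhds (by norm_num))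
      filter_upwards [self_mem_nhdsWithin, this] with ρ hρ hρ1
      rw [tau_mid φ p t hρ hρ1]
      have h0 : (ρ:ℂ) ≠ 0 := by exact_mod_cast (ne_of_gt hρ)
      simp only [Function.comp_apply]
      rw [ee_neg]
      have := ee_ne t
      push_cast
      field_simp
    intro U hU
    have h4 := h3 hU
    rw [mem_map, mem_nhdsWithin_iff_exists_mem_nhds_inter] at h4
    obtain ⟨W, hW, hWU⟩ := h4
    rw [mem_map, mem_nhdsWithin_iff_exists_mem_nhds_inter]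
    refine ⟨W, hW, ?_⟩
    rintro x ⟨hx, hx2⟩
    rcases eq_or_lt_of_le hx2.1 with h | h
    · subst h
      simp only [mem_preimage, tau_zero]
      exact mem_of_mem_nhds hU
    · exact hWU ⟨hx, h⟩
  · -- 0 < ρ < 1
    have hev : tau φ p t =ᶠ[𝓝 ρ] fun ρ : ℝ => (ρ : ℂ) * ee (-t) * φ ((ρ⁻¹ : ℝ) * ee t) := by
      have h1 : ∀ᶠ x : ℝ in 𝓝 ρ, 0 < x := Ioi_mem_nhds h0
      have h2 : ∀ᶠ x : ℝ in 𝓝 ρ, x < 1 := Iio_mem_nhds hρ.2
      filter_upwards [h1, h2] with x hx1 hx2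
      exact tau_mid φ p t hx1 hx2
    refine ContinuousAt.continuousWithinAt ?_
    refine ContinuousAt.congr ?_ hev.symm
    have h5 : ContinuousAt φ (((ρ⁻¹ : ℝ) : ℂ) * ee t) :=
      (continuousOn_phi hφ).continuousAt (isOpen_ext.mem_nhds (one_lt_norm_ray h0 hρ.2))
    have h6 : ContinuousAt (fun ρ : ℝ => ((ρ⁻¹ : ℝ) : ℂ) * ee t) ρ := by
      have : ContinuousAt (fun ρ : ℝ => ρ⁻¹) ρ := continuousAt_inv₀ h0.ne'
      have h7 : ContinuousAt (fun ρ : ℝ => ((ρ⁻¹ : ℝ) : ℂ)) ρ :=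
        Complex.continuous_ofReal.continuousAt.comp this
      exact h7.mul continuousAt_const
    have h8 : ContinuousAt (fun ρ : ℝ => φ (((ρ⁻¹ : ℝ) : ℂ) * ee t)) ρ :=
      ContinuousAt.comp (f := fun ρ : ℝ => ((ρ⁻¹ : ℝ) : ℂ) * ee t) h5 h6
    have h9 : ContinuousAt (fun ρ : ℝ => (ρ : ℂ) * ee (-t)) ρ := by fun_prop
    exact h9.mul h8

theorem continuousOn_tau {c : ℂ} {φ : ℂ → ℂ} (hφ : IsBottcher c φ) {p : ℂ} {t : ℝ}
    (ht : Lands φ p t) : ContinuousOn (tau φ p t) (Icc 0 1) := by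
  intro ρ hρ
  rcases eq_or_lt_of_le hρ.2 with h1 | h1
  · subst h1
    rw [ContinuousWithinAt, tau_one]
    have hinv : Tendsto (fun ρ : ℝ => ρ⁻¹) (𝓝[<] 1) (𝓝[>] 1) := by
      rw [tendsto_nhdsWithin_iff]
      constructor
      · have : Tendsto (fun ρ : ℝ => ρ⁻¹) (𝓝 1) (𝓝 1) := by
          have := (continuousAt_inv₀ (one_ne_zero (α := ℝ))).tendsto
          rwa [inv_one] at this
        exact this.mono_left nhdsWithin_le_nhds
      · have : ∀ᶠ ρ : ℝ in 𝓝[<] 1, 0 < ρ := nhdsWithin_le_nhds (Ioi_mem_nhds (by norm_num))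
        filter_upwards [self_mem_nhdsWithin, this] with ρ hρ hρ0
        exact (one_lt_inv₀ hρ0).mpr hρ
    have h2 := ht.comp hinv
    have h3 : Tendsto (fun ρ : ℝ => (ρ : ℂ) * ee (-t)) (𝓝[<] 1) (𝓝 (ee (-t))) := by
      have : ContinuousAt (fun ρ : ℝ => (ρ : ℂ) * ee (-t)) 1 := by fun_prop
      have h4 := this.tendsto
      simp only [Complex.ofReal_one, one_mul] at h4
      exact h4.mono_left nhdsWithin_le_nhds
    have h5 : Tendsto (tau φ p t) (𝓝[<] 1) (𝓝 (p * ee (-t))) := by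
      rw [mul_comm p]
      refine (h3.mul h2).congr' ?_
      have : ∀ᶠ ρ : ℝ in 𝓝[<] 1, 0 < ρ := nhdsWithin_le_nhds (Ioi_mem_nhds (by norm_num))
      filter_upwards [self_mem_nhdsWithin, this] with ρ hρ hρ0
      rw [tau_mid φ p t hρ0 hρ]
      rfl
    intro U hU
    have h4 := h5 hU
    rw [mem_map, mem_nhdsWithin_iff_exists_mem_nhds_inter] at h4
    obtain ⟨W, hW, hWU⟩ := h4
    rw [mem_map, mem_nhdsWithin_iff_exists_mem_nhds_inter]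
    refine ⟨W, hW, ?_⟩
    rintro x ⟨hx, hx2⟩
    rcases eq_or_lt_of_le hx2.2 with h | h
    · subst h
      simp only [mem_preimage, tau_one]
      exact mem_of_mem_nhds hU
    · exact hWU ⟨hx, h⟩
  · have := continuousOn_tau' hφ p t ρ ⟨hρ.1, h1⟩
    have h2 : ContinuousAt (fun x => tau φ p t x) ρ ∨ True := Or.inr trivial
    refine (this.mono_of_mem_nhdsWithin ?_)
    rw [mem_nhdsWithin_iff_exists_mem_nhds_inter]
    exact ⟨Iio 1, Iio_mem_nhds h1, fun x hx => ⟨hx.2.1, hx.1⟩⟩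

theorem continuousOn_TT {c : ℂ} {φ : ℂ → ℂ} (hφ : IsBottcher c φ) {p : ℂ} {t : ℝ}
    (ht : Lands φ p t) :
    ContinuousOn (fun q : ℂ × ℝ => TT φ p t q.1 q.2) (Set.univ ×ˢ Icc (0:ℝ) 1) := by
  unfold TT
  refine ContinuousOn.sub ?_ (by fun_prop)
  exact (continuousOn_tau hφ ht).comp (by fun_prop) (fun q hq => hq.2)

/-- the complement of the ray together with its landing point -/
def ZZ (φ : ℂ → ℂ) (p : ℂ) (t : ℝ) : Set ℂ :=
  {z | ∀ ρ ∈ Icc (0:ℝ) 1, TT φ p t z ρ ≠ 0}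

theorem mem_ZZ_iff {φ : ℂ → ℂ} {p : ℂ} {t : ℝ} {z : ℂ} :
    z ∈ ZZ φ p t ↔ z ≠ p ∧ ∀ r : ℝ, 1 < r → φ ((r:ℂ) * ee t) ≠ z := by
  constructor
  · intro h
    constructor
    · rintro rfl
      exact h 1 (by simp) (by simp [TT_one])
    · intro r hr hz
      have hr0 : 0 < r := by linarith
      refine h r⁻¹ ⟨by positivity, (inv_le_one₀ hr0).mpr hr.le⟩ ?_
      rw [TT_mid φ p t z (inv_pos.mpr hr0) ((inv_lt_one₀ hr0).mpr hr), inv_inv, hz]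
      simp
  · rintro ⟨h1, h2⟩ ρ hρ
    rcases eq_or_lt_of_le hρ.1 with h | h
    · subst h; rw [TT_zero]; exact one_ne_zero
    · rcases eq_or_lt_of_le hρ.2 with h' | h'
      · subst h'
        rw [TT_one]
        exact mul_ne_zero (sub_ne_zero.mpr (Ne.symm h1)) (ee_ne _)
      · rw [TT_mid φ p t z h h']
        refine mul_ne_zero (mul_ne_zero (by exact_mod_cast h.ne') (ee_ne _)) ?_
        exact sub_ne_zero.mpr (h2 _ ((one_lt_inv₀ h).mpr h'))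

theorem KJ_subset_ZZ {c : ℂ} {φ : ℂ → ℂ} (hφ : IsBottcher c φ) {p z : ℂ} {t : ℝ}
    (hz : z ∈ KJ c) (hzp : z ≠ p) : z ∈ ZZ φ p t := by
  rw [mem_ZZ_iff]
  refine ⟨hzp, fun r hr h => ?_⟩
  have h1 : z ∈ φ '' {w | 1 < ‖w‖} := ⟨(r:ℂ) * ee t, by
    simp only [mem_ofPred_eq, norm_mul, norm_ee, mul_one, Complex.norm_real, Real.norm_eq_abs]
    rwa [abs_of_pos (by linarith)], h⟩
  rw [hφ.image] at h1
  exact h1 hz

theorem isOpen_ZZ {c : ℂ} {φ : ℂ → ℂ} (hφ : IsBottcher c φ) {p : ℂ} {t : ℝ}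
    (ht : Lands φ p t) : IsOpen (ZZ φ p t) := by
  rw [Metric.isOpen_iff]
  intro z hz
  have hc : ContinuousOn (fun ρ : ℝ => ‖TT φ p t z ρ‖) (Icc 0 1) := by
    refine ContinuousOn.norm ?_
    exact (continuousOn_TT hφ ht).comp (f := fun ρ : ℝ => (z, ρ)) (by fun_prop)
      (fun ρ hρ => ⟨mem_univ _, hρ⟩)
  obtain ⟨ρ₀, hρ₀, hmin⟩ := isCompact_Icc.exists_isMinOn ⟨0, by simp⟩ hc
  have hm : 0 < ‖TT φ p t z ρ₀‖ := norm_pos_iff.mpr (hz ρ₀ hρ₀)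
  refine ⟨‖TT φ p t z ρ₀‖, hm, fun z' hz' ρ hρ h0 => ?_⟩
  have h1 : ‖TT φ p t z ρ₀‖ ≤ ‖TT φ p t z ρ‖ := hmin hρ
  have h2 : TT φ p t z ρ = (z' - z) * ρ * ee (-t) := by
    have : TT φ p t z ρ = TT φ p t z ρ - TT φ p t z' ρ := by rw [h0, sub_zero]
    rw [this, TT, TT]; ring
  rw [h2, norm_mul, norm_mul, norm_ee, mul_one, Complex.norm_real, Real.norm_eq_abs,
    abs_of_nonneg hρ.1] at h1
  rw [mem_ball_iff_norm] at hz'
  have h3 : ‖z' - z‖ * ρ ≤ ‖z' - z‖ * 1 := mul_le_mul_of_nonneg_left hρ.2 (norm_nonneg _)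
  linarith

end Pool.Agent.H712R2.Cremer
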