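import Pool.Agent.H712R2.Combi
import Pool.Agent.H712R2.Lyap

set_option autoImplicit false

open Complex Set Topology Filter Metric

namespace Pool.Agent.H712R2.Cremer

variable {c : ℂ} {φ : ℂ → ℂ} {p : ℂ}

theorem phi_iter (hφ : IsBottcher c φ) {w : ℂ} (hw : 1 < ‖w‖) (n : ℕ) :
    φ (w ^ (2 ^ n)) = (fq c)^[n] (φ w) ∧ 1 < ‖w ^ (2 ^ n)‖ := by
  induction n with
  | zero => simp [hw]
  | succ n ih =>
    obtain ⟨h1, h2⟩ := ih
    constructor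
    · rw [pow_succ, pow_mul, hφ.conj _ h2, h1, Function.iterate_succ_apply']
    · rw [norm_pow]
      exact one_lt_pow₀ hw (by positivity)

/-- product formula -/
noncomputable def QQ (c : ℂ) (q : ℕ) (a z : ℂ) : ℂ :=
  ∏ i ∈ Finset.range q, ((fq c)^[i] a + (fq c)^[i] z)

theorem QQ_self (hp : fq c p = p) (q : ℕ) : QQ c q p p = (2 * p) ^ q := by
  unfold QQ
  have : ∀ i ∈ Finset.range q, (fq c)^[i] p + (fq c)^[i] p = 2 * p := by
    intro i _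
    rw [Function.iterate_fixed hp]; ring
  rw [Finset.prod_congr rfl this, Finset.prod_const, Finset.card_range]

theorem continuous_QQ (q : ℕ) : Continuous (fun x : ℂ × ℂ => QQ c q x.1 x.2) := by
  unfold QQ
  refine continuous_finsetProd _ fun i _ => ?_
  exact ((continuous_fq_iter c i).comp continuous_fst).add
    ((continuous_fq_iter c i).comp continuous_snd)

/-- The logarithm along a ray with parameters. -/
theorem exists_H (hφ : IsBottcher c φ) {t : ℝ} (ht : Lands φ p t) :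
    ∃ H : ℂ → ℝ → ℂ,
      ContinuousOn (fun x : ℂ × ℝ => H x.1 x.2)
        {x | x.1 ∈ KJ c ∧ x.2 ∈ Icc (0:ℝ) 1 ∧ ¬ (x.1 = p ∧ x.2 = 1)} ∧
      ∀ z ∈ KJ c, ∀ ρ ∈ Icc (0:ℝ) 1, ¬ (z = p ∧ ρ = 1) → Complex.exp (H z ρ) = TT φ p t z ρ := by
  let A : Set (ℂ × ℂ) := {x | x.1 ∈ KJ c ∧ ∃ ρ ∈ Icc (0:ℝ) 1, x.2 = (ρ:ℂ) ∧ ¬ (x.1 = p ∧ ρ = 1)}
  let T : ℂ × ℂ → ℂ := fun x => TT φ p t x.1 x.2.re
  have hne : ∀ z ∈ KJ c, ∀ ρ ∈ Icc (0:ℝ) 1, ¬ (z = p ∧ ρ = 1) → TT φ p t z ρ ≠ 0 := by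
    intro z hz ρ hρ hnot
    rcases eq_or_lt_of_le hρ.1 with h | h
    · subst h; rw [TT_zero]; exact one_ne_zero
    · rcases eq_or_lt_of_le hρ.2 with h' | h'
      · subst h'
        have hzp : z ≠ p := fun hh => hnot ⟨hh, rfl⟩
        exact KJ_subset_ZZ hφ hz hzp 1 (by simp)
      · rw [TT_mid φ p t z h h']
        refine mul_ne_zero (mul_ne_zero (by exact_mod_cast h.ne') (ee_ne _)) ?_
        intro h0
        have h1 : φ ((ρ⁻¹ : ℝ) * ee t) ∈ (KJ c)ᶜ := by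
          rw [← hφ.image]; exact ⟨_, one_lt_norm_ray h h', rfl⟩
        rw [sub_eq_zero.mp h0] at h1
        exact h1 hz
  have hA : ∀ e x, (e, x) ∈ A → ∀ s : ℝ, s ∈ Icc (0:ℝ) 1 → (e, (s:ℂ) * x) ∈ A := by
    rintro e x ⟨h1, ρ, hρ, h2, h3⟩ s hs
    simp only at h2
    subst h2
    refine ⟨h1, s * ρ, ⟨mul_nonneg hs.1 hρ.1, ?_⟩, by simp, ?_⟩
    · calc s * ρ ≤ 1 * 1 := mul_le_mul hs.2 hρ.2 hρ.1 (by norm_num)
        _ = 1 := by norm_num
    · rintro ⟨g1, g2⟩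
      apply h3
      refine ⟨g1, ?_⟩
      have a1 := hs.1; have a2 := hs.2; have a3 := hρ.1; have a4 := hρ.2
      nlinarith
  have hT : ContinuousOn T A := by
    have : ContinuousOn (fun q : ℂ × ℂ => (q.1, q.2.re)) A := by fun_prop
    refine (continuousOn_TT hφ ht).comp this ?_
    rintro ⟨e, x⟩ ⟨h1, ρ, hρ, h2, h3⟩
    simp only at h2
    subst h2
    exact ⟨mem_univ _, by simpa using hρ⟩
  obtain ⟨h, h1, h2, h3⟩ := exists_log_star hA hT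
    (by
      rintro e x ⟨h1, -⟩
      simp [T, TT_zero])
    (by
      rintro ⟨e, x⟩ ⟨h1, ρ, hρ, h2, h3⟩
      simp only at h2
      subst h2
      simpa [T] using hne e h1 ρ hρ h3)
  refine ⟨fun z ρ => h (z, (ρ:ℂ)), ?_, ?_⟩
  · refine h1.comp (f := fun x : ℂ × ℝ => (x.1, (x.2 : ℂ))) (by fun_prop) ?_
    rintro ⟨z, ρ⟩ ⟨g1, g2, g3⟩
    exact ⟨g1, ρ, g2, rfl, g3⟩
  · intro z hz ρ hρ hnot
    rw [h2 (z, (ρ:ℂ)) ⟨hz, ρ, hρ, rfl, hnot⟩]
    simp [T]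

/-- No point of `K` other than `p` stays forever near `p`, when a periodic ray lands at `p`. -/
theorem snail1 (hφ : IsBottcher c φ) (hp : fq c p = p) (hpn : ‖2 * p‖ = 1)
    {t : ℝ} (ht : Lands φ p t) {q : ℕ} {m : ℤ} (hm : 2 ^ q * t = t + m)
    (hμ : (2 * p) ^ q ≠ 1) :
    ∃ δ > 0, ∀ z ∈ KJ c, z ≠ p → ∃ i : ℕ, ((fq c)^[q])^[i] z ∉ ball p δ := by
  set μ := (2 * p) ^ q with hμdef
  set g := (fq c)^[q] with hg
  have hgp : g p = p := Function.iterate_fixed hp q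
  have hgK : ∀ {z}, z ∈ KJ c → g z ∈ KJ c := fun {z} hz => (fq_iter_mem_KJ q).mpr hz
  have hμn : ‖μ‖ = 1 := by rw [hμdef, norm_pow, hpn, one_pow]
  have hμ0 : μ ≠ 0 := by intro h; rw [h, norm_zero] at hμn; exact zero_ne_one hμn
  obtain ⟨H, hHc, hHe⟩ := exists_H hφ ht (p := p)
  set N : ℕ := 2 ^ q with hN
  have hN1 : 1 ≤ N := Nat.one_le_two_pow
  have hpK : p ∈ KJ c := fixed_mem_KJ hp
  -- ray points
  set γ : ℝ → ℂ := fun ρ => φ ((ρ⁻¹ : ℝ) * ee t) with hγ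
  have heN : ee t ^ N = ee t := by
    have h1 : ee t ^ N = ee ((N:ℝ) * t) := by
      rw [ee, ee, ← Complex.exp_nat_mul]; congr 1; push_cast; ring
    rw [h1, hN]
    push_cast
    rw [hm, ee_add_int]
  have hpowN : ∀ {ρ : ℝ}, 0 < ρ → ρ < 1 → 0 < ρ ^ N ∧ ρ ^ N < 1 := fun {ρ} h0 h1 =>
    ⟨by positivity, pow_lt_one₀ h0.le h1 (by omega)⟩
  -- exp of D
  have hD : ∀ z ∈ KJ c, ∀ ρ : ℝ, 0 < ρ → ρ < 1 →
      Complex.exp (H (g z) (ρ ^ N) - H z ρ - (N - 1) * (Real.log ρ : ℝ)) = QQ c q (γ ρ) z := by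
    intro z hz ρ h0 h1
    obtain ⟨h2, h3⟩ := hpowN h0 h1
    have hzne : ∀ {x : ℂ} {r : ℝ}, r < 1 → ¬ (x = p ∧ r = 1) := by
      rintro x r hr ⟨-, rfl⟩; exact lt_irrefl _ hr
    have e1 := hHe (g z) (hgK hz) (ρ ^ N) ⟨h2.le, h3.le⟩ (hzne h3)
    have e2 := hHe z hz ρ ⟨h0.le, h1.le⟩ (hzne h1)
    rw [Complex.exp_sub, Complex.exp_sub, e1, e2, TT_mid φ p t _ h2 h3, TT_mid φ p t _ h0 h1]
    have e3 : (((ρ ^ N)⁻¹ : ℝ) : ℂ) * ee t = (((ρ⁻¹ : ℝ) : ℂ) * ee t) ^ N := by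
      rw [mul_pow, heN]; push_cast; rw [inv_pow]
    rw [e3, (phi_iter hφ (one_lt_norm_ray h0 h1) q).1]
    have e4 : Complex.exp ((N - 1) * (Real.log ρ : ℝ)) * ρ = (ρ:ℂ) ^ N := by
      have : Complex.exp ((N - 1) * (Real.log ρ : ℝ)) = (ρ:ℂ) ^ (N - 1) := by
        have h5 : ((N:ℂ) - 1) = ((N - 1 : ℕ) : ℂ) := by
          rw [Nat.cast_sub hN1]; simp
        rw [h5, Complex.exp_nat_mul, ← Complex.ofReal_exp, Real.exp_log h0]
      rw [this, ← pow_succ, Nat.sub_add_cancel hN1]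
    have e5 : φ (((ρ⁻¹ : ℝ) : ℂ) * ee t) - z ≠ 0 := by
      intro h5
      have h6 : φ ((ρ⁻¹ : ℝ) * ee t) ∈ (KJ c)ᶜ := by
        rw [← hφ.image]; exact ⟨_, one_lt_norm_ray h0 h1, rfl⟩
      rw [sub_eq_zero.mp h5] at h6
      exact h6 hz
    have e6 : (fq c)^[q] (φ (((ρ⁻¹ : ℝ) : ℂ) * ee t)) - g z =
        (φ (((ρ⁻¹ : ℝ) : ℂ) * ee t) - z) * QQ c q (γ ρ) z := by
      rw [hg, iter_sub]; rfl
    rw [e6]
    have e7 := ee_ne (-t)
    have e8 : (ρ : ℂ) ≠ 0 := by exact_mod_cast h0.ne'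
    have e9 := Complex.exp_ne_zero ((N - 1) * (Real.log ρ : ℝ))
    rw [div_div, div_eq_iff (by
      exact mul_ne_zero (mul_ne_zero (mul_ne_zero e8 e7) e5) e9)]
    rw [Complex.ofReal_pow]
    linear_combination (-ee (-t) * (φ (((ρ⁻¹ : ℝ) : ℂ) * ee t) - z) * QQ c q (γ ρ) z) * e4
  -- constants
  set β₀ : ℝ := Complex.arg μ with hβ₀
  have hβ₀ne : β₀ ≠ 0 := by
    intro h
    rw [hβ₀, Complex.arg_eq_zero_iff] at h
    apply hμ
    have h1 : (μ.re : ℂ) = μ := Complex.ext (by simp) (by simp [h.2])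
    have h2 : ‖((μ.re : ℝ) : ℂ)‖ = 1 := by rw [h1]; exact hμn
    rw [Complex.norm_real, Real.norm_eq_abs, abs_of_nonneg h.1] at h2
    rw [← h1, h2]; simp
  set κ : ℝ := |β₀| / 2 with hκ
  have hκpos : 0 < κ := by rw [hκ]; have := abs_pos.mpr hβ₀ne; linarith
  obtain ⟨η, hη, hlog⟩ : ∃ η > 0, ∀ w ∈ ball μ η, w / μ ∈ slitPlane ∧
      |(Complex.log (w / μ)).im| ≤ κ := by
    have h1 : ContinuousAt (fun w => w / μ) μ := by fun_prop (disch := exact hμ0)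
    have h11 : μ / μ = 1 := div_self hμ0
    have h2 : ∀ᶠ w in 𝓝 μ, w / μ ∈ slitPlane := h1.eventually_mem (by
      rw [h11]; exact isOpen_slitPlane.mem_nhds one_mem_slitPlane)
    have h3 : ContinuousAt (fun w => (Complex.log (w / μ)).im) μ := by
      refine Complex.continuous_im.continuousAt.comp ?_
      refine ContinuousAt.clog h1 ?_
      rw [h11]; exact one_mem_slitPlane
    have h4 : ∀ᶠ w in 𝓝 μ, |(Complex.log (w / μ)).im| < κ := by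
      refine (h3.abs).eventually_lt continuousAt_const ?_
      rw [h11, Complex.log_one]
      simpa using hκpos
    obtain ⟨η, hη, hb⟩ := Metric.eventually_nhds_iff_ball.mp (h2.and h4)
    exact ⟨η, hη, fun w hw => ⟨(hb w hw).1, (hb w hw).2.le⟩⟩
  obtain ⟨δ₁, hδ₁, hQ⟩ : ∃ δ₁ > 0, ∀ a ∈ ball p δ₁, ∀ z ∈ ball p δ₁, QQ c q a z ∈ ball μ η := by
    have h1 := (continuous_QQ (c := c) q).continuousAt (x := (p, p))
    have h2 : ∀ᶠ x : ℂ × ℂ in 𝓝 (p, p), QQ c q x.1 x.2 ∈ ball μ η := h1.eventually_mem (by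
      simp only [QQ_self hp]; exact ball_mem_nhds _ hη)
    obtain ⟨δ, hδ, hb⟩ := Metric.eventually_nhds_iff_ball.mp h2
    refine ⟨δ, hδ, fun a ha z hz => hb (a, z) ?_⟩
    rw [← ball_prod_same]
    exact ⟨ha, hz⟩
  -- ρ₀
  obtain ⟨ρ₀, hρ₀0, hρ₀1, hγball⟩ : ∃ ρ₀ : ℝ, 0 < ρ₀ ∧ ρ₀ < 1 ∧
      ∀ ρ, ρ₀ ≤ ρ → ρ < 1 → γ ρ ∈ ball p δ₁ := by
    have h1 : ∀ᶠ r : ℝ in 𝓝[>] (1:ℝ), φ ((r:ℂ) * ee t) ∈ ball p δ₁ := ht (ball_mem_nhds p hδ₁)
    rw [eventually_nhdsWithin_iff] at h1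
    obtain ⟨ε, hε, hb⟩ := Metric.eventually_nhds_iff_ball.mp h1
    refine ⟨(1 + ε / 2)⁻¹, by positivity, ?_, fun ρ h2 h3 => ?_⟩
    · rw [inv_lt_one₀ (by positivity)]; linarith
    · have h0 : 0 < ρ := lt_of_lt_of_le (by positivity) h2
      apply hb
      · rw [mem_ball, Real.dist_eq, abs_of_pos (by
          have := (one_lt_inv₀ h0).mpr h3; linarith)]
        have : ρ⁻¹ ≤ 1 + ε / 2 := by
          rw [inv_le_comm₀ h0 (by positivity)]; exact h2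
        linarith
      · exact (one_lt_inv₀ h0).mpr h3
  -- E
  set D : ℂ → ℝ → ℂ := fun z ρ => H (g z) (ρ ^ N) - H z ρ - (N - 1) * (Real.log ρ : ℝ) with hDdef
  set E : ℂ → ℝ → ℂ := fun z ρ => D z ρ - Complex.log (QQ c q (γ ρ) z / μ) with hEdef
  have hE : ∀ z ∈ KJ c, z ∈ ball p δ₁ → ∀ ρ, ρ₀ ≤ ρ → ρ < 1 → Complex.exp (E z ρ) = μ := by
    intro z hz hzb ρ h1 h2
    have h3 := hQ _ (hγball ρ h1 h2) z hzb
    have h4 := hlog _ h3
    rw [hEdef]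
    simp only
    rw [Complex.exp_sub, hD z hz ρ (lt_of_lt_of_le hρ₀0 h1) h2,
      Complex.exp_log (slitPlane_ne_zero h4.1)]
    have h5 : QQ c q (γ ρ) z ≠ 0 := by
      intro h0
      have := slitPlane_ne_zero h4.1
      rw [h0, zero_div] at this
      exact this rfl
    field_simp
  have hHcz : ∀ ρ : ℝ, 0 ≤ ρ → ρ < 1 → ContinuousOn (fun z => H z ρ) (KJ c) := by
    intro ρ h0 h1
    refine hHc.comp (f := fun z : ℂ => (z, ρ)) (by fun_prop) ?_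
    intro z hz
    exact ⟨hz, ⟨h0, h1.le⟩, fun h => by have := h.2; simp only at this; linarith⟩
  have hHcρ : ∀ z ∈ KJ c, ContinuousOn (fun ρ => H z ρ) (Ico 0 1) := by
    intro z hz
    refine hHc.comp (f := fun ρ : ℝ => (z, ρ)) (by fun_prop) ?_
    intro ρ hρ
    exact ⟨hz, ⟨hρ.1, hρ.2.le⟩, fun h => by
      have h1 := h.2; simp only at h1; have := hρ.2; linarith⟩
  have hγc : ContinuousOn γ (Ioo 0 1) := by
    rw [hγ]
    refine (continuousOn_phi hφ).comp ?_ (fun ρ hρ => one_lt_norm_ray hρ.1 hρ.2)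
    have h1 : ContinuousOn (fun ρ : ℝ => ρ⁻¹) (Ioo 0 1) :=
      continuousOn_id.inv₀ fun ρ hρ => hρ.1.ne'
    have h2 : ContinuousOn (fun ρ : ℝ => ((ρ⁻¹ : ℝ) : ℂ)) (Ioo 0 1) :=
      Complex.continuous_ofReal.comp_continuousOn h1
    exact h2.mul continuousOn_const
  -- E is constant in ρ
  have hEconst : ∀ z ∈ KJ c, z ∈ ball p δ₁ → ∀ ρ, ρ₀ ≤ ρ → ρ < 1 → E z ρ = E z ρ₀ := by
    intro z hz hzb ρ h1 h2
    have hc : ContinuousOn (fun ρ => E z ρ) (Ico ρ₀ 1) := by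
      have c1 : ContinuousOn (fun ρ => H (g z) (ρ ^ N)) (Ico ρ₀ 1) :=
        (hHcρ (g z) (hgK hz)).comp (f := fun ρ : ℝ => ρ ^ N) (by fun_prop) (fun ρ hρ => by
          have h0 : 0 < ρ := lt_of_lt_of_le hρ₀0 hρ.1
          exact ⟨(hpowN h0 hρ.2).1.le, (hpowN h0 hρ.2).2⟩)
      have c2 : ContinuousOn (fun ρ => H z ρ) (Ico ρ₀ 1) :=
        (hHcρ z hz).mono (fun ρ hρ => ⟨hρ₀0.le.trans hρ.1, hρ.2⟩)
      have c3 : ContinuousOn (fun ρ : ℝ => ((N:ℂ) - 1) * ((Real.log ρ : ℝ) : ℂ)) (Ico ρ₀ 1) := by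
        refine continuousOn_const.mul (Complex.continuous_ofReal.comp_continuousOn ?_)
        exact Real.continuousOn_log.mono (fun ρ hρ => by
          have h0 : 0 < ρ := lt_of_lt_of_le hρ₀0 hρ.1
          exact h0.ne')
      have c4 : ContinuousOn (fun ρ => Complex.log (QQ c q (γ ρ) z / μ)) (Ico ρ₀ 1) := by
        refine ContinuousOn.clog ?_ (fun ρ hρ => (hlog _ (hQ _ (hγball ρ hρ.1 hρ.2) z hzb)).1)
        refine ContinuousOn.div_const ?_ μ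
        exact (continuous_QQ (c := c) q).comp_continuousOn
          (ContinuousOn.prodMk (hγc.mono fun ρ hρ => ⟨lt_of_lt_of_le hρ₀0 hρ.1, hρ.2⟩)
            continuousOn_const)
      exact ((c1.sub c2).sub c3).sub c4
    exact exp_lift_unique (S := Ico ρ₀ 1) isPreconnected_Ico hc
      (v := fun _ => E z ρ₀) continuousOn_const
      (fun x hx => by rw [hE z hz hzb x hx.1 hx.2, hE z hz hzb ρ₀ le_rfl hρ₀1])
      (x₀ := ρ₀) ⟨le_rfl, hρ₀1⟩ rfl ρ ⟨h1, h2⟩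
  -- E is locally constant in z at ρ₀
  obtain ⟨δ₂, hδ₂, hδ₂le, hEz⟩ : ∃ δ₂ > 0, δ₂ ≤ δ₁ ∧ ∀ z ∈ KJ c, z ∈ ball p δ₂ →
      E z ρ₀ = E p ρ₀ := by
    have hc : ContinuousOn (fun z => E z ρ₀) (KJ c ∩ ball p δ₁) := by
      have c1 : ContinuousOn (fun z => H (g z) (ρ₀ ^ N)) (KJ c) := by
        obtain ⟨h2, h3⟩ := hpowN hρ₀0 hρ₀1
        exact (hHcz (ρ₀ ^ N) h2.le h3).comp (continuous_fq_iter c q).continuousOn
          (fun z hz => hgK hz)
      have c2 := hHcz ρ₀ hρ₀0.le hρ₀1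
      have c4 : ContinuousOn (fun z => Complex.log (QQ c q (γ ρ₀) z / μ)) (KJ c ∩ ball p δ₁) := by
        refine ContinuousOn.clog ?_ (fun z hz =>
          (hlog _ (hQ _ (hγball ρ₀ le_rfl hρ₀1) z hz.2)).1)
        refine ContinuousOn.div_const ?_ μ
        exact (continuous_QQ (c := c) q).comp_continuousOn
          (ContinuousOn.prodMk continuousOn_const continuousOn_id)
      exact ((((c1.sub c2).mono inter_subset_left).sub continuousOn_const)).sub c4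
    have h1 := hc p ⟨hpK, mem_ball_self hδ₁⟩
    rw [Metric.continuousWithinAt_iff] at h1
    obtain ⟨δ, hδ, hb⟩ := h1 1 one_pos
    refine ⟨min δ δ₁, by positivity, min_le_right _ _, fun z hz hzb => ?_⟩
    have hzb1 : z ∈ ball p δ₁ := ball_subset_ball (min_le_right _ _) hzb
    have h2 := hb ⟨hz, hzb1⟩ (mem_ball.mp (ball_subset_ball (min_le_left _ _) hzb))
    have h3 : Complex.exp (E z ρ₀) = Complex.exp (E p ρ₀) := by
      rw [hE z hz hzb1 ρ₀ le_rfl hρ₀1, hE p hpK (mem_ball_self hδ₁) ρ₀ le_rfl hρ₀1]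
    rw [Complex.exp_eq_exp_iff_exists_int] at h3
    obtain ⟨n, hn⟩ := h3
    have h4 : ‖(n:ℂ) * (2 * Real.pi * Complex.I)‖ < 1 := by
      rw [dist_eq_norm, hn, add_sub_cancel_left] at h2
      exact h2
    have h5 : ‖(n:ℂ) * (2 * Real.pi * Complex.I)‖ = |(n:ℝ)| * (2 * Real.pi) := by
      rw [norm_mul, norm_mul, norm_mul, Complex.norm_I, mul_one, Complex.norm_real,
        Complex.norm_intCast]
      simp [abs_of_pos Real.pi_pos]
    rw [h5] at h4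
    have hn0 : n = 0 := by
      by_contra hne
      have h6 : (1:ℝ) ≤ |(n:ℝ)| := by
        have := Int.one_le_abs hne
        exact_mod_cast this
      have := Real.pi_gt_three
      nlinarith
    rw [hn, hn0]; simp
  -- imaginary part of E p ρ₀
  set β : ℝ := (E p ρ₀).im with hβ
  have hexpE := hE p hpK (mem_ball_self hδ₁) ρ₀ le_rfl hρ₀1
  have hβge : |β₀| ≤ |β| := by
    have h1 : Complex.exp (E p ρ₀) = Complex.exp (Complex.log μ) := by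
      rw [hexpE, Complex.exp_log hμ0]
    rw [Complex.exp_eq_exp_iff_exists_int] at h1
    obtain ⟨n, hn⟩ := h1
    have h2 : β = β₀ + n * (2 * Real.pi) := by
      rw [hβ, hn, hβ₀, Complex.add_im, Complex.log_im]
      simp
    rcases eq_or_ne n 0 with h0 | h0
    · rw [h2, h0]; simp
    · have h6 : (1:ℝ) ≤ |(n:ℝ)| := by
        have := Int.one_le_abs h0
        exact_mod_cast this
      have h7 : |β₀| ≤ Real.pi := Complex.abs_arg_le_pi μ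
      have h8 : |(n:ℝ) * (2 * Real.pi)| = |(n:ℝ)| * (2 * Real.pi) := by
        rw [abs_mul, abs_of_pos (by positivity : (0:ℝ) < 2 * Real.pi)]
      have h9 : |(n:ℝ) * (2 * Real.pi)| ≤ |β| + |β₀| := by
        have : (n:ℝ) * (2 * Real.pi) = β - β₀ := by rw [h2]; ring
        rw [this]; exact abs_sub _ _
      have := Real.pi_pos
      nlinarith
  -- sign
  obtain ⟨σ, hσ, hσβ⟩ : ∃ σ : ℝ, |σ| = 1 ∧ σ * β = |β| := by
    rcases le_total 0 β with h | h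
    · exact ⟨1, by simp, by rw [abs_of_nonneg h]; ring⟩
    · exact ⟨-1, by simp, by rw [abs_of_nonpos h]; ring⟩
  have hstep : ∀ z ∈ KJ c, z ∈ ball p δ₂ → ∀ ρ, ρ₀ ≤ ρ → ρ < 1 →
      κ ≤ σ * ((H (g z) (ρ ^ N)).im - (H z ρ).im) := by
    intro z hz hzb ρ h1 h2
    have hzb1 : z ∈ ball p δ₁ := ball_subset_ball hδ₂le hzb
    have e1 : E z ρ = E p ρ₀ := (hEconst z hz hzb1 ρ h1 h2).trans (hEz z hz hzb)
    have e2 : D z ρ = E p ρ₀ + Complex.log (QQ c q (γ ρ) z / μ) := by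
      rw [← e1, hEdef]; simp
    have e3 : (D z ρ).im = (H (g z) (ρ ^ N)).im - (H z ρ).im := by
      rw [hDdef]
      simp only [Complex.sub_im]
      have : (((N:ℂ) - 1) * ((Real.log ρ : ℝ) : ℂ)).im = 0 := by
        have h5 : ((N:ℂ) - 1) * ((Real.log ρ : ℝ) : ℂ) = ((((N:ℝ) - 1) * Real.log ρ : ℝ) : ℂ) := by
          push_cast; ring
        rw [h5, Complex.ofReal_im]
      rw [this]; ring
    have e4 := (hlog _ (hQ _ (hγball ρ h1 h2) z hzb1)).2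
    rw [← e3, e2, Complex.add_im, mul_add, ← hβ, hσβ]
    have e5 : |σ * (Complex.log (QQ c q (γ ρ) z / μ)).im| ≤ κ := by
      rw [abs_mul, hσ, one_mul]; exact e4
    have e6 := (abs_le.mp e5).1
    have e7 : |β₀| = 2 * κ := by rw [hκ]; ring
    linarith
  refine ⟨δ₂, hδ₂, fun z hz hzp => ?_⟩
  by_contra hcon
  push Not at hcon
  -- summation
  have hsum : ∀ i : ℕ, ∀ z ∈ KJ c, (∀ k : ℕ, g^[k] z ∈ ball p δ₂) → ∀ a : ℝ, ρ₀ ≤ a → a < 1 →
      a ^ (N ^ i) = ρ₀ → i * κ ≤ σ * ((H (g^[i] z) ρ₀).im - (H z a).im) := by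
    intro i
    induction i with
    | zero =>
      intro z hz _ a h1 h2 h3
      simp only [pow_zero, pow_one] at h3
      rw [h3]; simp
    | succ i ih =>
      intro z hz hzb a h1 h2 h3
      have ha0 : 0 < a := lt_of_lt_of_le hρ₀0 h1
      have h4 : (a ^ N) ^ (N ^ i) = ρ₀ := by
        rw [← pow_mul, ← h3]; congr 1; rw [pow_succ]; ring
      have h5 : a ^ N < 1 := (hpowN ha0 h2).2
      have h6 : ρ₀ ≤ a ^ N := by
        rw [← h4]
        exact pow_le_of_le_one (by positivity) h5.le (by positivity)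
      have h7 := ih (g z) (hgK hz) (fun k => by
        rw [← Function.iterate_succ_apply]; exact hzb (k+1)) (a ^ N) h6 h5 h4
      have h8 := hstep z hz (by simpa using hzb 0) a h1 h2
      rw [Function.iterate_succ_apply]
      push_cast
      linarith
  -- bounds
  obtain ⟨C₁, hC₁⟩ : ∃ C : ℝ, ∀ x ∈ KJ c, ‖H x ρ₀‖ ≤ C :=
    (isCompact_KJ c).exists_bound_of_continuousOn (hHcz ρ₀ hρ₀0.le hρ₀1)
  obtain ⟨C₂, hC₂⟩ : ∃ C : ℝ, ∀ x ∈ Icc (0:ℝ) 1, ‖H z x‖ ≤ C := by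
    apply isCompact_Icc.exists_bound_of_continuousOn
    refine hHc.comp (f := fun ρ : ℝ => (z, ρ)) (by fun_prop) ?_
    intro ρ hρ
    exact ⟨hz, hρ, fun h => hzp h.1⟩
  obtain ⟨i, hi⟩ := exists_nat_gt ((C₁ + C₂) / κ)
  rw [div_lt_iff₀ hκpos] at hi
  -- a
  have hNi : N ^ i ≠ 0 := by positivity
  set a : ℝ := ρ₀ ^ (((N ^ i : ℕ) : ℝ)⁻¹) with ha
  have ha1 : a ^ (N ^ i) = ρ₀ := Real.rpow_inv_natCast_pow hρ₀0.le hNi
  have ha2 : a < 1 := Real.rpow_lt_one hρ₀0.le hρ₀1 (by positivity)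
  have ha0 : 0 < a := Real.rpow_pos_of_pos hρ₀0 _
  have ha3 : ρ₀ ≤ a := by
    calc ρ₀ = a ^ (N ^ i) := ha1.symm
      _ ≤ a := pow_le_of_le_one ha0.le ha2.le hNi
  have h1 := hsum i z hz hcon a ha3 ha2 ha1
  have hgi : g^[i] z ∈ KJ c := by
    have : ∀ k : ℕ, g^[k] z ∈ KJ c := by
      intro k
      induction k with
      | zero => simpa using hz
      | succ k ih => rw [Function.iterate_succ_apply']; exact hgK ih
    exact this i
  have h2 : |σ * ((H (g^[i] z) ρ₀).im - (H z a).im)| ≤ C₁ + C₂ := by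
    rw [abs_mul, hσ, one_mul]
    refine (abs_sub _ _).trans (add_le_add ?_ ?_)
    · exact (Complex.abs_im_le_norm _).trans (hC₁ _ hgi)
    · exact (Complex.abs_im_le_norm _).trans (hC₂ a ⟨ha0.le, ha2.le⟩)
  have h3 := (abs_le.mp h2).2
  linarith

end Pool.Agent.H712R2.Cremer
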