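import Pool.Agent.H712R2.Rays

set_option autoImplicit false

open Complex Set Topology Filter

namespace Pool.Agent.H712R2.Cremer

open Classical in
/-- the logarithm of `(p - z) e(-t)` determined by the ray of angle `t` -/
noncomputable def ell (φ : ℂ → ℂ) (p : ℂ) (t : ℝ) (z : ℂ) : ℂ :=
  if h : ∃ L, IsPL (TT φ p t z) L then h.choose else 0

/-- the angular function -/
noncomputable def vv (φ : ℂ → ℂ) (p : ℂ) (t : ℝ) (z : ℂ) : ℝ :=
  (ell φ p t z).im / (2 * Real.pi) + t

variable {c : ℂ} {φ : ℂ → ℂ} {p : ℂ}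

theorem ell_spec (hφ : IsBottcher c φ) {t : ℝ} (ht : Lands φ p t) {z : ℂ} (hz : z ∈ ZZ φ p t) :
    IsPL (TT φ p t z) (ell φ p t z) := by
  have h : ∃ L, IsPL (TT φ p t z) L := by
    refine IsPL.exists_single ?_ (TT_zero φ p t z) hz
    exact (continuousOn_TT hφ ht).comp (f := fun ρ : ℝ => (z, ρ)) (by fun_prop)
      (fun ρ hρ => ⟨mem_univ _, hρ⟩)
  rw [ell, dif_pos h]
  exact h.choose_spec

theorem ell_eq {t : ℝ} {z L : ℂ} (h : IsPL (TT φ p t z) L) : ell φ p t z = L := by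
  have h' : ∃ L, IsPL (TT φ p t z) L := ⟨L, h⟩
  rw [ell, dif_pos h']
  exact h'.choose_spec.unique h

theorem exp_ell (hφ : IsBottcher c φ) {t : ℝ} (ht : Lands φ p t) {z : ℂ} (hz : z ∈ ZZ φ p t) :
    Complex.exp (ell φ p t z) = (p - z) * ee (-t) := by
  rw [(ell_spec hφ ht hz).exp_eq, TT_one]

theorem continuousOn_ell (hφ : IsBottcher c φ) {t : ℝ} (ht : Lands φ p t) :
    ContinuousOn (ell φ p t) (ZZ φ p t) := by
  obtain ⟨l, hl, hl2⟩ := IsPL.exists_param (Z := ℂ) (S := ZZ φ p t) (G := TT φ p t)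
    ((continuousOn_TT hφ ht).mono (Set.prod_mono (subset_univ _) subset_rfl))
    (fun z _ => TT_zero φ p t z) (fun z hz => hz)
  exact hl.congr fun z hz => ell_eq (hl2 z hz)

theorem continuousOn_vv (hφ : IsBottcher c φ) {t : ℝ} (ht : Lands φ p t) :
    ContinuousOn (vv φ p t) (ZZ φ p t) := by
  unfold vv
  have := Complex.continuous_im.comp_continuousOn (continuousOn_ell hφ ht)
  exact (this.div_const _).add continuousOn_const

theorem TT_add_int (t : ℝ) (n : ℤ) (z : ℂ) (ρ : ℝ) : TT φ p (t + n) z ρ = TT φ p t z ρ := by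
  have h1 : ee (-(t + n)) = ee (-t) := by
    have := ee_add_int (-t) (-n)
    rw [← this]; congr 1; push_cast; ring
  simp only [TT, tau, ee_add_int, h1]

theorem ell_add_int (t : ℝ) (n : ℤ) (z : ℂ) : ell φ p (t + n) z = ell φ p t z := by
  have : TT φ p (t + n) z = TT φ p t z := funext fun ρ => TT_add_int t n z ρ
  unfold ell
  rw [this]

theorem vv_add_int (t : ℝ) (n : ℤ) (z : ℂ) : vv φ p (t + n) z = vv φ p t z + n := by
  simp only [vv, ell_add_int]; ring

theorem lands_add_int {t : ℝ} (n : ℤ) : Lands φ p (t + n) ↔ Lands φ p t := by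
  simp only [Lands, ee_add_int]

theorem ZZ_add_int (t : ℝ) (n : ℤ) : ZZ φ p (t + n) = ZZ φ p t := by
  simp only [ZZ, TT_add_int]

theorem lands_two (hφ : IsBottcher c φ) (hp : fq c p = p) {t : ℝ} (ht : Lands φ p t) :
    Lands φ p (2 * t) := by
  unfold Lands at *
  have h1 : Tendsto (fun r : ℝ => fq c (φ ((Real.sqrt r : ℂ) * ee t))) (𝓝[>] 1) (𝓝 (fq c p)) := by
    have h2 : Tendsto (fun r : ℝ => Real.sqrt r) (𝓝[>] 1) (𝓝[>] 1) := by
      rw [tendsto_nhdsWithin_iff]
      constructor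
      · have := (Real.continuous_sqrt.continuousAt (x := 1)).tendsto
        rw [Real.sqrt_one] at this
        exact this.mono_left nhdsWithin_le_nhds
      · filter_upwards [self_mem_nhdsWithin] with r hr
        have : (1:ℝ) < r := hr
        exact Real.lt_sqrt_of_sq_lt (by linarith)
    exact ((continuous_fq c).continuousAt.tendsto.comp ht).comp h2
  rw [hp] at h1
  refine h1.congr' ?_
  filter_upwards [self_mem_nhdsWithin] with r hr
  have hr1 : (1:ℝ) < r := hr
  have hn : 1 < ‖(Real.sqrt r : ℂ) * ee t‖ := by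
    rw [norm_mul, norm_ee, mul_one, Complex.norm_real, Real.norm_eq_abs,
      abs_of_nonneg (Real.sqrt_nonneg r)]
    exact Real.lt_sqrt_of_sq_lt (by linarith)
  rw [← hφ.conj _ hn, mul_pow, ee_two]
  congr 2
  rw [← Complex.ofReal_pow, Real.sq_sqrt (by linarith)]

/-- the functional equation along the ray -/
theorem TT_two (hφ : IsBottcher c φ) (hp : fq c p = p) (t : ℝ) (z : ℂ) {ρ : ℝ}
    (hρ : ρ ∈ Icc (0:ℝ) 1) :
    TT φ p (2 * t) (fq c z) (ρ ^ 2) = TT φ p t z ρ * TT φ p t (-z) ρ := by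
  have hee : ee (-(2 * t)) = ee (-t) ^ 2 := by
    rw [← ee_two]; congr 1; ring
  rcases eq_or_lt_of_le hρ.1 with h | h
  · subst h; norm_num [TT_zero]
  · rcases eq_or_lt_of_le hρ.2 with h' | h'
    · subst h'
      rw [one_pow, TT_one, TT_one, TT_one, hee]
      have : p - fq c z = (p - z) * (p + z) := by
        calc p - fq c z = fq c p - fq c z := by rw [hp]
          _ = _ := by simp only [fq]; ring
      rw [this]; ring
    · have h2 : ρ ^ 2 < 1 := by nlinarith
      have h3 : 0 < ρ ^ 2 := by positivity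
      rw [TT_mid φ p _ _ h3 h2, TT_mid φ p _ _ h h', TT_mid φ p _ _ h h', hee]
      have e1 : (((ρ ^ 2)⁻¹ : ℝ) : ℂ) * ee (2 * t) = (((ρ⁻¹ : ℝ) : ℂ) * ee t) ^ 2 := by
        rw [ee_two, mul_pow]; push_cast; ring
      rw [e1, hφ.conj _ (one_lt_norm_ray h h')]
      simp only [fq]
      push_cast
      ring

theorem ell_two (hφ : IsBottcher c φ) (hp : fq c p = p) {t : ℝ} (ht : Lands φ p t) {z : ℂ}
    (hz : z ∈ KJ c) (h1 : z ≠ p) (h2 : z ≠ -p) :
    ell φ p (2 * t) (fq c z) = ell φ p t z + ell φ p t (-z) := by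
  have hz' : -z ∈ KJ c := neg_mem_KJ.mpr hz
  have hzp' : -z ≠ p := fun h => h2 (by rw [← h, neg_neg])
  have hfz : fq c z ∈ KJ c := fq_mem_KJ.mpr hz
  have hfzp : fq c z ≠ p := by
    intro h
    have h3 : (z - p) * (z + p) = 0 := by
      have : fq c z = fq c p := by rw [h, hp]
      simp only [fq] at this
      linear_combination this
    rcases mul_eq_zero.mp h3 with h4 | h4
    · exact h1 (by linear_combination h4)
    · exact h2 (by linear_combination h4)
  have s1 := ell_spec hφ ht (KJ_subset_ZZ hφ (t := t) hz h1)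
  have s2 := ell_spec hφ ht (KJ_subset_ZZ hφ (t := t) hz' hzp')
  have s3 := ell_spec hφ (lands_two hφ hp ht) (KJ_subset_ZZ hφ (t := 2 * t) hfz hfzp)
  have s4 := s3.reparam (s := fun ρ => ρ ^ 2) (by fun_prop) (by norm_num) (by norm_num)
    (by
      intro ρ hρ
      exact ⟨by positivity, by have := hρ.1; have := hρ.2; nlinarith⟩)
  have s5 := (s1.mul s2).congr (g' := fun ρ => TT φ p (2 * t) (fq c z) (ρ ^ 2))
    (fun ρ hρ => (TT_two hφ hp t z hρ).symm)
  exact s4.unique s5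

theorem vv_two (hφ : IsBottcher c φ) (hp : fq c p = p) {t : ℝ} (ht : Lands φ p t) {z : ℂ}
    (hz : z ∈ KJ c) (h1 : z ≠ p) (h2 : z ≠ -p) :
    vv φ p (2 * t) (fq c z) = vv φ p t z + vv φ p t (-z) := by
  simp only [vv, ell_two hφ hp ht hz h1 h2, Complex.add_im]
  ring

/-- differences are integers -/
theorem vv_sub_int (hφ : IsBottcher c φ) {t t' : ℝ} (ht : Lands φ p t) (ht' : Lands φ p t')
    {z : ℂ} (hz : z ∈ ZZ φ p t) (hz' : z ∈ ZZ φ p t') :
    ∃ n : ℤ, vv φ p t z - vv φ p t' z = n := by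
  have e1 := exp_ell hφ ht hz
  have e2 := exp_ell hφ ht' hz'
  have hne : p - z ≠ 0 := sub_ne_zero.mpr (Ne.symm (mem_ZZ_iff.mp hz).1)
  have h1 : Complex.exp (ell φ p t z + 2 * Real.pi * t * Complex.I) =
      Complex.exp (ell φ p t' z + 2 * Real.pi * t' * Complex.I) := by
    rw [Complex.exp_add, Complex.exp_add, e1, e2]
    have f1 := ee_neg_mul t
    have f2 := ee_neg_mul t'
    have g1 : Complex.exp (2 * Real.pi * t * Complex.I) = ee t := rfl
    have g2 : Complex.exp (2 * Real.pi * t' * Complex.I) = ee t' := rfl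
    rw [g1, g2, mul_assoc, mul_assoc, f1, f2]
  rw [Complex.exp_eq_exp_iff_exists_int] at h1
  obtain ⟨n, hn⟩ := h1
  refine ⟨n, ?_⟩
  have h2 := congrArg Complex.im hn
  have g1 : (ell φ p t z + 2 * Real.pi * t * Complex.I).im = (ell φ p t z).im + 2 * Real.pi * t := by
    simp
  have g2 : (ell φ p t' z + 2 * Real.pi * t' * Complex.I + n * (2 * Real.pi * Complex.I)).im =
      (ell φ p t' z).im + 2 * Real.pi * t' + n * (2 * Real.pi) := by
    simp
  rw [g1, g2] at h2
  have hpi := Real.pi_pos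
  unfold vv
  field_simp
  linarith

/-- differences are constant on connected sets -/
theorem vv_sub_const (hφ : IsBottcher c φ) {t t' : ℝ} (ht : Lands φ p t) (ht' : Lands φ p t')
    {S : Set ℂ} (hS : IsPreconnected S) (h1 : S ⊆ ZZ φ p t) (h2 : S ⊆ ZZ φ p t') {z z' : ℂ}
    (hz : z ∈ S) (hz' : z' ∈ S) :
    vv φ p t z - vv φ p t' z = vv φ p t z' - vv φ p t' z' := by
  have hc : ContinuousOn (fun z => vv φ p t z - vv φ p t' z) S :=
    ((continuousOn_vv hφ ht).mono h1).sub ((continuousOn_vv hφ ht').mono h2)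
  -- exp (2πi ·) = 1
  have hc2 : ContinuousOn (fun z => 2 * Real.pi * Complex.I * ((vv φ p t z - vv φ p t' z : ℝ) : ℂ)) S :=
    continuousOn_const.mul (Complex.continuous_ofReal.comp_continuousOn hc)
  have := exp_lift_unique hS hc2
    (v := fun _ => 2 * Real.pi * Complex.I * ((vv φ p t z' - vv φ p t' z' : ℝ) : ℂ)) continuousOn_const
    (fun x hx => by
      obtain ⟨n, hn⟩ := vv_sub_int hφ ht ht' (h1 hx) (h2 hx)
      obtain ⟨m, hm⟩ := vv_sub_int hφ ht ht' (h1 hz') (h2 hz')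
      rw [hn, hm]
      have e1 : Complex.exp (2 * Real.pi * Complex.I * ((n:ℝ):ℂ)) = 1 := by
        rw [Complex.exp_eq_one_iff]; exact ⟨n, by push_cast; ring⟩
      have e2 : Complex.exp (2 * Real.pi * Complex.I * ((m:ℝ):ℂ)) = 1 := by
        rw [Complex.exp_eq_one_iff]; exact ⟨m, by push_cast; ring⟩
      rw [e1, e2]) hz' rfl z hz
  have h3 : (2 * (Real.pi:ℂ) * Complex.I) ≠ 0 := Complex.two_pi_I_ne_zero
  have h4 := mul_left_cancel₀ h3 this
  exact_mod_cast h4

end Pool.Agent.H712R2.Cremer
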